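import Pool.Agent.Lib.MP_b9add9_lc.Events

/-!
# Assembly
-/

namespace Pool.Agent.DNP

open ESY MeasureTheory

/-! ### growth -/

/-- the bounds needed at an epoch hold eventually -/
theorem growth_red {T : ℕ → ℕ → ℕ} (hT : Subexponential T) (c d ca cb : ℕ) :
    ∀ᶠ n in Filter.atTop, 32 * (2 ^ n / 32) ≤ 2 ^ n ∧ ∀ l, n ≤ l → l ≤ 2 * n →
      T c l ≤ 2 ^ n / 32 ∧ poly ca (poly d (2 * l + T c l + 1)) ≤ 2 ^ n / 32 ∧
      poly cb (poly d (2 * l + T c l + 1)) ≤ 2 ^ n / 32 ∧ poly d (2 * l + T c l + 1) ≤ LL n := by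
  have hTc : Sub (T c) := fun k => hT c k
  have hl : Sub (fun l => 2 * l) := sub_mul (sub_const 2) sub_id
  have hB : Sub (fun l => poly d (2 * l + T c l + 1)) :=
    sub_poly (sub_add (sub_add hl hTc) (sub_const 1)) d
  have hH : Sub (fun l => T c l + poly ca (poly d (2 * l + T c l + 1)) +
      poly cb (poly d (2 * l + T c l + 1)) + poly d (2 * l + T c l + 1) + 32) :=
    sub_add (sub_add (sub_add (sub_add hTc (sub_poly hB ca)) (sub_poly hB cb)) hB) (sub_const 32)
  obtain ⟨l0, hl0⟩ := Filter.eventually_atTop.1 (hH 4)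
  refine Filter.eventually_atTop.2 ⟨l0, fun n hn => ⟨Nat.mul_div_le _ _, fun l h1 h2 => ?_⟩⟩
  have h3 := hl0 l (hn.trans h1)
  set H := T c l + poly ca (poly d (2 * l + T c l + 1)) +
      poly cb (poly d (2 * l + T c l + 1)) + poly d (2 * l + T c l + 1) + 32 with hHdef
  have h4 : (H ^ 2) ^ 2 ≤ (2 ^ n) ^ 2 := by
    calc (H ^ 2) ^ 2 = H ^ 4 := by ring
      _ ≤ 2 ^ l := h3
      _ ≤ 2 ^ (2 * n) := Nat.pow_le_pow_right (by norm_num) h2
      _ = (2 ^ n) ^ 2 := by rw [← pow_mul, mul_comm]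
  have h5 : H ^ 2 ≤ 2 ^ n := (Nat.pow_le_pow_iff_left (by norm_num)).1 h4
  have h6 : 32 * H ≤ 2 ^ n := by nlinarith
  have h7 : H ≤ 2 ^ n / 32 := by omega
  refine ⟨by omega, by omega, by omega, ?_⟩
  unfold LL
  omega

theorem growth_ver (c d : ℕ) : ∀ᶠ n in Filter.atTop,
    poly c (LL n) ≤ mm n ∧
      poly d (2 * (2 * LL n + poly c (LL n) + 1) + poly c (LL n) + 1) ≤ mm n := by
  have hl : Sub (fun l => 2 * l) := sub_mul (sub_const 2) sub_id
  have hc : Sub (fun l => poly c l) := sub_poly sub_id c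
  have h1 : Sub (fun m => poly d (2 * (2 * m + poly c m + 1) + poly c m + 1)) :=
    sub_poly (sub_add (sub_add (sub_mul (sub_const 2)
      (sub_add (sub_add hl hc) (sub_const 1))) hc) (sub_const 1)) d
  have h2 := hc 1
  have h3 := h1 1
  have h4 : Filter.Tendsto LL Filter.atTop Filter.atTop :=
    Filter.tendsto_atTop_mono (fun n => (lt_LL n).le) Filter.tendsto_id
  filter_upwards [h4.eventually h2, h4.eventually h3] with n g1 g2
  rw [pow_one] at g1 g2
  exact ⟨g1, g2⟩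

/-! ### truncation -/

theorem answers_trunc {O : Oracle} {g : List Bool → List Bool} {x : List Bool} {t m : ℕ}
    (h : ∀ q ∈ queries O g x t, q.length ≤ m) :
    answers (trunc m O) g x t = answers O g x t :=
  answers_congr fun q hq => by unfold trunc; simp [h q hq]

theorem acc_iff {g : List Bool → List Bool} {c d n : ℕ} (hd : ∀ x, (g x).length ≤ poly d x.length)
    (h1 : poly c (LL n) ≤ mm n)
    (h2 : poly d (2 * (2 * LL n + poly c (LL n) + 1) + poly c (LL n) + 1) ≤ mm n)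
    (O : Oracle) (q : List Bool) (hq : q.length ≤ LL n) :
    Acc g c (mm n) O q ↔ ∃ w : List Bool, w.length ≤ poly c q.length ∧
      Outputs O g (pr q w) (poly c q.length) [true] := by
  have hp : poly c q.length ≤ poly c (LL n) := poly_mono' c hq
  have key : ∀ w : List Bool, w.length ≤ poly c q.length →
      (Outputs (trunc (mm n) O) g (pr q w) (poly c q.length) [true] ↔
        Outputs O g (pr q w) (poly c q.length) [true]) := by
    intro w hw
    unfold Outputs
    rw [answers_trunc fun q' hq' => ?_]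
    refine (queries_bound hd O _ _ q' hq').trans (le_trans (poly_mono' d ?_) h2)
    rw [pr_length]
    omega
  unfold Acc
  constructor
  · rintro ⟨w, -, hw, h⟩
    exact ⟨w, hw, (key w hw).1 h⟩
  · rintro ⟨w, hw, h⟩
    exact ⟨w, hw.trans (hp.trans h1), hw, (key w hw).2 h⟩

/-! ### sums -/

theorem sum_bound {K : ℕ → ℕ} {u : ℕ → ℝ} (hu : ∀ j, 0 ≤ u j)
    (hK : ∀ j, (1 ≤ 1024 * 4 ^ K j * u j ∧ K (j + 1) = K j) ∨ K (j + 1) = K j + 1) (J : ℕ) :
    ∑ j ∈ Finset.range J, 1 / (4 : ℝ) ^ K j + 2 / (4 : ℝ) ^ K J ≤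
      1024 * ∑ j ∈ Finset.range J, u j + 2 / (4 : ℝ) ^ K 0 := by
  induction J with
  | zero => simp
  | succ J ih =>
    rw [Finset.sum_range_succ, Finset.sum_range_succ]
    have hpos : (0 : ℝ) < 4 ^ K J := by positivity
    rcases hK J with ⟨h1, h2⟩ | h2
    · rw [h2]
      have h3 : 1 / (4 : ℝ) ^ K J ≤ 1024 * u J := by
        rw [div_le_iff₀ hpos]
        linarith
      linarith
    · rw [h2]
      have h3 : 2 / (4 : ℝ) ^ (K J + 1) = (1 / 2) * (1 / (4 : ℝ) ^ K J) := by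
        rw [pow_succ]
        field_simp
        norm_num
      have h4 : 2 / (4 : ℝ) ^ K J = 2 * (1 / (4 : ℝ) ^ K J) := by ring
      have h5 := hu J
      have h6 : 0 ≤ 1 / (4 : ℝ) ^ K J := by positivity
      rw [h3]
      rw [h4] at ih
      linarith

theorem freq_inc {K : ℕ → ℕ} {u : ℕ → ℝ} (hu : ∀ j, 0 ≤ u j)
    (hK : ∀ j, (1 ≤ 1024 * 4 ^ K j * u j ∧ K (j + 1) = K j) ∨ K (j + 1) = K j + 1)
    {M : ℝ} (hM : ∀ J, ∑ j ∈ Finset.range J, u j ≤ M) :
    ∀ N, ∃ j, N ≤ j ∧ K (j + 1) = K j + 1 := by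
  intro N
  by_contra hcon
  push Not at hcon
  have h1 : ∀ j, N ≤ j → K j = K N := by
    intro j hj
    induction j, hj using Nat.le_induction with
    | base => rfl
    | succ j hj ih =>
      rcases hK j with ⟨-, h⟩ | h
      · rw [h, ih]
      · exact absurd h (hcon j hj)
  have h2 : ∀ m : ℕ, (m : ℝ) * (1 / (4 : ℝ) ^ K N) ≤ 1024 * M + 2 / (4 : ℝ) ^ K 0 := by
    intro m
    have h3 := sum_bound hu hK (N + m)
    have h4 : ∑ j ∈ Finset.range (N + m), 1 / (4 : ℝ) ^ K j ≥ m * (1 / (4 : ℝ) ^ K N) := by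
      rw [Finset.sum_range_add]
      have h5 : ∑ j ∈ Finset.range m, 1 / (4 : ℝ) ^ K (N + j) = m * (1 / (4 : ℝ) ^ K N) := by
        rw [Finset.sum_congr rfl fun j _ => by rw [h1 (N + j) (Nat.le_add_right _ _)]]
        rw [Finset.sum_const, Finset.card_range, nsmul_eq_mul]
      have h6 : 0 ≤ ∑ j ∈ Finset.range N, 1 / (4 : ℝ) ^ K j :=
        Finset.sum_nonneg fun j _ => by positivity
      linarith
    have h7 := hM (N + m)
    have h8 : (0 : ℝ) ≤ 2 / (4 : ℝ) ^ K (N + m) := by positivity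
    linarith
  obtain ⟨m, hm⟩ := exists_nat_gt ((1024 * M + 2 / (4 : ℝ) ^ K 0) * (4 : ℝ) ^ K N)
  have h3 := h2 m
  have hpos : (0 : ℝ) < 4 ^ K N := by positivity
  rw [mul_one_div, div_le_iff₀ hpos] at h3
  linarith

theorem bdd_of_not_tendsto {u : ℕ → ℝ} (hu : ∀ j, 0 ≤ u j)
    (h : ¬ Filter.Tendsto (fun J => ∑ j ∈ Finset.range J, u j) Filter.atTop Filter.atTop) :
    ∃ M, ∀ J, ∑ j ∈ Finset.range J, u j ≤ M := by
  by_contra hcon
  push Not at hcon
  refine h (Filter.tendsto_atTop_atTop_of_monotone ?_ fun b => ?_)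
  · intro a b hab
    exact Finset.sum_le_sum_of_subset_of_nonneg (Finset.range_mono hab) fun j _ _ => hu j
  · obtain ⟨J, hJ⟩ := hcon b
    exact ⟨J, hJ.le⟩

theorem not_tendsto_of_bdd {u : ℕ → ℝ} {M : ℝ} (h : ∀ J, ∑ j ∈ Finset.range J, u j ≤ M) :
    ¬ Filter.Tendsto (fun J => ∑ j ∈ Finset.range J, u j) Filter.atTop Filter.atTop := by
  intro h'
  obtain ⟨J, hJ⟩ := (h'.eventually_gt_atTop M).exists
  exact absurd (h J) (not_le.2 hJ)

theorem tendsto_of_freq {u : ℕ → ℝ} (hu : ∀ j, 0 ≤ u j) {ε : ℝ} (hε : 0 < ε)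
    (h : ∀ N, ∃ j, N ≤ j ∧ ε ≤ u j) :
    Filter.Tendsto (fun J => ∑ j ∈ Finset.range J, u j) Filter.atTop Filter.atTop := by
  by_contra hcon
  obtain ⟨M, hM⟩ := bdd_of_not_tendsto hu hcon
  have hs : Summable u := summable_of_sum_range_le hu hM
  have h0 := hs.tendsto_atTop_zero
  obtain ⟨N, hN⟩ := Filter.eventually_atTop.1 (h0.eventually_lt_const hε)
  obtain ⟨j, hj, hj'⟩ := h N
  exact absurd (hN j hj) (not_lt.2 hj')

theorem cp_nonneg (n L : ℕ) (E : Set Oracle) (R : Oracle) : 0 ≤ cp n L E R := by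
  unfold cp
  positivity

/-! ### the main theorem -/

theorem main (hM : MeasStmt) (hcount : Countable {g : List Bool → List Bool // PolyTime g})
    (hNP : ∀ (X : Oracle) (U : Code), PolyTime U.ga → PolyTime U.gb → ∀ (s : Bool) (N : ℕ)
      (R : Oracle), InNP (join X R) (Adv X U s N R))
    (X : Oracle) (T : ℕ → ℕ → ℕ) (hT : Subexponential T) :
    ∀ᵐ R ∂coin, ∀ A B, DisjointNPPair (join X R) A B →
      ∃ A' B', DisjointNPPair (join X R) A' B' ∧ Tally A' ∧ Tally B' ∧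
        ¬ ReducesTo T (join X R) A' B' A B := by
  have hmeas : ∀ E : ℕ → Set Oracle, (∀ j, Dep (mm (ep j)) (E j)) →
      ∀ᵐ R ∂coin, ((∃ᶠ j in Filter.atTop, R ∈ E j) ↔ Filter.Tendsto
        (fun J => ∑ j ∈ Finset.range J, cp (ep j) (mm (ep j)) (E j) R)
          Filter.atTop Filter.atTop) := fun E hE =>
    hM ep (fun j => mm (ep j)) ep_strictMono (fun j => ⟨(lt_mm _).le, (mm_lt_ep j).le⟩) E hE
  have hae : ∀ᵐ R ∂coin, ∀ (a b : {g : List Bool → List Bool // PolyTime g}) (ca cb : ℕ),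
      ((∃ᶠ j in Filter.atTop, R ∈ E1 X ⟨a.1, ca, b.1, cb⟩ j) ↔ Filter.Tendsto
        (fun J => ∑ j ∈ Finset.range J, cp (ep j) (mm (ep j)) (E1 X ⟨a.1, ca, b.1, cb⟩ j) R)
          Filter.atTop Filter.atTop) ∧
      ((∃ᶠ j in Filter.atTop, R ∈ E2 X ⟨a.1, ca, b.1, cb⟩ j) ↔ Filter.Tendsto
        (fun J => ∑ j ∈ Finset.range J, cp (ep j) (mm (ep j)) (E2 X ⟨a.1, ca, b.1, cb⟩ j) R)
          Filter.atTop Filter.atTop) ∧
      ∀ (g : {g : List Bool → List Bool // PolyTime g}) (c : ℕ),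
        ((∃ᶠ j in Filter.atTop, R ∈ E3 X ⟨a.1, ca, b.1, cb⟩ g.1 (T c) j) ↔ Filter.Tendsto
        (fun J => ∑ j ∈ Finset.range J, cp (ep j) (mm (ep j))
          (E3 X ⟨a.1, ca, b.1, cb⟩ g.1 (T c) j) R) Filter.atTop Filter.atTop) := by
    refine ae_all_iff.2 fun a => ae_all_iff.2 fun b => ae_all_iff.2 fun ca =>
      ae_all_iff.2 fun cb => ?_
    filter_upwards [hmeas _ (dep_E1 X ⟨a.1, ca, b.1, cb⟩), hmeas _ (dep_E2 X ⟨a.1, ca, b.1, cb⟩),
      ae_all_iff.2 fun g : {g : List Bool → List Bool // PolyTime g} =>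
        ae_all_iff.2 fun c : ℕ => hmeas _ (dep_E3 X ⟨a.1, ca, b.1, cb⟩ g.1 (T c))]
      with R h1 h2 h3
    exact ⟨h1, h2, h3⟩
  filter_upwards [hae] with R hR
  rintro A B ⟨⟨ga, ca, hga, hA⟩, ⟨gb, cb, hgb, hB⟩, hdisj⟩
  obtain ⟨h1, h2, h3⟩ := hR ⟨ga, hga⟩ ⟨gb, hgb⟩ ca cb
  set U : Code := ⟨ga, ca, gb, cb⟩ with hU
  set O := join X R with hO
  obtain ⟨da, hda⟩ := hga.bound
  obtain ⟨db, hdb⟩ := hgb.bound
  have hep : Filter.Tendsto ep Filter.atTop Filter.atTop := ep_strictMono.tendsto_atTop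
  -- the pair is seen correctly from some epoch on
  obtain ⟨j0, hj0⟩ := Filter.eventually_atTop.1 (hep.eventually
    ((growth_ver ca da).and (growth_ver cb db)))
  have hAcc : ∀ j, j0 ≤ j → ∀ q : List Bool, q.length ≤ LL (ep j) →
      (Acc ga ca (mm (ep j)) O q ↔ q ∈ A) := by
    intro j hj q hq
    obtain ⟨⟨g1, g2⟩, -⟩ := hj0 j hj
    rw [acc_iff hda g1 g2 O q hq, hA]
  have hBcc : ∀ j, j0 ≤ j → ∀ q : List Bool, q.length ≤ LL (ep j) →
      (Acc gb cb (mm (ep j)) O q ↔ q ∈ B) := by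
    intro j hj q hq
    obtain ⟨-, g1, g2⟩ := hj0 j hj
    rw [acc_iff hdb g1 g2 O q hq, hB]
  have hE1 : ¬ ∃ᶠ j in Filter.atTop, R ∈ E1 X U j := by
    rw [Filter.not_frequently]
    refine Filter.eventually_atTop.2 ⟨j0, fun j hj hmem => ?_⟩
    obtain ⟨q, hq, ha, hb⟩ := hmem
    exact Set.disjoint_left.1 hdisj ((hAcc j hj q hq).1 ha) ((hBcc j hj q hq).1 hb)
  have hbd1 := bdd_of_not_tendsto (fun j => cp_nonneg _ _ _ R) (fun h => hE1 (h1.2 h))
  obtain ⟨M, hMb⟩ := hbd1
  -- the parameters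
  have hK : ∀ j, (1 ≤ 1024 * 4 ^ KK X U R j * cp (ep j) (mm (ep j)) (E1 X U j) R ∧
      KK X U R (j + 1) = KK X U R j) ∨ KK X U R (j + 1) = KK X U R j + 1 := by
    intro j
    by_cases hc : Cond X U R (ep j) (KK X U R j)
    · refine Or.inl ⟨(cond_iff X U R j _).1 hc, ?_⟩
      conv_lhs => unfold KK
      rw [if_pos hc]
    · refine Or.inr ?_
      conv_lhs => unfold KK
      rw [if_neg hc]
  have hnC : ∀ j, KK X U R (j + 1) = KK X U R j + 1 → ¬ Cond X U R (ep j) (KK X U R j) := by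
    intro j hj hc
    have : KK X U R (j + 1) = KK X U R j := by
      conv_lhs => unfold KK
      rw [if_pos hc]
    omega
  have hsum := sum_bound (fun j => cp_nonneg (ep j) (mm (ep j)) (E1 X U j) R) hK
  have hfreq := freq_inc (fun j => cp_nonneg (ep j) (mm (ep j)) (E1 X U j) R) hK hMb
  -- finitely many double epochs
  have hE2 : ¬ ∃ᶠ j in Filter.atTop, R ∈ E2 X U j := by
    rw [h2]
    refine not_tendsto_of_bdd (M := 1024 * M + 2 / (4 : ℝ) ^ KK X U R 0) fun J => ?_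
    have g1 : ∑ j ∈ Finset.range J, cp (ep j) (mm (ep j)) (E2 X U j) R ≤
        ∑ j ∈ Finset.range J, 1 / (4 : ℝ) ^ KK X U R j := by
      refine Finset.sum_le_sum fun j _ => (cp_E2 X U R j).trans ?_
      refine one_div_le_one_div_of_le (by positivity) ?_
      have : (0 : ℝ) < 4 ^ KK X U R j := by positivity
      linarith
    have g2 := hsum J
    have g3 := hMb J
    have g4 : (0 : ℝ) ≤ 2 / (4 : ℝ) ^ KK X U R J := by positivity
    linarith
  rw [Filter.not_frequently] at hE2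
  obtain ⟨N, hN⟩ := Filter.eventually_atTop.1 hE2
  refine ⟨Adv X U true N R, Adv X U false N R, ⟨hNP X U hga hgb true N R,
    hNP X U hga hgb false N R, ?_⟩, ?_, ?_, ?_⟩
  · -- disjointness
    refine Set.disjoint_left.2 ?_
    rintro x ⟨j, z, hj, hz, hx, y, hy, ho⟩ ⟨j', z', hj', hz', hx', y', hy', ho'⟩
    have hlen : ep j + z = ep j' + z' := by
      have := congrArg List.length (hx.symm.trans hx')
      simpa using this
    have b1 := pow_KK_le X U R j
    have b2 := pow_KK_le X U R j'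
    have step : ∀ a b, a < b → 4 * 4 ^ KK X U R a ≤ ep a → ep a + 4 ^ KK X U R a < ep b := by
      intro a b hab hle
      have e1 : ep (a + 1) ≤ ep b := ep_strictMono.monotone hab
      have e2 := mm_lt_ep a
      have e3 := LL_lt_mm (ep a)
      have e4 := four_mul_le (ep a) (four_le_ep a)
      omega
    have hjj : j = j' := by
      rcases lt_trichotomy j j' with h | h | h
      · have := step j j' h b1
        omega
      · exact h
      · have := step j' j h b2
        omega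
    subst hjj
    have hzz : z = z' := by omega
    subst hzz
    exact hN j hj ⟨z, hz, y, y', hy, hy', ho, ho'⟩
  · rintro x ⟨j, z, -, -, rfl, -⟩
    rw [List.length_replicate]
  · rintro x ⟨j, z, -, -, rfl, -⟩
    rw [List.length_replicate]
  · rintro ⟨f, ⟨g, c, hg, hf⟩, hfA, hfB⟩
    obtain ⟨d, hd⟩ := hg.bound
    obtain ⟨j1, hj1⟩ := Filter.eventually_atTop.1 (hep.eventually (growth_red hT c d ca cb))
    have hFT : ∀ l, ∀ O' : Oracle, ∀ m, (FT g (T c l) m O' (List.replicate l true)).length ≤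
        poly d (2 * l + T c l + 1) := by
      intro l O' m
      unfold FT
      have e1 : (g (pr (List.replicate l true) (answers (trunc m O') g
          (List.replicate l true) (T c l)))).tail.length ≤
          (g (pr (List.replicate l true) (answers (trunc m O') g
          (List.replicate l true) (T c l)))).length := by
        rw [List.length_tail]
        exact Nat.sub_le _ _
      refine e1.trans ((hd _).trans (poly_mono' d ?_))
      rw [pr_length, List.length_replicate]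
      have := length_answers (trunc m O') g (List.replicate l true) (T c l)
      omega
    have hE3 : ∃ᶠ j in Filter.atTop, R ∈ E3 X U g (T c) j := by
      refine (h3 ⟨g, hg⟩ c).2 (tendsto_of_freq (fun j => cp_nonneg _ _ _ R)
        (ε := 1 / 128) (by norm_num) fun N' => ?_)
      obtain ⟨j, hj, hinc⟩ := hfreq (max N' j1)
      refine ⟨j, (le_max_left _ _).trans hj, ?_⟩
      obtain ⟨k1, k2⟩ := hj1 j ((le_max_right _ _).trans hj)
      exact cp_E3 X U R j g (T c) (fun l => poly d (2 * l + T c l + 1)) (2 ^ ep j / 32)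
        (fun l g1 g2 => k2 l g1 g2) k1 (fun l _ _ O' => hFT l O' _) (hnC j hinc)
    obtain ⟨j, hj, hmem⟩ := Filter.frequently_atTop.1 hE3 (max N (max j0 j1))
    have hjN : N ≤ j := (le_max_left _ _).trans hj
    have hjj0 : j0 ≤ j := (le_max_left _ _).trans ((le_max_right _ _).trans hj)
    have hjj1 : j1 ≤ j := (le_max_right _ _).trans ((le_max_right _ _).trans hj)
    obtain ⟨z, hz, y, hy, hcase⟩ := hmem
    have b1 := pow_KK_le X U R j
    obtain ⟨k1, k2⟩ := hj1 j hjj1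
    obtain ⟨m1, m2, m3, m4⟩ := k2 (ep j + z) (by omega) (by omega)
    set x := List.replicate (ep j + z) true with hx
    have hxl : x.length = ep j + z := List.length_replicate
    have hFTf : FT g (T c (ep j + z)) (mm (ep j)) O x = f x := by
      have q1 := hf x
      rw [hxl] at q1
      unfold Outputs at q1
      unfold FT
      rw [answers_trunc fun q hq => ?_, q1]
      · rfl
      · have q2 := queries_bound hd O x (T c (ep j + z)) q hq
        rw [hxl] at q2
        exact q2.trans (m4.trans (LL_lt_mm _).le)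
    have hfl : (f x).length ≤ LL (ep j) := by
      rw [← hFTf]
      exact (hFT _ _ _).trans m4
    rcases hcase with ⟨ho, hn⟩ | ⟨ho, hn⟩
    · apply hn
      rw [hFTf]
      exact (hAcc j hjj0 _ hfl).2 (hfA x ⟨j, z, hjN, hz, hx, y, hy, ho⟩)
    · apply hn
      rw [hFTf]
      exact (hBcc j hjj0 _ hfl).2 (hfB x ⟨j, z, hjN, hz, hx, y, hy, ho⟩)

end Pool.Agent.DNP
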