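import Pool.Agent.Lib.PolyTime.Raw
import Pool.Agent.Lib.PolyTime.More

/-!
# Mathlib's polynomial-time machines compute `PT` functions

The converse of `PT.tm2Raw`: a function on bit strings that some `Turing.FinTM2` machine computes
in polynomial time is in `PT`.
-/

namespace Pool.Agent.DNP

open Turing Function Polynomial Computability Pool.Agent.PolyTime

section conv

variable {K : Type} [DecidableEq K] [Fintype K] {Γ : K → Type} {Λ σ : Type} [Fintype Λ]
  [Fintype σ]

/-- the symbols pushed by a statement -/
noncomputable def needed : TM2.Stmt Γ Λ σ → List (Σ k, Γ k)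
  | .push k f q => (Finset.univ : Finset σ).toList.map (fun v => (⟨k, f v⟩ : Σ k, Γ k)) ++ needed q
  | .peek _ _ q => needed q
  | .pop _ _ q => needed q
  | .load _ q => needed q
  | .branch _ q₁ q₂ => needed q₁ ++ needed q₂
  | .goto _ => []
  | .halt => []

/-- number of an element of a finite type -/
noncomputable def num {τ : Type} [Fintype τ] (v : τ) : ℕ := (Fintype.equivFin τ v).val

/-- the table of a function on a finite type -/
noncomputable def tab {τ ρ : Type} [Fintype τ] (g : τ → ρ) : List ρ :=
  List.ofFn fun i => g ((Fintype.equivFin τ).symm i)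

theorem tab_getD {τ ρ : Type} [Fintype τ] (g : τ → ρ) (v : τ) (d : ρ) :
    (tab g).getD (num v) d = g v := by
  unfold tab num
  rw [List.getD_eq_getElem?_getD, List.getElem?_ofFn]
  simp

theorem num_inj {τ : Type} [Fintype τ] {v w : τ} (h : num v = num w) : v = w := by
  unfold num at h
  exact (Fintype.equivFin τ).injective (Fin.ext h)

theorem num_lt {τ : Type} [Fintype τ] (v : τ) : num v < Fintype.card τ :=
  (Fintype.equivFin τ v).isLt

open Classical in
/-- the code of a symbol -/
noncomputable def cd (L : List (Σ k, Γ k)) (s : Σ k, Γ k) : ℕ :=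
  if h : ∃ n, L[n]? = some s then h.choose else 0

theorem cd_spec {L : List (Σ k, Γ k)} {s : Σ k, Γ k} (h : s ∈ L) : L[cd L s]? = some s := by
  have h' : ∃ n, L[n]? = some s := List.mem_iff_getElem?.1 h
  unfold cd
  rw [dif_pos h']
  exact h'.choose_spec

/-- the symbol of stack `k` with code `n` -/
def dec (L : List (Σ k, Γ k)) (k : K) (n : ℕ) : Option (Γ k) :=
  match L[n]? with
  | none => none
  | some s => if h : s.1 = k then some (h ▸ s.2) else none

theorem dec_cd {L : List (Σ k, Γ k)} {k : K} {γ : Γ k} (h : (⟨k, γ⟩ : Σ k, Γ k) ∈ L) :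
    dec L k (cd L ⟨k, γ⟩) = some γ := by
  unfold dec
  rw [cd_spec h]
  simp

/-- the new state after looking at the top of stack `k` -/
noncomputable def look (L : List (Σ k, Γ k)) (k : K) (f : σ → Option (Γ k) → σ)
    (c : ℕ × List (List ℕ)) : ℕ :=
  match (c.2.getD (num k) []).head? with
  | none => (tab (fun v => num (f v none))).getD c.1 0
  | some n => ((tab (fun v => (List.range L.length).map
      (fun n => num (f v (dec L k n))))).getD c.1 []).getD n 0

/-- a statement on codes -/
noncomputable def runQ (L : List (Σ k, Γ k)) :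
    TM2.Stmt Γ Λ σ → ℕ × List (List ℕ) → ℕ × (ℕ × List (List ℕ))
  | .push k f q, c => runQ L q (c.1, c.2.set (num k)
      ((tab (fun v => cd L ⟨k, f v⟩)).getD c.1 0 :: c.2.getD (num k) []))
  | .peek k f q, c => runQ L q (look L k f c, c.2)
  | .pop k f q, c => runQ L q (look L k f c, c.2.set (num k) (c.2.getD (num k) []).tail)
  | .load a q, c => runQ L q ((tab (fun v => num (a v))).getD c.1 0, c.2)
  | .branch f q₁ q₂, c => if (tab f).getD c.1 false = true then runQ L q₁ c else runQ L q₂ c
  | .goto f, c => ((tab (fun v => num (f v) + 1)).getD c.1 0, c)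
  | .halt, c => (0, c)

theorem PT.headD0 {α : Type} [Rep α] {f : α → List ℕ} (hf : PT f) :
    PT (fun a => (f a).head?) := hf.head?

theorem PT_look (L : List (Σ k, Γ k)) (k : K) (f : σ → Option (Γ k) → σ) :
    PT (look L k f) := by
  have h1 : PT (fun c : ℕ × List (List ℕ) => (c.2.getD (num k) []).head?) :=
    (PT.listGetD PT.id.snd (PT.const _) (PT.const _)).head?
  refine PT.congr (PT.optionCases (α := ℕ × List (List ℕ)) h1
    (f := fun c => (tab (fun v => num (f v none))).getD c.1 0)
    (g := fun c n => ((tab (fun v => (List.range L.length).map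
      (fun n => num (f v (dec L k n))))).getD c.1 []).getD n 0) ?_ ?_) ?_
  · exact PT.listGetD (PT.const _) PT.id.fst (PT.const _)
  · exact PT.listGetD (PT.listGetD (PT.const _) PT.id.fst.fst (PT.const _)) PT.id.snd (PT.const _)
  · intro c
    unfold look
    cases (c.2.getD (num k) []).head? <;> rfl

theorem PT_runQ (L : List (Σ k, Γ k)) (q : TM2.Stmt Γ Λ σ) : PT (runQ L q) := by
  induction q with
  | push k f q ih =>
    refine PT.comp (g := runQ L q) (f := fun c : ℕ × List (List ℕ) => (c.1, c.2.set (num k)
      ((tab (fun v => cd L ⟨k, f v⟩)).getD c.1 0 :: c.2.getD (num k) []))) ih ?_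
    refine PT.pair PT.id.fst (PT.set PT.id.snd (PT.const _) (PT.cons ?_ ?_))
    · exact PT.listGetD (PT.const _) PT.id.fst (PT.const _)
    · exact PT.listGetD PT.id.snd (PT.const _) (PT.const _)
  | peek k f q ih =>
    exact PT.comp (g := runQ L q) (f := fun c : ℕ × List (List ℕ) => (look L k f c, c.2)) ih
      (PT.pair (PT_look L k f) PT.id.snd)
  | pop k f q ih =>
    refine PT.comp (g := runQ L q) (f := fun c : ℕ × List (List ℕ) =>
      (look L k f c, c.2.set (num k) (c.2.getD (num k) []).tail)) ih
      (PT.pair (PT_look L k f) (PT.set PT.id.snd (PT.const _) (PT.tail ?_)))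
    exact PT.listGetD PT.id.snd (PT.const _) (PT.const _)
  | load a q ih =>
    exact PT.comp (g := runQ L q) (f := fun c : ℕ × List (List ℕ) =>
      ((tab (fun v => num (a v))).getD c.1 0, c.2)) ih
      (PT.pair (PT.listGetD (PT.const _) PT.id.fst (PT.const _)) PT.id.snd)
  | branch f q₁ q₂ ih₁ ih₂ =>
    exact (PT.ite (c := fun c : ℕ × List (List ℕ) => (tab f).getD c.1 false)
      (PT.listGetD (PT.const _) PT.id.fst (PT.const _)) ih₁ ih₂).congr fun c => rfl
  | goto f =>
    exact PT.pair (PT.listGetD (PT.const _) PT.id.fst (PT.const _)) PT.id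
  | halt => exact PT.pair (PT.const _) PT.id

/-! ### sizes -/

theorem getD_le_sum (l : List ℕ) (n : ℕ) : l.getD n 0 ≤ l.sum := by
  induction l generalizing n with
  | nil => simp
  | cons a l ih =>
    cases n with
    | zero => simp
    | succ n =>
      have := ih n
      simp only [List.getD_cons_succ, List.sum_cons]
      omega

theorem getD2_le_sum (l : List (List ℕ)) (i n : ℕ) :
    (l.getD i []).getD n 0 ≤ (l.map List.sum).sum := by
  induction l generalizing i with
  | nil => simp
  | cons a l ih =>
    cases i with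
    | zero =>
      have := getD_le_sum a n
      simp only [List.getD_cons_zero, List.map_cons, List.sum_cons]
      omega
    | succ i =>
      have := ih i
      simp only [List.getD_cons_succ, List.map_cons, List.sum_cons]
      omega

theorem sz_set_le (S : List (List ℕ)) (i : ℕ) (b : ℕ) (g : List ℕ → List ℕ)
    (hg : ∀ l, sz (g l) ≤ sz l + b) : sz (S.set i (g (S.getD i []))) ≤ sz S + b := by
  induction S generalizing i with
  | nil => simp
  | cons a S ih =>
    cases i with
    | zero =>
      have := hg a
      simp only [List.getD_cons_zero, List.set_cons_zero, sz_cons]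
      omega
    | succ i =>
      have := ih i
      simp only [List.getD_cons_succ, List.set_cons_succ, sz_cons]
      omega

theorem look_le (L : List (Σ k, Γ k)) (k : K) (f : σ → Option (Γ k) → σ) :
    ∃ C, ∀ c, look L k f c ≤ C := by
  refine ⟨(tab (fun v => num (f v none))).sum + ((tab (fun v => (List.range L.length).map
      (fun n => num (f v (dec L k n))))).map List.sum).sum, fun c => ?_⟩
  unfold look
  cases (c.2.getD (num k) []).head? with
  | none => exact (getD_le_sum _ _).trans (Nat.le_add_right _ _)
  | some n => exact (getD2_le_sum _ _ _).trans (Nat.le_add_left _ _)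

theorem runQ_sz (L : List (Σ k, Γ k)) (q : TM2.Stmt Γ Λ σ) :
    ∃ C, ∀ c, sz (runQ L q c).2 ≤ sz c + C ∧ (runQ L q c).1 ≤ C := by
  induction q with
  | push k f q ih =>
    obtain ⟨C, hC⟩ := ih
    refine ⟨C + (2 * (tab (fun v => cd L ⟨k, f v⟩)).sum + 4), fun c => ?_⟩
    have h1 := hC (c.1, c.2.set (num k)
      ((tab (fun v => cd L ⟨k, f v⟩)).getD c.1 0 :: c.2.getD (num k) []))
    have h2 := sz_set_le c.2 (num k) (2 * (tab (fun v => cd L ⟨k, f v⟩)).sum + 4)
      (fun l => (tab (fun v => cd L ⟨k, f v⟩)).getD c.1 0 :: l) (by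
        intro l
        have := getD_le_sum (tab (fun v => cd L ⟨k, f v⟩)) c.1
        simp only [sz_cons, sz_nat]
        omega)
    simp only [runQ]
    simp only [sz_pair] at h1 ⊢
    have h3 : sz c = sz c.1 + sz c.2 + 1 := sz_prod c
    omega
  | peek k f q ih =>
    obtain ⟨C, hC⟩ := ih
    obtain ⟨D, hD⟩ := look_le (σ := σ) L k f
    refine ⟨C + 2 * D + 4, fun c => ?_⟩
    have h1 := hC (look L k f c, c.2)
    have h2 := hD c
    simp only [runQ]
    simp only [sz_pair, sz_nat] at h1 ⊢
    have h3 : sz c = sz c.1 + sz c.2 + 1 := sz_prod c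
    omega
  | pop k f q ih =>
    obtain ⟨C, hC⟩ := ih
    obtain ⟨D, hD⟩ := look_le (σ := σ) L k f
    refine ⟨C + 2 * D + 4, fun c => ?_⟩
    have h1 := hC (look L k f c, c.2.set (num k) (c.2.getD (num k) []).tail)
    have h2 := hD c
    have h4 := sz_set_le c.2 (num k) 0 (fun l => l.tail) (fun l => by
      simpa using sz_sublist (List.tail_sublist l))
    simp only [runQ]
    simp only [sz_pair, sz_nat] at h1 ⊢
    have h3 : sz c = sz c.1 + sz c.2 + 1 := sz_prod c
    omega
  | load a q ih =>
    obtain ⟨C, hC⟩ := ih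
    refine ⟨C + 2 * (tab (fun v => num (a v))).sum + 4, fun c => ?_⟩
    have h1 := hC ((tab (fun v => num (a v))).getD c.1 0, c.2)
    have h2 := getD_le_sum (tab (fun v => num (a v))) c.1
    simp only [runQ]
    simp only [sz_pair, sz_nat] at h1 ⊢
    have h3 : sz c = sz c.1 + sz c.2 + 1 := sz_prod c
    omega
  | branch f q₁ q₂ ih₁ ih₂ =>
    obtain ⟨C, hC⟩ := ih₁
    obtain ⟨D, hD⟩ := ih₂
    refine ⟨C + D, fun c => ?_⟩
    have h1 := hC c
    have h2 := hD c
    simp only [runQ]
    split_ifs
    · omega
    · omega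
  | goto f =>
    refine ⟨(tab (fun v => num (f v) + 1)).sum, fun c => ?_⟩
    have := getD_le_sum (tab (fun v => num (f v) + 1)) c.1
    simp only [runQ]
    omega
  | halt => exact ⟨0, fun c => by simp [runQ]⟩

/-! ### simulation -/

/-- the codes `m` represent the stack `l` -/
def SRel (L : List (Σ k, Γ k)) (k : K) (l : List (Γ k)) (m : List ℕ) : Prop :=
  m.map (dec L k) = l.map some

/-- the codes represent the internal state and the stacks -/
def Rel (L : List (Σ k, Γ k)) (v : σ) (S : ∀ k, List (Γ k)) (c : ℕ × List (List ℕ)) : Prop :=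
  c.1 = num v ∧ c.2.length = Fintype.card K ∧ ∀ k, SRel L k (S k) (c.2.getD (num k) [])

/-- label codes -/
noncomputable def lab (l : Option Λ) : ℕ :=
  match l with
  | none => 0
  | some l => num l + 1

theorem SRel.head {L : List (Σ k, Γ k)} {k : K} {l : List (Γ k)} {m : List ℕ} (h : SRel L k l m) :
    (m.head? = none ∧ l.head? = none) ∨
      ∃ n, m.head? = some n ∧ dec L k n = l.head? ∧ n < L.length := by
  unfold SRel at h
  cases m with
  | nil =>
    cases l with
    | nil => exact Or.inl ⟨rfl, rfl⟩
    | cons a l => simp at h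
  | cons n m =>
    cases l with
    | nil => simp at h
    | cons a l =>
      simp only [List.map_cons, List.cons.injEq] at h
      refine Or.inr ⟨n, rfl, h.1, ?_⟩
      by_contra hn
      have h1 := h.1
      unfold dec at h1
      rw [List.getElem?_eq_none (not_lt.1 hn)] at h1
      simp at h1

theorem SRel.tail {L : List (Σ k, Γ k)} {k : K} {l : List (Γ k)} {m : List ℕ} (h : SRel L k l m) :
    SRel L k l.tail m.tail := by
  unfold SRel at h ⊢
  rw [List.map_tail, List.map_tail, h]

theorem SRel.cons {L : List (Σ k, Γ k)} {k : K} {l : List (Γ k)} {m : List ℕ} (h : SRel L k l m)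
    {γ : Γ k} (hγ : (⟨k, γ⟩ : Σ k, Γ k) ∈ L) : SRel L k (γ :: l) (cd L ⟨k, γ⟩ :: m) := by
  unfold SRel at h ⊢
  rw [List.map_cons, List.map_cons, h, dec_cd hγ]

theorem look_eq {L : List (Σ k, Γ k)} {v : σ} {S : ∀ k, List (Γ k)} {c : ℕ × List (List ℕ)}
    (h : Rel L v S c) (k : K) (f : σ → Option (Γ k) → σ) :
    look L k f c = num (f v (S k).head?) := by
  obtain ⟨h1, h2, h3⟩ := h
  unfold look
  rcases (h3 k).head with ⟨e1, e2⟩ | ⟨n, e1, e2, e3⟩
  · rw [e1, e2]
    simp only
    rw [h1, tab_getD]
  · rw [e1, ← e2]
    simp only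
    rw [h1, tab_getD, List.getD_eq_getElem?_getD, List.getElem?_map, List.getElem?_range e3]
    rfl

theorem Rel.update {L : List (Σ k, Γ k)} {v : σ} {S : ∀ k, List (Γ k)} {c : ℕ × List (List ℕ)}
    (h : Rel L v S c) (w : σ) (k : K) {l : List (Γ k)} {m : List ℕ} (hl : SRel L k l m) :
    Rel L w (update S k l) (num w, c.2.set (num k) m) := by
  obtain ⟨h1, h2, h3⟩ := h
  refine ⟨rfl, by simpa using h2, fun k' => ?_⟩
  by_cases hk : k' = k
  · subst hk
    simp only [update_self]
    rw [List.getD_eq_getElem?_getD, List.getElem?_set_self (by rw [h2]; exact num_lt _)]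
    exact hl
  · simp only [update_of_ne hk]
    have hne : num k ≠ num k' := fun hh => hk (num_inj hh).symm
    rw [List.getD_eq_getElem?_getD, List.getElem?_set_ne hne, ← List.getD_eq_getElem?_getD]
    exact h3 k'

theorem Rel.state {L : List (Σ k, Γ k)} {v : σ} {S : ∀ k, List (Γ k)} {c : ℕ × List (List ℕ)}
    (h : Rel L v S c) (w : σ) : Rel L w S (num w, c.2) := ⟨rfl, h.2.1, h.2.2⟩

theorem runQ_sim {L : List (Σ k, Γ k)} (q : TM2.Stmt Γ Λ σ) (hq : ∀ s ∈ needed q, s ∈ L) :
    ∀ {v : σ} {S : ∀ k, List (Γ k)} {c : ℕ × List (List ℕ)}, Rel L v S c →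
      (runQ L q c).1 = lab (TM2.stepAux q v S).l ∧
        Rel L (TM2.stepAux q v S).var (TM2.stepAux q v S).stk (runQ L q c).2 := by
  induction q with
  | push k f q ih =>
    intro v S c h
    simp only [runQ, TM2.stepAux]
    have hv : c.1 = num v := h.1
    refine ih (fun s hs => hq s (List.mem_append_right _ hs)) ?_
    rw [hv, tab_getD]
    exact h.update v k ((h.2.2 k).cons (hq _ (List.mem_append_left _
      (List.mem_map.2 ⟨v, by simp, rfl⟩))))
  | peek k f q ih =>
    intro v S c h
    simp only [runQ, TM2.stepAux]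
    refine ih hq ?_
    rw [look_eq h]
    exact h.state _
  | pop k f q ih =>
    intro v S c h
    simp only [runQ, TM2.stepAux]
    refine ih hq ?_
    rw [look_eq h]
    exact h.update _ k (h.2.2 k).tail
  | load a q ih =>
    intro v S c h
    simp only [runQ, TM2.stepAux]
    refine ih hq ?_
    have hv : c.1 = num v := h.1
    rw [hv, tab_getD]
    exact h.state _
  | branch f q₁ q₂ ih₁ ih₂ =>
    intro v S c h
    simp only [runQ, TM2.stepAux]
    have hv : c.1 = num v := h.1
    rw [hv, tab_getD]
    cases hf : f v with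
    | true => simpa using ih₁ (fun s hs => hq s (List.mem_append_left _ hs)) h
    | false => simpa using ih₂ (fun s hs => hq s (List.mem_append_right _ hs)) h
  | goto f =>
    intro v S c h
    simp only [runQ, TM2.stepAux]
    have hv : c.1 = num v := h.1
    rw [hv, tab_getD]
    exact ⟨rfl, h⟩
  | halt =>
    intro v S c h
    exact ⟨rfl, h⟩

/-- one step on codes -/
noncomputable def stepL (L : List (Σ k, Γ k)) (M : Λ → TM2.Stmt Γ Λ σ) (ls : List Λ)
    (c : ℕ × (ℕ × List (List ℕ))) : ℕ × (ℕ × List (List ℕ)) :=
  match ls with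
  | [] => c
  | l :: ls => if c.1 = num l + 1 then runQ L (M l) c.2 else stepL L M ls c

theorem PT_stepL (L : List (Σ k, Γ k)) (M : Λ → TM2.Stmt Γ Λ σ) (ls : List Λ) :
    PT (stepL L M ls) := by
  induction ls with
  | nil => exact PT.id
  | cons l ls ih =>
    exact (PT.iteProp (c := fun c : ℕ × (ℕ × List (List ℕ)) => c.1 = num l + 1)
      (PT.natEq PT.id.fst (PT.const _)) (PT.comp (PT_runQ L (M l)) PT.id.snd) ih).congr
      fun c => rfl

theorem stepL_sz (L : List (Σ k, Γ k)) (M : Λ → TM2.Stmt Γ Λ σ) (ls : List Λ) :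
    ∃ C, ∀ c, sz (stepL L M ls c) ≤ sz c + C := by
  induction ls with
  | nil => exact ⟨0, fun c => by simp [stepL]⟩
  | cons l ls ih =>
    obtain ⟨C, hC⟩ := ih
    obtain ⟨D, hD⟩ := runQ_sz L (M l)
    refine ⟨C + 3 * D + 10, fun c => ?_⟩
    unfold stepL
    split_ifs with h
    · have h1 := hD c.2
      have h2 : sz c = sz c.1 + sz c.2 + 1 := sz_prod c
      have h3 : sz (runQ L (M l) c.2) = sz (runQ L (M l) c.2).1 + sz (runQ L (M l) c.2).2 + 1 :=
        sz_prod _
      have h4 : sz (runQ L (M l) c.2).1 = 2 * (runQ L (M l) c.2).1 + 1 := by rw [sz_nat]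
      omega
    · have := hC c
      omega

theorem stepL_zero (L : List (Σ k, Γ k)) (M : Λ → TM2.Stmt Γ Λ σ) (ls : List Λ)
    (c : ℕ × (ℕ × List (List ℕ))) (hc : c.1 = 0) : stepL L M ls c = c := by
  induction ls with
  | nil => rfl
  | cons l ls ih =>
    unfold stepL
    rw [if_neg (by omega), ih]

theorem stepL_some (L : List (Σ k, Γ k)) (M : Λ → TM2.Stmt Γ Λ σ) (ls : List Λ)
    (c : ℕ × (ℕ × List (List ℕ))) (l : Λ) (hl : l ∈ ls) (hc : c.1 = num l + 1) :
    stepL L M ls c = runQ L (M l) c.2 := by
  induction ls with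
  | nil => simp at hl
  | cons l' ls ih =>
    unfold stepL
    by_cases h : c.1 = num l' + 1
    · have : l' = l := num_inj (by omega)
      rw [if_pos h, this]
    · rw [if_neg h]
      refine ih ?_
      rcases List.mem_cons.1 hl with rfl | h'
      · exact absurd hc h
      · exact h'

/-- configurations and codes -/
def RC (L : List (Σ k, Γ k)) (C : TM2.Cfg Γ Λ σ) (c : ℕ × (ℕ × List (List ℕ))) : Prop :=
  c.1 = lab C.l ∧ Rel L C.var C.stk c.2

theorem bind_none_iter {α : Type} (f : α → Option α) (n : ℕ) :
    (flip bind f)^[n] none = none := by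
  induction n with
  | zero => rfl
  | succ n ih => rw [iterate_succ_apply]; exact ih

theorem sim_iter {L : List (Σ k, Γ k)} {M : Λ → TM2.Stmt Γ Λ σ} {ls : List Λ}
    (hL : ∀ l, ∀ s ∈ needed (M l), s ∈ L) (hls : ∀ l, l ∈ ls) (n : ℕ) :
    ∀ (C : TM2.Cfg Γ Λ σ) (c : ℕ × (ℕ × List (List ℕ))), RC L C c →
      ∀ C', (flip bind (TM2.step M))^[n] (some C) = some C' → RC L C' ((stepL L M ls)^[n] c) := by
  induction n with
  | zero =>
    intro C c h C' h'
    simp only [iterate_zero_apply, Option.some.injEq] at h'
    subst h'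
    exact h
  | succ n ih =>
    intro C c h C' h'
    rw [iterate_succ_apply] at h' ⊢
    obtain ⟨l, v, S⟩ := C
    cases l with
    | none =>
      have h1 : flip bind (TM2.step M) (some (⟨none, v, S⟩ : TM2.Cfg Γ Λ σ)) = none := rfl
      rw [h1, bind_none_iter] at h'
      exact absurd h' (by simp)
    | some l =>
      have h1 : flip bind (TM2.step M) (some (⟨some l, v, S⟩ : TM2.Cfg Γ Λ σ)) =
        some (TM2.stepAux (M l) v S) := rfl
      rw [h1] at h'
      refine ih _ _ ?_ _ h'
      have h2 : c.1 = num l + 1 := h.1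
      rw [stepL_some L M ls c l (hls l) h2]
      exact runQ_sim (M l) (hL l) h.2

end conv

theorem PT.polyEval {α : Type} [Rep α] {f : α → ℕ} (hf : PT f) (p : Polynomial ℕ) :
    PT (fun a => p.eval (f a)) := by
  induction p using Polynomial.induction_on' with
  | add p q hp hq => exact (PT.add hp hq).congr fun a => by rw [eval_add]
  | monomial n c =>
    exact (PT.mul (PT.const c) (PT.pow hf n)).congr fun a => by rw [eval_monomial]

theorem sz_pow_iter {τ : Type} [Rep τ] (g : τ → τ) (C : ℕ) (hg : ∀ c, sz (g c) ≤ sz c + C)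
    (m : ℕ) (c : τ) : sz (g^[m] c) ≤ sz c + m * C := by
  induction m generalizing c with
  | zero => simp
  | succ m ih =>
    rw [iterate_succ_apply]
    have h1 := ih (g c)
    have h2 := hg c
    have h3 : (m + 1) * C = m * C + C := by ring
    omega

open Classical in
/-- **The converse of `PT.tm2Raw`.** -/
theorem PT.of_tm2 {f : List Bool → List Bool}
    (h : Nonempty (TM2ComputableInPolyTime (fun w : List Bool => w) (fun w : List Bool => w) f)) :
    PT f := by
  obtain ⟨⟨⟨tm, ia, oa⟩, time, hf⟩⟩ := h
  let _ := tm.kDecidableEq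
  let _ := tm.kFin
  let _ := tm.ΛFin
  let _ := tm.σFin
  let ls : List tm.Λ := (Finset.univ : Finset tm.Λ).toList
  have hls : ∀ l, l ∈ ls := fun l => by simp [ls]
  let L : List (Σ k, tm.Γ k) := ls.flatMap (fun l => needed (tm.m l)) ++
    [⟨tm.k₀, ia.symm true⟩, ⟨tm.k₀, ia.symm false⟩]
  have hL : ∀ l, ∀ s ∈ needed (tm.m l), s ∈ L := fun l s hs =>
    List.mem_append_left _ (List.mem_flatMap.2 ⟨l, hls l, hs⟩)
  have hL0 : ∀ b, (⟨tm.k₀, ia.symm b⟩ : Σ k, tm.Γ k) ∈ L := by
    intro b
    refine List.mem_append_right _ ?_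
    cases b <;> simp
  let step := stepL L tm.m ls
  have hstep : PT step := PT_stepL L tm.m ls
  let init : List Bool → ℕ × (ℕ × List (List ℕ)) := fun x => (num tm.main + 1,
    (num tm.initialState, (List.replicate (Fintype.card tm.K) ([] : List ℕ)).set (num tm.k₀)
      (x.map fun b => if b = true then cd L ⟨tm.k₀, ia.symm true⟩
        else cd L ⟨tm.k₀, ia.symm false⟩)))
  have hinit : PT init := by
    refine PT.pair (PT.const _) (PT.pair (PT.const _) (PT.set (PT.const _) (PT.const _) ?_))
    refine PT.map (g := fun _ b => if b = true then cd L ⟨tm.k₀, ia.symm true⟩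
        else cd L ⟨tm.k₀, ia.symm false⟩) PT.id ?_
    exact (PT.ite (c := fun p : List Bool × Bool => p.2) PT.id.snd (PT.const _)
      (PT.const _)).congr fun p => by cases p.2 <;> rfl
  let otab : List Bool := L.map fun s => if hs : s.1 = tm.k₁ then oa (hs ▸ s.2) else false
  let out : ℕ × (ℕ × List (List ℕ)) → List Bool := fun c =>
    (c.2.2.getD (num tm.k₁) []).map fun n => otab.getD n false
  have hout : PT out := by
    refine PT.map (g := fun _ n => otab.getD n false)
      (PT.listGetD PT.id.snd.snd (PT.const _) (PT.const _)) ?_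
    exact PT.listGetD (PT.const _) PT.id.snd (PT.const _)
  obtain ⟨C, hC⟩ := stepL_sz L tm.m ls
  have htime : PT (fun x : List Bool => time.eval x.length) := PT.polyEval (PT.length PT.id) time
  have hiter : PT (fun x : List Bool => step^[sz (time.eval x.length)] (init x)) := by
    refine PT.iterSize (g := fun _ c => step c)
      (B := fun x => sz (init x) + sz (time.eval x.length) * C) htime hinit
      (hstep.comp PT.id.snd) (hinit.bdd.add (htime.bdd.mul (Bdd.const C))) ?_
    intro x m hm
    exact (sz_pow_iter step C hC m _).trans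
      (Nat.add_le_add_left (Nat.mul_le_mul_right _ hm) _)
  refine (hout.comp hiter).congr fun x => ?_
  obtain ⟨⟨steps, hsteps⟩, hle⟩ := hf x
  have h0 : RC L (initList tm (List.map ia.invFun x)) (init x) := by
    refine ⟨rfl, rfl, by simp [init], fun k => ?_⟩
    unfold initList
    simp only [init]
    by_cases hk : k = tm.k₀
    · subst hk
      rw [List.getD_eq_getElem?_getD, List.getElem?_set_self (by
        rw [List.length_replicate]; exact num_lt _)]
      simp only [Option.getD_some, dite_true]
      unfold SRel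
      change _ = List.map some (List.map ia.invFun x)
      rw [List.map_map, List.map_map]
      refine List.map_congr_left fun b _ => ?_
      simp only [comp_apply]
      cases b
      · simpa using dec_cd (hL0 false)
      · simpa using dec_cd (hL0 true)
    · have hne : num tm.k₀ ≠ num k := fun hh => hk (num_inj hh).symm
      rw [List.getD_eq_getElem?_getD, List.getElem?_set_ne hne]
      simp only [hk, dite_false]
      unfold SRel
      rw [List.getElem?_replicate]
      split_ifs <;> rfl
  have h1 := sim_iter (ls := ls) hL hls steps _ _ h0 _ hsteps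
  have h2 : step^[sz (time.eval x.length)] (init x) = step^[steps] (init x) := by
    have h3 : steps ≤ sz (time.eval x.length) := by
      rw [sz_nat]
      have : steps ≤ time.eval x.length := hle
      omega
    obtain ⟨d, hd⟩ := Nat.exists_eq_add_of_le h3
    rw [hd, Nat.add_comm, iterate_add_apply]
    refine iterate_fixed ?_ d
    exact stepL_zero L tm.m ls _ h1.1
  rw [h2]
  have h4 := h1.2.2.2 tm.k₁
  unfold SRel haltList at h4
  simp only [dite_true] at h4
  show ((step^[steps] (init x)).2.2.getD (num tm.k₁) []).map (fun n => otab.getD n false) = f x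
  have h5 : ∀ (m : List ℕ) (l : List Bool),
      m.map (dec L tm.k₁) = (List.map oa.invFun l).map some →
      m.map (fun n => otab.getD n false) = l := by
    intro m
    induction m with
    | nil =>
      intro l hl
      cases l with
      | nil => rfl
      | cons b l => simp at hl
    | cons n m ih =>
      intro l hl
      cases l with
      | nil => simp at hl
      | cons b l =>
        simp only [List.map_cons, List.cons.injEq] at hl
        rw [List.map_cons, ih l hl.2]
        congr 1
        have h6 := hl.1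
        unfold dec at h6
        have h7 : otab.getD n false = ((L[n]?).map fun s =>
            if hs : s.1 = tm.k₁ then oa (hs ▸ s.2) else false).getD false := by
          rw [List.getD_eq_getElem?_getD, List.getElem?_map]
        rw [h7]
        cases hn : L[n]? with
        | none => rw [hn] at h6; simp at h6
        | some s =>
          rw [hn] at h6
          simp only at h6
          by_cases hs : s.1 = tm.k₁
          · rw [dif_pos hs] at h6
            simp only [Option.map_some, Option.getD_some, dif_pos hs]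
            rw [Option.some.inj h6]
            exact oa.apply_symm_apply b
          · rw [dif_neg hs] at h6
            simp at h6
  exact h5 _ _ h4

theorem PT.iff_tm2 {f : List Bool → List Bool} : PT f ↔
    Nonempty (TM2ComputableInPolyTime (fun w : List Bool => w) (fun w : List Bool => w) f) :=
  ⟨PT.tm2Raw, PT.of_tm2⟩

end Pool.Agent.DNP
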