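import Pool.Agent.Lib.MP_80aaf5_lc.Plant

/-!
# The combinatorial core: either the reduction fails or the pair intersects
-/

set_option linter.unusedSectionVars false

namespace Pool.Agent.DNP

open ESY.Fin

/-- the finite situation at one epoch -/
structure Game (I Z W J Q : Type) where
  b : Bool × Z × W → J → I
  hb : Inj b
  F : (I → Bool) → Z → Q
  A : (I → Bool) → Q → Prop
  B : (I → Bool) → Q → Prop
  c : ℕ
  locF : ∀ ω z, ∃ S : Finset I, S.card ≤ c ∧ ∀ ω', (∀ i ∈ S, ω' i = ω i) → F ω' z = F ω z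
  locA : ∀ ω q, A ω q → ∃ S : Finset I, S.card ≤ c ∧ ∀ ω', (∀ i ∈ S, ω' i = ω i) → A ω' q
  locB : ∀ ω q, B ω q → ∃ S : Finset I, S.card ≤ c ∧ ∀ ω', (∀ i ∈ S, ω' i = ω i) → B ω' q

namespace Game

variable {I Z W J Q : Type} [Finite I] [Finite Z] [Finite W] [Finite J] (g : Game I Z W J Q)

/-- the reduction fails -/
def Fail (ω : I → Bool) : Prop :=
  ∃ z w, (Wit g.b ω (true, z, w) ∧ ¬ g.A ω (g.F ω z)) ∨
    (Wit g.b ω (false, z, w) ∧ ¬ g.B ω (g.F ω z))

/-- the pair intersects -/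
def Dbl (ω : I → Bool) : Prop := ∃ q, g.A ω q ∧ g.B ω q

theorem touch' (s : Bool) (z : Z) (S : Finset I) :
    (cnt (fun w => ∃ i ∈ S, ∃ j, g.b (s, z, w) j = i) : ℝ) ≤ S.card := by
  refine touch (b := fun w j => g.b (s, z, w) j) (fun y y' j j' h => ?_) S
  have := g.hb _ _ _ _ h
  simp only [Prod.mk.injEq, true_and] at this
  exact this

/-- for a fixed background -/
theorem local_count (ω : I → Bool) (z : Z) :
    (Nat.card W : ℝ) ^ 2 ≤
      cnt (fun p : W × W => g.Dbl (plant g.b (true, z, p.1) (plant g.b (false, z, p.2) ω))) +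
      Nat.card W * cnt (fun w => ¬ g.A (plant g.b (true, z, w) ω)
        (g.F (plant g.b (true, z, w) ω) z)) +
      Nat.card W * cnt (fun w => ¬ g.B (plant g.b (false, z, w) ω)
        (g.F (plant g.b (false, z, w) ω) z)) + 4 * g.c * Nat.card W := by
  classical
  obtain ⟨S, hS, hSF⟩ := g.locF ω z
  have hCA : ∀ w, ∃ C : Finset I, C.card ≤ g.c ∧
      (g.A (plant g.b (true, z, w) ω) (g.F (plant g.b (true, z, w) ω) z) →
      ∀ ω', (∀ i ∈ C, ω' i = plant g.b (true, z, w) ω i) →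
        g.A ω' (g.F (plant g.b (true, z, w) ω) z)) := by
    intro w
    by_cases h : g.A (plant g.b (true, z, w) ω) (g.F (plant g.b (true, z, w) ω) z)
    · obtain ⟨C, h1, h2⟩ := g.locA _ _ h
      exact ⟨C, h1, fun _ => h2⟩
    · exact ⟨∅, by simp, fun h' => absurd h' h⟩
  have hCB : ∀ w, ∃ C : Finset I, C.card ≤ g.c ∧
      (g.B (plant g.b (false, z, w) ω) (g.F (plant g.b (false, z, w) ω) z) →
      ∀ ω', (∀ i ∈ C, ω' i = plant g.b (false, z, w) ω i) →
        g.B ω' (g.F (plant g.b (false, z, w) ω) z)) := by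
    intro w
    by_cases h : g.B (plant g.b (false, z, w) ω) (g.F (plant g.b (false, z, w) ω) z)
    · obtain ⟨C, h1, h2⟩ := g.locB _ _ h
      exact ⟨C, h1, fun _ => h2⟩
    · exact ⟨∅, by simp, fun h' => absurd h' h⟩
  choose CA hCA1 hCA2 using hCA
  choose CB hCB1 hCB2 using hCB
  set N : ℝ := (Nat.card W : ℝ) with hN
  let P0 : W × W → Prop := fun p =>
    g.Dbl (plant g.b (true, z, p.1) (plant g.b (false, z, p.2) ω))
  let E2 : W → Prop := fun w => ¬ g.A (plant g.b (true, z, w) ω)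
        (g.F (plant g.b (true, z, w) ω) z)
  let E3 : W → Prop := fun w => ¬ g.B (plant g.b (false, z, w) ω)
        (g.F (plant g.b (false, z, w) ω) z)
  let E4 : W → Prop := fun w => ∃ i ∈ S, ∃ j, g.b (true, z, w) j = i
  let E5 : W → Prop := fun w => ∃ i ∈ S, ∃ j, g.b (false, z, w) j = i
  let E6 : W × W → Prop := fun p => ∃ i ∈ CA p.1, ∃ j, g.b (false, z, p.2) j = i
  let E7 : W × W → Prop := fun p => ∃ i ∈ CB p.2, ∃ j, g.b (true, z, p.1) j = i
  have hall : cnt (fun _ : W × W => True) ≤ cnt P0 + (cnt (fun p : W × W => E2 p.1) +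
      (cnt (fun p : W × W => E3 p.2) + (cnt (fun p : W × W => E4 p.1) +
      (cnt (fun p : W × W => E5 p.2) + (cnt E6 + cnt E7))))) := by
    refine le_trans (cnt_mono fun p _ => ?_) ((cnt_or P0 _).trans (Nat.add_le_add_left
      ((cnt_or (fun p : W × W => E2 p.1) _).trans (Nat.add_le_add_left
      ((cnt_or (fun p : W × W => E3 p.2) _).trans (Nat.add_le_add_left
      ((cnt_or (fun p : W × W => E4 p.1) _).trans (Nat.add_le_add_left
      ((cnt_or (fun p : W × W => E5 p.2) _).trans (Nat.add_le_add_left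
      (cnt_or E6 E7) _)) _)) _)) _)) _))
    by_cases h2 : E2 p.1
    · exact Or.inr (Or.inl h2)
    by_cases h3 : E3 p.2
    · exact Or.inr (Or.inr (Or.inl h3))
    by_cases h4 : E4 p.1
    · exact Or.inr (Or.inr (Or.inr (Or.inl h4)))
    by_cases h5 : E5 p.2
    · exact Or.inr (Or.inr (Or.inr (Or.inr (Or.inl h5))))
    by_cases h6 : E6 p
    · exact Or.inr (Or.inr (Or.inr (Or.inr (Or.inr (Or.inl h6)))))
    by_cases h7 : E7 p
    · exact Or.inr (Or.inr (Or.inr (Or.inr (Or.inr (Or.inr h7)))))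
    left
    obtain ⟨w, w'⟩ := p
    simp only at h2 h3 h4 h5
    have e1 : g.F (plant g.b (true, z, w) ω) z = g.F ω z := hSF _ (plant_agree h4 ω)
    have e2 : g.F (plant g.b (false, z, w') ω) z = g.F ω z := hSF _ (plant_agree h5 ω)
    refine ⟨g.F ω z, ?_, ?_⟩
    · have h8 := hCA2 w (not_not.1 h2) (plant g.b (false, z, w') (plant g.b (true, z, w) ω))
        (plant_agree h6 _)
      rw [e1] at h8
      rw [plant_comm]
      exact h8
    · have h8 := hCB2 w' (not_not.1 h3) (plant g.b (true, z, w) (plant g.b (false, z, w') ω))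
        (plant_agree h7 _)
      rw [e2] at h8
      exact h8
  have hfst : ∀ E : W → Prop, (cnt (fun p : W × W => E p.1) : ℝ) ≤ cnt E * N := by
    intro E
    exact cnt_prod_le (fun p : W × W => E p.1) E N (fun a b h => h) fun a _ =>
      Nat.cast_le.2 (cnt_le_card _)
  have hswap : ∀ E : W × W → Prop, cnt (fun p : W × W => E (p.2, p.1)) = cnt E := fun E =>
    cnt_equiv (Equiv.prodComm W W) E
  have hsnd : ∀ E : W → Prop, (cnt (fun p : W × W => E p.2) : ℝ) ≤ cnt E * N := by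
    intro E
    rw [← hswap (fun p : W × W => E p.2)]
    exact hfst E
  have hcard : (cnt (fun _ : W × W => True) : ℝ) = N ^ 2 := by
    rw [cnt_true (fun _ => trivial), Nat.card_prod]
    push_cast
    ring
  have k4 := hfst E4
  have k5 := hsnd E5
  have t4 : (cnt E4 : ℝ) ≤ g.c := (g.touch' true z S).trans (Nat.cast_le.2 hS)
  have t5 : (cnt E5 : ℝ) ≤ g.c := (g.touch' false z S).trans (Nat.cast_le.2 hS)
  have k6 : (cnt E6 : ℝ) ≤ N * g.c := by
    have h := cnt_prod_le E6 (fun _ => True) (g.c : ℝ) (fun _ _ _ => trivial) fun w _ =>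
      (g.touch' false z (CA w)).trans (Nat.cast_le.2 (hCA1 w))
    rwa [cnt_true (fun _ => trivial)] at h
  have k7 : (cnt E7 : ℝ) ≤ N * g.c := by
    rw [← hswap E7]
    have h := cnt_prod_le (fun p : W × W => E7 (p.2, p.1)) (fun _ => True) (g.c : ℝ)
      (fun _ _ _ => trivial) fun w _ =>
      (g.touch' true z (CB w)).trans (Nat.cast_le.2 (hCB1 w))
    rwa [cnt_true (fun _ => trivial)] at h
  have k2 := hfst E2
  have k3 := hsnd E3
  have hN0 : 0 ≤ N := Nat.cast_nonneg _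
  have m4 : (cnt E4 : ℝ) * N ≤ g.c * N := mul_le_mul_of_nonneg_right t4 hN0
  have m5 : (cnt E5 : ℝ) * N ≤ g.c * N := mul_le_mul_of_nonneg_right t5 hN0
  have hall' : N ^ 2 ≤ cnt P0 + (cnt (fun p : W × W => E2 p.1) +
      (cnt (fun p : W × W => E3 p.2) + (cnt (fun p : W × W => E4 p.1) +
      (cnt (fun p : W × W => E5 p.2) + (cnt E6 + cnt E7))))) := by
    rw [← hcard]
    exact_mod_cast hall
  have : N ^ 2 ≤ cnt P0 + N * cnt E2 + N * cnt E3 + 4 * g.c * N := by
    linarith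
  exact this

theorem nowit (hJ : 2 ^ Nat.card J = 16 * Nat.card Z * Nat.card W) :
    8 * cnt (fun ω => ¬ NoWit g.b ω) ≤ Nat.card (I → Bool) := by
  classical
  have := Fintype.ofFinite (Bool × Z × W)
  have h1 := cnt_exists_le (Finset.univ : Finset (Bool × Z × W))
    (fun y ω => Wit g.b ω y) ((Nat.card (I → Bool) : ℝ) / 2 ^ Nat.card J) (fun y _ => by
      rw [le_div_iff₀ (by positivity)]
      have := card_wit g.hb y
      have h2 : (2 : ℝ) ^ Nat.card J * cnt (fun ω => Wit g.b ω y) ≤ Nat.card (I → Bool) := by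
        exact_mod_cast this
      linarith)
  have h2 : cnt (fun ω => ¬ NoWit g.b ω) ≤ cnt (fun ω => ∃ y ∈ (Finset.univ :
      Finset (Bool × Z × W)), Wit g.b ω y) := by
    refine cnt_mono fun ω hω => ?_
    unfold NoWit at hω
    push Not at hω
    obtain ⟨y, hy⟩ := hω
    exact ⟨y, Finset.mem_univ _, hy⟩
  have h3 : ((Finset.univ : Finset (Bool × Z × W)).card : ℝ) = 2 * (Nat.card Z * Nat.card W) := by
    rw [Finset.card_univ, ← Nat.card_eq_fintype_card, Nat.card_prod, Nat.card_prod]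
    simp
  rw [h3] at h1
  have h4 : (cnt (fun ω => ¬ NoWit g.b ω) : ℝ) ≤
      2 * (Nat.card Z * Nat.card W) * ((Nat.card (I → Bool) : ℝ) / 2 ^ Nat.card J) :=
    le_trans (by exact_mod_cast h2) h1
  have h5 : (2 : ℝ) ^ Nat.card J = 16 * Nat.card Z * Nat.card W := by exact_mod_cast hJ
  have h6 : (0 : ℝ) < 2 ^ Nat.card J := by positivity
  have h7 : 2 * ((Nat.card Z : ℝ) * Nat.card W) * ((Nat.card (I → Bool) : ℝ) / 2 ^ Nat.card J) =
      Nat.card (I → Bool) / 8 := by
    rw [mul_div_assoc', div_eq_div_iff h6.ne' (by norm_num), h5]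
    ring
  rw [h7] at h4
  have h8 : (8 : ℝ) * cnt (fun ω => ¬ NoWit g.b ω) ≤ Nat.card (I → Bool) := by linarith
  exact_mod_cast h8

/-- **The core.** -/
theorem core (hc : 32 * g.c ≤ Nat.card W)
    (hJ : 2 ^ Nat.card J = 16 * Nat.card Z * Nat.card W) :
    Nat.card (I → Bool) ≤ 128 * cnt g.Fail ∨
      (Nat.card (I → Bool) : ℝ) ≤ 1024 * Nat.card Z * cnt g.Dbl := by
  classical
  have := Fintype.ofFinite Z
  have := Fintype.ofFinite W
  have := Fintype.ofFinite I
  by_cases hfail : Nat.card (I → Bool) ≤ 128 * cnt g.Fail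
  · exact Or.inl hfail
  right
  set Ωc : ℝ := (Nat.card (I → Bool) : ℝ) with hΩc
  set M : ℝ := (Nat.card Z : ℝ) with hM
  set N : ℝ := (Nat.card W : ℝ) with hN
  set s : ℝ := (2 : ℝ) ^ Nat.card J with hs
  have hsJ : s = 16 * M * N := by
    rw [hs, hM, hN]
    exact_mod_cast hJ
  have hspos : 0 < s := by positivity
  have hM0 : 0 ≤ M := Nat.cast_nonneg _
  have hN0 : 0 ≤ N := Nat.cast_nonneg _
  have hMN : 0 < M * N := by nlinarith
  have hMpos : 0 < M := by
    rcases hM0.eq_or_lt with h | h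
    · rw [← h] at hMN; simp at hMN
    · exact h
  have hNpos : 0 < N := by
    rcases hN0.eq_or_lt with h | h
    · rw [← h] at hMN; simp at hMN
    · exact h
  have hfail' : 128 * (cnt g.Fail : ℝ) < Ωc := by
    rw [hΩc]
    exact_mod_cast not_le.1 hfail
  -- single plantings
  have single : ∀ (sd : Bool) (P : (I → Bool) → Z → Prop)
      (hP : ∀ ω z w, NoWit g.b ω → P (plant g.b (sd, z, w) ω) z →
        g.Fail (plant g.b (sd, z, w) ω)),
      (cnt (fun p : (Z × W) × (I → Bool) => NoWit g.b p.2 ∧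
        P (plant g.b (sd, p.1) p.2) p.1.1) : ℝ) ≤ s * cnt g.Fail := by
    intro sd P hP
    have h1 := plant_one g.hb g.Fail
    have h2 : cnt (fun p : (Z × W) × (I → Bool) => NoWit g.b p.2 ∧
        P (plant g.b (sd, p.1) p.2) p.1.1) ≤
        cnt (fun p : (Bool × Z × W) × (I → Bool) => NoWit g.b p.2 ∧
          g.Fail (plant g.b p.1 p.2)) := by
      refine cnt_inj (fun p => ((sd, p.1), p.2)) (fun p hp => ⟨hp.1, ?_⟩) ?_
      · exact hP p.2 p.1.1 p.1.2 hp.1 hp.2
      · rintro ⟨a, ω⟩ ⟨a', ω'⟩ _ _ h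
        simp only [Prod.mk.injEq, true_and] at h
        exact Prod.ext h.1 h.2
    have h3 := h2.trans h1
    have h4 : (cnt (fun p : (Z × W) × (I → Bool) => NoWit g.b p.2 ∧
        P (plant g.b (sd, p.1) p.2) p.1.1) : ℝ) ≤
        ((2 ^ Nat.card J * cnt g.Fail : ℕ) : ℝ) := by exact_mod_cast h3
    refine h4.trans (le_of_eq ?_)
    push_cast
    rfl
  have hα := single true (fun ω z => ¬ g.A ω (g.F ω z)) (fun ω z w _ h =>
    ⟨z, w, Or.inl ⟨wit_plant g.b _ ω, h⟩⟩)
  have hβ := single false (fun ω z => ¬ g.B ω (g.F ω z)) (fun ω z w _ h =>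
    ⟨z, w, Or.inr ⟨wit_plant g.b _ ω, h⟩⟩)
  -- sums over the background
  have hsum : ∀ (sd : Bool) (P : (I → Bool) → Z → Prop),
      (cnt (fun p : (Z × W) × (I → Bool) => NoWit g.b p.2 ∧
        P (plant g.b (sd, p.1) p.2) p.1.1) : ℝ) =
      ∑ ω : I → Bool, ∑ z : Z, if NoWit g.b ω then
        (cnt (fun w => P (plant g.b (sd, z, w) ω) z) : ℝ) else 0 := by
    intro sd P
    rw [cnt_prod']
    push_cast
    refine Finset.sum_congr rfl fun ω _ => ?_
    by_cases h : NoWit g.b ω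
    · simp only [h, true_and, if_true]
      rw [cnt_prod]
      push_cast
      rfl
    · simp only [h, false_and, if_false]
      rw [cnt_false (fun _ hh => hh)]
      simp
  let D : (I → Bool) → Z → ℝ := fun ω z => (cnt (fun p : W × W =>
    g.Dbl (plant g.b (true, z, p.1) (plant g.b (false, z, p.2) ω))) : ℝ)
  have hloc : ∑ ω : I → Bool, ∑ _z : Z, (if NoWit g.b ω then N ^ 2 else 0) ≤
      (∑ ω : I → Bool, ∑ z : Z, if NoWit g.b ω then D ω z else 0) +
      N * (∑ ω : I → Bool, ∑ z : Z, if NoWit g.b ω then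
        (cnt (fun w => ¬ g.A (plant g.b (true, z, w) ω)
          (g.F (plant g.b (true, z, w) ω) z)) : ℝ) else 0) +
      N * (∑ ω : I → Bool, ∑ z : Z, if NoWit g.b ω then
        (cnt (fun w => ¬ g.B (plant g.b (false, z, w) ω)
          (g.F (plant g.b (false, z, w) ω) z)) : ℝ) else 0) +
      ∑ _ω : I → Bool, ∑ _z : Z, 4 * g.c * N := by
    rw [Finset.mul_sum, Finset.mul_sum, ← Finset.sum_add_distrib, ← Finset.sum_add_distrib,
      ← Finset.sum_add_distrib]
    refine Finset.sum_le_sum fun ω _ => ?_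
    rw [Finset.mul_sum, Finset.mul_sum, ← Finset.sum_add_distrib, ← Finset.sum_add_distrib,
      ← Finset.sum_add_distrib]
    refine Finset.sum_le_sum fun z _ => ?_
    by_cases h : NoWit g.b ω
    · simp only [h, if_true]
      exact g.local_count ω z
    · simp only [h, if_false]
      positivity
  rw [← hsum true (fun ω z => ¬ g.A ω (g.F ω z)), ← hsum false (fun ω z => ¬ g.B ω (g.F ω z))]
    at hloc
  -- the left side
  have hl : ∑ ω : I → Bool, ∑ _z : Z, (if NoWit g.b ω then N ^ 2 else 0) =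
      (cnt (NoWit g.b) : ℝ) * (M * N ^ 2) := by
    rw [cnt_eq_sum]
    push_cast
    rw [Finset.sum_mul]
    refine Finset.sum_congr rfl fun ω _ => ?_
    rw [Finset.sum_const, Finset.card_univ, ← Nat.card_eq_fintype_card, nsmul_eq_mul]
    split_ifs <;> simp [hM]
  have hr : ∑ _ω : I → Bool, ∑ _z : Z, 4 * (g.c : ℝ) * N = Ωc * (M * (4 * g.c * N)) := by
    rw [Finset.sum_const, Finset.card_univ, ← Nat.card_eq_fintype_card, nsmul_eq_mul,
      Finset.sum_const, Finset.card_univ, ← Nat.card_eq_fintype_card, nsmul_eq_mul]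
  -- the double plantings
  have hd : (∑ ω : I → Bool, ∑ z : Z, if NoWit g.b ω then D ω z else 0) ≤
      2 * s ^ 2 * cnt g.Dbl := by
    have h1 := plant_two g.hb g.Dbl
    have h2 : cnt (fun p : (I → Bool) × (Z × (W × W)) => NoWit g.b p.1 ∧
        g.Dbl (plant g.b (true, p.2.1, p.2.2.1) (plant g.b (false, p.2.1, p.2.2.2) p.1))) ≤
        cnt (fun p : (I → Bool) × ((Bool × Z × W) × (Bool × Z × W)) => NoWit g.b p.1 ∧
          p.2.1 ≠ p.2.2 ∧ g.Dbl (plant g.b p.2.1 (plant g.b p.2.2 p.1))) := by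
      refine cnt_inj (fun p => (p.1, ((true, p.2.1, p.2.2.1), (false, p.2.1, p.2.2.2))))
        (fun p hp => ⟨hp.1, by simp, hp.2⟩) ?_
      rintro ⟨ω, z, w, w'⟩ ⟨ω1, z1, w1, w1'⟩ _ _ h
      simp only [Prod.mk.injEq, true_and] at h
      obtain ⟨rfl, ⟨rfl, rfl⟩, -, rfl⟩ := h
      rfl
    have h3 : (∑ ω : I → Bool, ∑ z : Z, if NoWit g.b ω then D ω z else 0) =
        cnt (fun p : (I → Bool) × (Z × (W × W)) => NoWit g.b p.1 ∧
        g.Dbl (plant g.b (true, p.2.1, p.2.2.1) (plant g.b (false, p.2.1, p.2.2.2) p.1))) := by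
      rw [cnt_prod]
      push_cast
      refine Finset.sum_congr rfl fun ω _ => ?_
      by_cases h : NoWit g.b ω
      · simp only [h, true_and, if_true]
        rw [cnt_prod]
        push_cast
        rfl
      · simp only [h, false_and, if_false]
        rw [cnt_false (fun _ hh => hh)]
        simp
    rw [h3]
    have h4 : (cnt (fun p : (I → Bool) × (Z × (W × W)) => NoWit g.b p.1 ∧
        g.Dbl (plant g.b (true, p.2.1, p.2.2.1) (plant g.b (false, p.2.1, p.2.2.2) p.1))) : ℝ) ≤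
        ((2 * (2 ^ Nat.card J) ^ 2 * cnt g.Dbl : ℕ) : ℝ) := by exact_mod_cast h2.trans h1
    refine h4.trans (le_of_eq ?_)
    push_cast
    rfl
  have hno : (7 : ℝ) * Ωc ≤ 8 * cnt (NoWit g.b) := by
    have h1 := g.nowit hJ
    have h2 : Nat.card (I → Bool) = cnt (NoWit g.b) + cnt (fun ω => ¬ NoWit g.b ω) := by
      rw [← cnt_true (P := fun _ : I → Bool => True) (fun _ => trivial),
        cnt_split (fun _ : I → Bool => True) (NoWit g.b)]
      simp only [true_and]
    have h3 : 7 * Nat.card (I → Bool) ≤ 8 * cnt (NoWit g.b) := by omega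
    rw [hΩc]
    exact_mod_cast h3
  have hc' : 32 * (g.c : ℝ) ≤ N := by rw [hN]; exact_mod_cast hc
  have hΩ0 : 0 ≤ Ωc := Nat.cast_nonneg _
  rw [hl, hr] at hloc
  -- arithmetic
  have a1 : (7 / 8) * Ωc * (M * N ^ 2) ≤ cnt (NoWit g.b) * (M * N ^ 2) :=
    mul_le_mul_of_nonneg_right (by linarith) (by positivity)
  have a2 : N * (s * cnt g.Fail) ≤ (1 / 8) * Ωc * (M * N ^ 2) := by
    rw [hsJ]
    have : 16 * M * N * (cnt g.Fail : ℝ) ≤ 16 * M * N * (Ωc / 128) :=
      mul_le_mul_of_nonneg_left (by linarith) (by positivity)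
    calc N * (16 * M * N * (cnt g.Fail : ℝ)) ≤ N * (16 * M * N * (Ωc / 128)) :=
          mul_le_mul_of_nonneg_left this hN0
      _ = (1 / 8) * Ωc * (M * N ^ 2) := by ring
  have a3 : Ωc * (M * (4 * g.c * N)) ≤ (1 / 8) * Ωc * (M * N ^ 2) := by
    have : 4 * (g.c : ℝ) * N ≤ (1 / 8) * N ^ 2 := by nlinarith
    calc Ωc * (M * (4 * g.c * N)) ≤ Ωc * (M * ((1 / 8) * N ^ 2)) :=
          mul_le_mul_of_nonneg_left (mul_le_mul_of_nonneg_left this hM0) hΩ0
      _ = _ := by ring
  have a4 := mul_le_mul_of_nonneg_left hα hN0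
  have a5 := mul_le_mul_of_nonneg_left hβ hN0
  have a6 : (1 / 2) * Ωc * (M * N ^ 2) ≤ 2 * s ^ 2 * cnt g.Dbl := by linarith
  rw [hsJ] at a6
  have a7 : (M * N ^ 2) * Ωc ≤ (M * N ^ 2) * (1024 * M * cnt g.Dbl) := by
    calc (M * N ^ 2) * Ωc = 2 * ((1 / 2) * Ωc * (M * N ^ 2)) := by ring
      _ ≤ 2 * (2 * (16 * M * N) ^ 2 * cnt g.Dbl) := by linarith
      _ = _ := by ring
  exact le_of_mul_le_mul_left a7 (by positivity)

end Game

end Pool.Agent.DNP
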