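import Pool.Agent.Lib.MP_b9add9_lc.Model
import Pool.Agent.Lib.MP_b9add9_lc.helper78.Transl

/-!
# There are countably many polynomial-time computable functions
-/

namespace Pool.Agent.DNP

open Turing Pool.Agent.PolyTime Pool.Agent.Lib.MP_b9add9_lc.FP

instance : Countable T := T.enc_injective.countable

theorem countable_polyTime : Countable {g : List Bool → List Bool // PolyTime g} := by
  have h : ∀ g : {g : List Bool → List Bool // PolyTime g}, ∃ c : T, ∀ x : List Bool,
      ∃ t0, ∀ t, t0 ≤ t → U c x t = some (g.1 x) := by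
    rintro ⟨g, ⟨M⟩⟩
    obtain ⟨c, C, hc⟩ := exists_code M.toTM2ComputableInTime
    exact ⟨c, fun x => ⟨_, fun t ht => hc x t ht⟩⟩
  choose code hcode using h
  refine (show Function.Injective code from fun g g' hgg => ?_).countable
  refine Subtype.ext (funext fun x => ?_)
  obtain ⟨t0, h0⟩ := hcode g x
  obtain ⟨t1, h1⟩ := hcode g' x
  have e0 := h0 (max t0 t1) (le_max_left _ _)
  have e1 := h1 (max t0 t1) (le_max_right _ _)
  rw [hgg, e1] at e0
  exact (Option.some.inj e0).symm

end Pool.Agent.DNP
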