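import Pool.Agent.Lib.MP_80aaf5_lc.Defs
import Pool.Agent.Lib.PolyTime.Raw

/-!
# Disjoint NP-pairs relative to an oracle

Polynomial-time oracle procedures are given by their next-query functions, which are
polynomial-time computable in the sense of Mathlib (`Turing.TM2ComputableInPolyTime`).
-/

namespace Pool.Agent.DNP

open ESY MeasureTheory Turing

/-- Polynomial-time computable functions on bit strings (by Turing machines, as in Mathlib). -/
def PolyTime (g : List Bool → List Bool) : Prop :=
  Nonempty (TM2ComputableInPolyTime (fun w : List Bool => w) (fun w : List Bool => w) g)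

/-- The pairing `1^|x| 0 x y` of two bit strings. -/
def pr (x y : List Bool) : List Bool := List.replicate x.length true ++ false :: (x ++ y)

/-- The oracle answers obtained in the first `t` rounds by the procedure with next-query function
`g` on the input `x`: if `g`, given `x` and the answers obtained so far, returns `0q`, then the
oracle is asked about `q`; if it returns something else, the procedure has stopped. -/
def answers (O : Oracle) (g : List Bool → List Bool) (x : List Bool) : ℕ → List Bool
  | 0 => []
  | t + 1 =>
    match g (pr x (answers O g x t)) with
    | false :: q => answers O g x t ++ [O q]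
    | _ => answers O g x t

/-- Within `t` rounds the procedure `g` with oracle `O` stops on `x` with output `y`: given the
answers, `g` returns `1y`. -/
def Outputs (O : Oracle) (g : List Bool → List Bool) (x : List Bool) (t : ℕ) (y : List Bool) :
    Prop :=
  g (pr x (answers O g x t)) = true :: y

/-- `f` is computed relative to `O` by a polynomial-time next-query function within `T c n`
rounds for some index `c` of the sequence `T` of bounds, `n` the input length. -/
def InFTime (T : ℕ → ℕ → ℕ) (O : Oracle) (f : List Bool → List Bool) : Prop :=
  ∃ (g : List Bool → List Bool) (c : ℕ), PolyTime g ∧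
    ∀ x, Outputs O g x (T c x.length) (f x)

/-- The class `NP` relative to `O`: polynomial-length witnesses, checked by a polynomial-time
oracle procedure. -/
def InNP (O : Oracle) (L : Set (List Bool)) : Prop :=
  ∃ (g : List Bool → List Bool) (c : ℕ), PolyTime g ∧
    ∀ x, x ∈ L ↔ ∃ w : List Bool, w.length ≤ poly c x.length ∧
      Outputs O g (pr x w) (poly c x.length) [true]

/-- `(A, B)` is a disjoint `NP`-pair relative to `O`. -/
def DisjointNPPair (O : Oracle) (A B : Set (List Bool)) : Prop :=
  InNP O A ∧ InNP O B ∧ Disjoint A B

/-- `(A', B')` reduces to `(A, B)` by a function computable relative to `O` within the bounds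
`T`. -/
def ReducesTo (T : ℕ → ℕ → ℕ) (O : Oracle) (A' B' A B : Set (List Bool)) : Prop :=
  ∃ f, InFTime T O f ∧ (∀ x ∈ A', f x ∈ A) ∧ ∀ x ∈ B', f x ∈ B

/-- Relative to `O`, `(A, B)` is a complete disjoint `NP`-pair. -/
def CompletePair (O : Oracle) (A B : Set (List Bool)) : Prop :=
  DisjointNPPair O A B ∧ ∀ A' B', DisjointNPPair O A' B' → ReducesTo poly O A' B' A B

/-- A tally language: all its members are strings of ones. -/
def Tally (L : Set (List Bool)) : Prop := ∀ x ∈ L, x = List.replicate x.length true

end Pool.Agent.DNP
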