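import Pool.Agent.Lib.MP_b9add9_lc.Facts

/-!
# The events of an epoch and their conditional probabilities
-/

set_option linter.unusedSectionVars false

namespace Pool.Agent.DNP

open ESY MeasureTheory

/-- the pair intersects, as seen at epoch `j` -/
def E1 (X : Oracle) (U : Code) (j : ℕ) : Set Oracle := {R | DD U (ep j) (join X R)}

/-- the adversary pair intersects at epoch `j` -/
def E2 (X : Oracle) (U : Code) (j : ℕ) : Set Oracle :=
  {R | ∃ z < 4 ^ KK X U R j, ∃ y y' : List Bool, y.length = ep j ∧ y'.length = ep j ∧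
    On R true (ep j) (KK X U R j) z y ∧ On R false (ep j) (KK X U R j) z y'}

/-- the output with the truncated oracle -/
def FT (g : List Bool → List Bool) (t m : ℕ) (O : Oracle) (x : List Bool) : List Bool :=
  (g (pr x (answers (trunc m O) g x t))).tail

/-- the reduction `g` fails at epoch `j` -/
def E3 (X : Oracle) (U : Code) (g : List Bool → List Bool) (t : ℕ → ℕ) (j : ℕ) : Set Oracle :=
  {R | ∃ z < 4 ^ KK X U R j, ∃ y : List Bool, y.length = ep j ∧
    ((On R true (ep j) (KK X U R j) z y ∧ ¬ Acc U.ga U.ca (mm (ep j)) (join X R)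
      (FT g (t (ep j + z)) (mm (ep j)) (join X R) (List.replicate (ep j + z) true))) ∨
    (On R false (ep j) (KK X U R j) z y ∧ ¬ Acc U.gb U.cb (mm (ep j)) (join X R)
      (FT g (t (ep j + z)) (mm (ep j)) (join X R) (List.replicate (ep j + z) true))))}

theorem On_congr {R R' : Oracle} {j k z : ℕ} (s : Bool) {y : List Bool}
    (h : ∀ y : List Bool, y.length < mm (ep j) → R y = R' y) (hk : 4 * 4 ^ k ≤ ep j)
    (hz : z < 4 ^ k) (hy : y.length = ep j) : On R s (ep j) k z y ↔ On R' s (ep j) k z y := by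
  unfold On
  refine forall_congr' fun i => forall_congr' fun hi => ?_
  rw [h _ (blk_mid s y i hk hz hy hi).2]

theorem dep_E1 (X : Oracle) (U : Code) (j : ℕ) : Dep (mm (ep j)) (E1 X U j) := fun _ _ h =>
  DD_congr (join_congr h)

theorem dep_E2 (X : Oracle) (U : Code) (j : ℕ) : Dep (mm (ep j)) (E2 X U j) := by
  intro R R' h
  have hK : KK X U R j = KK X U R' j := KK_congr j fun y hy => h y (hy.trans (lt_mm _))
  have hk := pow_KK_le X U R' j
  unfold E2
  simp only [Set.mem_setOf_eq, hK]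
  refine exists_congr fun z => and_congr_right fun hz => exists_congr fun y =>
    exists_congr fun y' => and_congr_right fun hy => and_congr_right fun hy' => ?_
  rw [On_congr true h hk hz hy, On_congr false h hk hz hy']

theorem FT_congr {g : List Bool → List Bool} {t m : ℕ} {O O' : Oracle}
    (h : ∀ z : List Bool, z.length ≤ m → O z = O' z) (x : List Bool) :
    FT g t m O x = FT g t m O' x := by
  unfold FT
  rw [trunc_congr h]

theorem dep_E3 (X : Oracle) (U : Code) (g : List Bool → List Bool) (t : ℕ → ℕ) (j : ℕ) :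
    Dep (mm (ep j)) (E3 X U g t j) := by
  intro R R' h
  have hK : KK X U R j = KK X U R' j := KK_congr j fun y hy => h y (hy.trans (lt_mm _))
  have hk := pow_KK_le X U R' j
  unfold E3
  simp only [Set.mem_setOf_eq, hK]
  refine exists_congr fun z => and_congr_right fun hz => exists_congr fun y =>
    and_congr_right fun hy => ?_
  rw [On_congr true h hk hz hy, On_congr false h hk hz hy,
    FT_congr (join_congr h), Acc_congr (join_congr h), Acc_congr (join_congr h)]

/-! ### blocks as positions -/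

/-- the positions of the blocks of epoch `j` -/
def bb (j k : ℕ) (hk : 4 * 4 ^ k ≤ ep j) :
    Bool × _root_.Fin (4 ^ k) × List.Vector Bool (ep j) → _root_.Fin (ep j + 2 * k + 4) →
      Mid (ep j) (mm (ep j)) :=
  fun p i => ⟨blk p.1 p.2.1 p.2.2.1 i, blk_mid p.1 p.2.2.1 i hk p.2.1.2 p.2.2.2 i.2⟩

theorem bb_inj (j k : ℕ) (hk : 4 * 4 ^ k ≤ ep j) : Fin.Inj (bb j k hk) := by
  rintro ⟨s, z, y⟩ ⟨s', z', y'⟩ i i' h
  have h1 : blk s z y.1 i = blk s' z' y'.1 i' := congrArg Subtype.val h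
  obtain ⟨rfl, h2, h3, h4⟩ := blk_inj (y.2.trans y'.2.symm) h1
  have e1 : z = z' := _root_.Fin.ext h2
  have e2 : y = y' := Subtype.ext h3
  subst e1
  subst e2
  exact ⟨rfl, _root_.Fin.ext h4⟩

theorem wit_iff (j k : ℕ) (hk : 4 * 4 ^ k ≤ ep j) (R : Oracle)
    (ω : Mid (ep j) (mm (ep j)) → Bool) (s : Bool) (z : _root_.Fin (4 ^ k))
    (y : List.Vector Bool (ep j)) :
    Fin.Wit (bb j k hk) ω (s, z, y) ↔ On (glue (ep j) (mm (ep j)) R ω) s (ep j) k z y.1 := by
  unfold Fin.Wit On
  constructor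
  · intro h i hi
    have h1 := h ⟨i, hi⟩
    unfold glue
    have h2 := blk_mid s y.1 i hk z.2 y.2 hi
    rw [dif_pos h2]
    exact h1
  · intro h i
    have h1 := h i i.2
    unfold glue at h1
    have h2 := blk_mid s y.1 i hk z.2 y.2 i.2
    rw [dif_pos h2] at h1
    exact h1

theorem card_vec (n : ℕ) : Nat.card (List.Vector Bool n) = 2 ^ n := by
  rw [Nat.card_eq_fintype_card, card_vector]
  simp

theorem card_cube (n L : ℕ) : (Nat.card (Mid n L → Bool) : ℝ) = 2 ^ Nat.card (Mid n L) := by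
  have : Nat.card (Mid n L → Bool) = 2 ^ Nat.card (Mid n L) := Fin.card_pow
  rw [this]
  push_cast
  rfl

/-- conditional probability of an intersection of the adversary pair -/
theorem cp_E2 (X : Oracle) (U : Code) (R : Oracle) (j : ℕ) :
    cp (ep j) (mm (ep j)) (E2 X U j) R ≤ 1 / (256 * 4 ^ KK X U R j) := by
  classical
  set k := KK X U R j with hkdef
  have hk : 4 * 4 ^ k ≤ ep j := pow_KK_le X U R j
  set n := ep j with hn
  set L := mm n with hL
  let Tr := _root_.Fin (4 ^ k) × List.Vector Bool n × List.Vector Bool n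
  let R2 : Tr → (Mid n L → Bool) → Prop := fun p ω =>
    Fin.Wit (bb j k hk) ω (true, p.1, p.2.1) ∧ Fin.Wit (bb j k hk) ω (false, p.1, p.2.2)
  have h1 : Fin.cnt (fun ω : Mid n L → Bool => glue n L R ω ∈ E2 X U j) ≤
      Fin.cnt (fun ω : Mid n L → Bool => ∃ p ∈ (Finset.univ : Finset Tr), R2 p ω) := by
    refine Fin.cnt_mono fun ω hω => ?_
    obtain ⟨z, hz, y, y', hy, hy', ho, ho'⟩ := hω
    rw [KK_glue] at hz ho ho'
    refine ⟨(⟨z, hz⟩, ⟨y, hy⟩, ⟨y', hy'⟩), Finset.mem_univ _, ?_, ?_⟩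
    · exact (wit_iff j k hk R ω true ⟨z, hz⟩ ⟨y, hy⟩).2 ho
    · exact (wit_iff j k hk R ω false ⟨z, hz⟩ ⟨y', hy'⟩).2 ho'
  have h2 : ∀ p : Tr, (Fin.cnt (R2 p) : ℝ) ≤
      Nat.card (Mid n L → Bool) / (2 ^ (n + 2 * k + 4)) ^ 2 := by
    intro p
    let b2 : Unit → (_root_.Fin (n + 2 * k + 4) ⊕ _root_.Fin (n + 2 * k + 4)) → Mid n L :=
      fun _ i => Sum.elim (bb j k hk (true, p.1, p.2.1)) (bb j k hk (false, p.1, p.2.2)) i
    have hb2 : Fin.Inj b2 := by
      intro u u' i i' h
      refine ⟨rfl, ?_⟩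
      cases i with
      | inl i =>
        cases i' with
        | inl i' => exact congrArg Sum.inl (bb_inj j k hk _ _ _ _ h).2
        | inr i' =>
          have := (bb_inj j k hk _ _ _ _ h).1
          simp at this
      | inr i =>
        cases i' with
        | inl i' =>
          have := (bb_inj j k hk _ _ _ _ h).1
          simp at this
        | inr i' => exact congrArg Sum.inr (bb_inj j k hk _ _ _ _ h).2
    have h3 := Fin.card_wit hb2 ()
    have h4 : Fin.cnt (R2 p) ≤ Fin.cnt (fun ω => Fin.Wit b2 ω ()) := by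
      refine Fin.cnt_mono fun ω hω => ?_
      intro i
      cases i with
      | inl i => exact hω.1 i
      | inr i => exact hω.2 i
    have h5 : Nat.card (_root_.Fin (n + 2 * k + 4) ⊕ _root_.Fin (n + 2 * k + 4)) =
        (n + 2 * k + 4) * 2 := by
      rw [Nat.card_sum, Nat.card_eq_fintype_card, Fintype.card_fin]
      ring
    rw [h5] at h3
    rw [le_div_iff₀ (by positivity), ← pow_mul]
    have h6 : 2 ^ ((n + 2 * k + 4) * 2) * Fin.cnt (R2 p) ≤ Nat.card (Mid n L → Bool) :=
      (Nat.mul_le_mul_left _ h4).trans h3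
    have h7 : (2 : ℝ) ^ ((n + 2 * k + 4) * 2) * Fin.cnt (R2 p) ≤ Nat.card (Mid n L → Bool) := by
      exact_mod_cast h6
    linarith
  have h3 := Fin.cnt_exists_le (Finset.univ : Finset Tr) R2 _ fun p _ => h2 p
  have h4 : ((Finset.univ : Finset Tr).card : ℝ) = 4 ^ k * (2 ^ n * 2 ^ n) := by
    rw [Finset.card_univ, ← Nat.card_eq_fintype_card, Nat.card_prod, Nat.card_prod, card_vec,
      Nat.card_eq_fintype_card, Fintype.card_fin]
    push_cast
    ring
  rw [h4] at h3
  have h5 : (Fin.cnt (fun ω : Mid n L → Bool => glue n L R ω ∈ E2 X U j) : ℝ) ≤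
      4 ^ k * (2 ^ n * 2 ^ n) * (Nat.card (Mid n L → Bool) / (2 ^ (n + 2 * k + 4)) ^ 2) :=
    le_trans (by exact_mod_cast h1) h3
  unfold cp
  rw [div_le_div_iff₀ (by positivity) (by positivity), ← card_cube]
  have h6 : ((2 : ℝ) ^ (n + 2 * k + 4)) ^ 2 = 256 * (4 ^ k * 4 ^ k) * (2 ^ n * 2 ^ n) := by
    have e1 : (4 : ℝ) ^ k = 2 ^ (2 * k) := by rw [pow_mul]; norm_num
    rw [e1, pow_add, pow_add]
    ring
  have h7 : (4 : ℝ) ^ k * (2 ^ n * 2 ^ n) * (Nat.card (Mid n L → Bool) /
      (2 ^ (n + 2 * k + 4)) ^ 2) * (256 * 4 ^ k) = Nat.card (Mid n L → Bool) := by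
    rw [h6]
    field_simp
  calc (Fin.cnt (fun ω : Mid n L → Bool => glue n L R ω ∈ E2 X U j) : ℝ) * (256 * 4 ^ k) ≤
        4 ^ k * (2 ^ n * 2 ^ n) * (Nat.card (Mid n L → Bool) / (2 ^ (n + 2 * k + 4)) ^ 2) *
        (256 * 4 ^ k) := mul_le_mul_of_nonneg_right h5 (by positivity)
    _ = 1 * (Nat.card (Mid n L → Bool) : ℝ) := by rw [h7, one_mul]

/-! ### locality -/

/-- the positions asked about in a list of queries -/
noncomputable def pos (n L : ℕ) (Q : List (List Bool)) : Finset (Mid n L) :=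
  (Set.toFinite {i : Mid n L | (true :: i.1) ∈ Q}).toFinset

theorem card_pos (n L : ℕ) (Q : List (List Bool)) : (pos n L Q).card ≤ Q.length := by
  classical
  have h1 : ((pos n L Q).image fun i => true :: i.1) ⊆ Q.toFinset := by
    intro z hz
    obtain ⟨i, hi, rfl⟩ := Finset.mem_image.1 hz
    rw [List.mem_toFinset]
    simpa [pos] using hi
  have h2 : ((pos n L Q).image fun i => true :: i.1).card = (pos n L Q).card :=
    Finset.card_image_of_injective _ fun i i' h => Subtype.ext (List.cons.inj h).2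
  rw [← h2]
  exact (Finset.card_le_card h1).trans (List.toFinset_card_le Q)

theorem agree {n L : ℕ} (X R : Oracle) {ω ω' : Mid n L → Bool} {Q : List (List Bool)}
    (h : ∀ i ∈ pos n L Q, ω' i = ω i) :
    ∀ z ∈ Q, trunc L (join X (glue n L R ω')) z = trunc L (join X (glue n L R ω)) z := by
  intro z hz
  unfold trunc
  match z with
  | [] => rfl
  | false :: y => rfl
  | true :: y =>
    have : glue n L R ω' y = glue n L R ω y := by
      unfold glue
      by_cases hy : n ≤ y.length ∧ y.length < L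
      · rw [dif_pos hy, dif_pos hy]
        exact h _ (by simpa [pos] using hz)
      · rw [dif_neg hy, dif_neg hy]
    simp only [join, this]

theorem poly_mono' (c : ℕ) {a b : ℕ} (h : a ≤ b) : poly c a ≤ poly c b := by
  unfold poly
  have := Nat.pow_le_pow_left h c
  omega

theorem locF {n L : ℕ} (X R : Oracle) (g : List Bool → List Bool) (t : ℕ) (x : List Bool)
    (ω : Mid n L → Bool) : ∃ S : Finset (Mid n L), S.card ≤ t ∧ ∀ ω', (∀ i ∈ S, ω' i = ω i) →
      FT g t L (join X (glue n L R ω')) x = FT g t L (join X (glue n L R ω)) x := by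
  refine ⟨pos n L (queries (trunc L (join X (glue n L R ω))) g x t),
    (card_pos _ _ _).trans (length_queries _ _ _ _), fun ω' h => ?_⟩
  unfold FT
  rw [answers_congr (agree X R h)]

theorem locAcc {n L : ℕ} (X R : Oracle) (g : List Bool → List Bool) (c : ℕ) (q : List Bool)
    (ω : Mid n L → Bool) (h : Acc g c L (join X (glue n L R ω)) q) :
    ∃ S : Finset (Mid n L), S.card ≤ poly c q.length ∧ ∀ ω', (∀ i ∈ S, ω' i = ω i) →
      Acc g c L (join X (glue n L R ω')) q := by
  obtain ⟨w, h1, h2, h3⟩ := h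
  refine ⟨pos n L (queries (trunc L (join X (glue n L R ω))) g (pr q w) (poly c q.length)),
    (card_pos _ _ _).trans (length_queries _ _ _ _), fun ω' h => ⟨w, h1, h2, ?_⟩⟩
  unfold Outputs at h3 ⊢
  rw [answers_congr (agree X R h)]
  exact h3

/-- **One epoch.** If the conditional probability of an intersection is small, then the
reduction fails with conditional probability at least `1/128`. -/
theorem cp_E3 (X : Oracle) (U : Code) (R : Oracle) (j : ℕ) (g : List Bool → List Bool)
    (t B : ℕ → ℕ) (C : ℕ)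
    (h1 : ∀ l, ep j ≤ l → l ≤ 2 * ep j → t l ≤ C ∧ poly U.ca (B l) ≤ C ∧ poly U.cb (B l) ≤ C ∧
      B l ≤ LL (ep j))
    (h2 : 32 * C ≤ 2 ^ ep j)
    (h3 : ∀ l, ep j ≤ l → l ≤ 2 * ep j → ∀ O : Oracle,
      (FT g (t l) (mm (ep j)) O (List.replicate l true)).length ≤ B l)
    (hC : ¬ Cond X U R (ep j) (KK X U R j)) :
    1 / 128 ≤ cp (ep j) (mm (ep j)) (E3 X U g t j) R := by
  classical
  set k := KK X U R j with hkdef
  have hk : 4 * 4 ^ k ≤ ep j := pow_KK_le X U R j
  set n := ep j with hn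
  set L := mm n with hL
  let G : Game (Mid n L) (_root_.Fin (4 ^ k)) (List.Vector Bool n)
      (_root_.Fin (n + 2 * k + 4)) (ℕ × List Bool) :=
    { b := bb j k hk
      hb := bb_inj j k hk
      F := fun ω z => (n + z, FT g (t (n + z)) L (join X (glue n L R ω))
        (List.replicate (n + z) true))
      A := fun ω p => (n ≤ p.1 ∧ p.1 ≤ 2 * n ∧ p.2.length ≤ B p.1) ∧
        Acc U.ga U.ca L (join X (glue n L R ω)) p.2
      B := fun ω p => (n ≤ p.1 ∧ p.1 ≤ 2 * n ∧ p.2.length ≤ B p.1) ∧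
        Acc U.gb U.cb L (join X (glue n L R ω)) p.2
      c := C
      locF := fun ω z => by
        have hz := z.2
        obtain ⟨S, hS, hS'⟩ := locF X R g (t (n + z)) (List.replicate (n + z) true) ω
        exact ⟨S, hS.trans (h1 _ (by omega) (by omega)).1, fun ω' h => by rw [hS' ω' h]⟩
      locA := fun ω p hp => by
        obtain ⟨hp1, hp2⟩ := hp
        obtain ⟨S, hS, hS'⟩ := locAcc X R U.ga U.ca p.2 ω hp2
        exact ⟨S, (hS.trans (poly_mono' _ hp1.2.2)).trans (h1 _ hp1.1 hp1.2.1).2.1,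
          fun ω' h => ⟨hp1, hS' ω' h⟩⟩
      locB := fun ω p hp => by
        obtain ⟨hp1, hp2⟩ := hp
        obtain ⟨S, hS, hS'⟩ := locAcc X R U.gb U.cb p.2 ω hp2
        exact ⟨S, (hS.trans (poly_mono' _ hp1.2.2)).trans (h1 _ hp1.1 hp1.2.1).2.2.1,
          fun ω' h => ⟨hp1, hS' ω' h⟩⟩ }
  have hW : Nat.card (List.Vector Bool n) = 2 ^ n := card_vec n
  have hZ : Nat.card (_root_.Fin (4 ^ k)) = 4 ^ k := by
    rw [Nat.card_eq_fintype_card, Fintype.card_fin]
  have hJ : Nat.card (_root_.Fin (n + 2 * k + 4)) = n + 2 * k + 4 := by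
    rw [Nat.card_eq_fintype_card, Fintype.card_fin]
  have hΩ : Nat.card (Mid n L → Bool) = 2 ^ Nat.card (Mid n L) := Fin.card_pow
  have hcore := G.core (by rw [hW]; exact h2) (by
    rw [hJ, hZ, hW]
    have e1 : 4 ^ k = 2 ^ (2 * k) := by rw [pow_mul]; norm_num
    rw [e1, pow_add, pow_add]
    ring)
  rcases hcore with hF | hD
  · have h4 : Fin.cnt G.Fail ≤ Fin.cnt (fun ω : Mid n L → Bool =>
        glue n L R ω ∈ E3 X U g t j) := by
      refine Fin.cnt_mono fun ω hω => ?_
      obtain ⟨z, y, h⟩ := hω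
      have hz := z.2
      have hB := h3 (n + z) (by omega) (by omega) (join X (glue n L R ω))
      refine ⟨z, ?_, y.1, y.2, ?_⟩
      · rw [KK_glue]; exact hz
      · rw [KK_glue]
        rcases h with ⟨hw, hf⟩ | ⟨hw, hf⟩
        · exact Or.inl ⟨(wit_iff j k hk R ω true z y).1 hw, fun hh =>
            hf ⟨⟨Nat.le_add_right _ _, show n + (z : ℕ) ≤ 2 * n by omega, hB⟩, hh⟩⟩
        · exact Or.inr ⟨(wit_iff j k hk R ω false z y).1 hw, fun hh =>
            hf ⟨⟨Nat.le_add_right _ _, show n + (z : ℕ) ≤ 2 * n by omega, hB⟩, hh⟩⟩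
    unfold cp
    rw [div_le_div_iff₀ (by norm_num) (by positivity), one_mul]
    have h5 : 2 ^ Nat.card (Mid n L) ≤ 128 * Fin.cnt (fun ω : Mid n L → Bool =>
        glue n L R ω ∈ E3 X U g t j) := by
      rw [← hΩ]
      exact hF.trans (Nat.mul_le_mul_left _ h4)
    have h6 : (2 : ℝ) ^ Nat.card (Mid n L) ≤ 128 * Fin.cnt (fun ω : Mid n L → Bool =>
        glue n L R ω ∈ E3 X U g t j) := by exact_mod_cast h5
    linarith
  · exfalso
    apply hC
    unfold Cond
    have h4 : Fin.cnt G.Dbl ≤ Fin.cnt (fun ω : Mid n L → Bool =>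
        DD U n (join X (glue n L R ω))) := by
      refine Fin.cnt_mono fun ω hω => ?_
      obtain ⟨p, hp1, hp2⟩ := hω
      refine ⟨p.2, ?_, hp1.2, hp2.2⟩
      exact hp1.1.2.2.trans (h1 _ hp1.1.1 hp1.1.2.1).2.2.2
    rw [hΩ, hZ] at hD
    have h5 : (2 : ℝ) ^ Nat.card (Mid n L) ≤ 1024 * 4 ^ k * Fin.cnt (fun ω : Mid n L → Bool =>
        DD U n (join X (glue n L R ω))) := by
      push_cast at hD
      refine hD.trans ?_
      have : (Fin.cnt G.Dbl : ℝ) ≤ Fin.cnt (fun ω : Mid n L → Bool =>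
        DD U n (join X (glue n L R ω))) := by exact_mod_cast h4
      exact mul_le_mul_of_nonneg_left this (by positivity)
    exact_mod_cast h5

/-- the condition in terms of the conditional probability -/
theorem cond_iff (X : Oracle) (U : Code) (R : Oracle) (j k : ℕ) :
    Cond X U R (ep j) k ↔ 1 ≤ 1024 * 4 ^ k * cp (ep j) (mm (ep j)) (E1 X U j) R := by
  unfold Cond cp
  have hpos : (0 : ℝ) < 2 ^ Nat.card (Mid (ep j) (mm (ep j))) := by positivity
  have e : Fin.cnt (fun ω : Mid (ep j) (mm (ep j)) → Bool =>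
      glue (ep j) (mm (ep j)) R ω ∈ E1 X U j) = Fin.cnt (fun ω : Mid (ep j) (mm (ep j)) → Bool =>
      DD U (ep j) (join X (glue (ep j) (mm (ep j)) R ω))) := rfl
  rw [e, mul_div_assoc', le_div_iff₀ hpos, one_mul]
  constructor
  · intro h
    exact_mod_cast h
  · intro h
    exact_mod_cast h

end Pool.Agent.DNP
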