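import Pool.Agent.Lib.MP_b9add9_lc.MeasSpec
import Pool.Agent.Lib.MP_b9add9_lc.Core
import Pool.Agent.Lib.MP_80aaf5_lc.Growth

/-!
# Epochs, dependence on finitely many strings, block strings
-/

namespace Pool.Agent.DNP

open ESY MeasureTheory Filter

/-! ### epochs -/

theorem lt_LL (n : ℕ) : n < LL n := Nat.lt_two_pow_self

theorem LL_lt_mm (n : ℕ) : LL n < mm n := Nat.lt_two_pow_self

theorem lt_mm (n : ℕ) : n < mm n := (lt_LL n).trans (LL_lt_mm n)

theorem mm_lt_nx (n : ℕ) : mm n < nx n := by
  have h1 : mm n + 1 < 2 ^ (mm n + 1) := Nat.lt_two_pow_self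
  have h2 : 2 ^ (mm n + 1) < nx n := Nat.lt_two_pow_self
  omega

theorem mm_lt_ep (j : ℕ) : mm (ep j) < ep (j + 1) := mm_lt_nx _

theorem ep_lt (j : ℕ) : ep j < ep (j + 1) := (lt_mm _).trans (mm_lt_nx _)

theorem ep_strictMono : StrictMono ep := strictMono_nat_of_lt_succ ep_lt

theorem four_le_ep (j : ℕ) : 4 ≤ ep j := by
  have : ep 0 ≤ ep j := ep_strictMono.monotone (Nat.zero_le j)
  exact this

theorem four_mul_le (n : ℕ) (h : 4 ≤ n) : 4 * n ≤ LL n := by
  unfold LL
  induction n, h using Nat.le_induction with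
  | base => norm_num
  | succ n hn ih => rw [pow_succ]; omega

theorem four_pow_le (j : ℕ) : 4 ^ (j + 1) ≤ ep j := by
  induction j with
  | zero => exact le_refl 4
  | succ j ih =>
    have h1 := four_mul_le (ep j) (four_le_ep j)
    have h2 := LL_lt_mm (ep j)
    have h3 := mm_lt_ep j
    rw [pow_succ]
    omega

theorem KK_le (X : Oracle) (U : Code) (R : Oracle) (j : ℕ) : KK X U R j ≤ j := by
  induction j with
  | zero => exact le_refl 0
  | succ j ih =>
    unfold KK
    split_ifs <;> omega

theorem pow_KK_le (X : Oracle) (U : Code) (R : Oracle) (j : ℕ) : 4 * 4 ^ KK X U R j ≤ ep j := by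
  have h1 : 4 ^ KK X U R j ≤ 4 ^ j := Nat.pow_le_pow_right (by norm_num) (KK_le X U R j)
  have h2 := four_pow_le j
  rw [pow_succ] at h2
  omega

/-! ### dependence -/

theorem trunc_congr {m : ℕ} {O O' : Oracle} (h : ∀ z : List Bool, z.length ≤ m → O z = O' z) :
    trunc m O = trunc m O' := by
  funext z
  unfold trunc
  by_cases hz : z.length ≤ m
  · rw [h z hz]
  · simp [hz]

theorem Acc_congr {g : List Bool → List Bool} {c m : ℕ} {O O' : Oracle}
    (h : ∀ z : List Bool, z.length ≤ m → O z = O' z) (q : List Bool) :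
    Acc g c m O q ↔ Acc g c m O' q := by
  unfold Acc
  rw [trunc_congr h]

theorem DD_congr {U : Code} {n : ℕ} {O O' : Oracle}
    (h : ∀ z : List Bool, z.length ≤ mm n → O z = O' z) : DD U n O ↔ DD U n O' := by
  unfold DD
  simp only [Acc_congr h]

theorem join_congr {X R R' : Oracle} {m : ℕ} (h : ∀ y : List Bool, y.length < m → R y = R' y) :
    ∀ z : List Bool, z.length ≤ m → join X R z = join X R' z := by
  intro z hz
  match z with
  | [] => rfl
  | false :: y => rfl
  | true :: y => exact h y (by simpa using hz)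

theorem glue_congr {n L : ℕ} {R R' : Oracle} (h : ∀ y : List Bool, y.length < n → R y = R' y)
    (ω : Mid n L → Bool) : ∀ y : List Bool, y.length < L → glue n L R ω y = glue n L R' ω y := by
  intro y hy
  unfold glue
  by_cases hn : n ≤ y.length
  · rw [dif_pos ⟨hn, hy⟩, dif_pos ⟨hn, hy⟩]
  · rw [dif_neg (fun hh => hn hh.1), dif_neg (fun hh => hn hh.1)]
    exact h y (not_le.1 hn)

theorem glue_below {n L : ℕ} {R : Oracle} (ω : Mid n L → Bool) :
    ∀ y : List Bool, y.length < n → glue n L R ω y = R y := by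
  intro y hy
  unfold glue
  rw [dif_neg (fun hh => absurd hh.1 (not_le.2 hy))]

theorem Cond_congr {X : Oracle} {U : Code} {R R' : Oracle} {n : ℕ} (k : ℕ)
    (h : ∀ y : List Bool, y.length < n → R y = R' y) : Cond X U R n k ↔ Cond X U R' n k := by
  unfold Cond
  have : (fun ω : Mid n (mm n) → Bool => DD U n (join X (glue n (mm n) R ω))) =
      (fun ω : Mid n (mm n) → Bool => DD U n (join X (glue n (mm n) R' ω))) := by
    funext ω
    exact propext (DD_congr (join_congr (glue_congr h ω)))
  rw [this]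

theorem KK_congr {X : Oracle} {U : Code} {R R' : Oracle} (j : ℕ) :
    (∀ y : List Bool, y.length < ep j → R y = R' y) → KK X U R j = KK X U R' j := by
  induction j with
  | zero => intro _; rfl
  | succ j ih =>
    intro h
    have h1 : ∀ y : List Bool, y.length < ep j → R y = R' y := fun y hy =>
      h y (hy.trans (ep_lt j))
    have h2 := ih h1
    unfold KK
    rw [h2]
    have h3 := Cond_congr (X := X) (U := U) (KK X U R' j) h1
    by_cases hc : Cond X U R' (ep j) (KK X U R' j)
    · rw [if_pos hc, if_pos (h3.2 hc)]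
    · rw [if_neg hc, if_neg (fun hh => hc (h3.1 hh))]

theorem KK_glue (X : Oracle) (U : Code) (R : Oracle) (j L : ℕ) (ω : Mid (ep j) L → Bool) :
    KK X U (glue (ep j) L R ω) j = KK X U R j :=
  KK_congr j (glue_below ω)

/-! ### the block strings -/

theorem length_blk (s : Bool) (z : ℕ) (y : List Bool) (i : ℕ) :
    (blk s z y i).length = y.length + z + i + 2 := by
  unfold blk
  simp
  omega

theorem rep_inj : ∀ (z z' : ℕ) (u u' : List Bool),
    List.replicate z true ++ false :: u = List.replicate z' true ++ false :: u' →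
      z = z' ∧ u = u' := by
  intro z
  induction z with
  | zero =>
    intro z' u u' h
    cases z' with
    | zero => simpa using h
    | succ z' => simp [List.replicate_succ] at h
  | succ z ih =>
    intro z' u u' h
    cases z' with
    | zero => simp [List.replicate_succ] at h
    | succ z' =>
      simp only [List.replicate_succ, List.cons_append, List.cons.injEq, true_and] at h
      obtain ⟨h1, h2⟩ := ih z' u u' h
      exact ⟨by omega, h2⟩

theorem blk_inj {s s' : Bool} {z z' : ℕ} {y y' : List Bool} {i i' : ℕ}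
    (hy : y.length = y'.length) (h : blk s z y i = blk s' z' y' i') :
    s = s' ∧ z = z' ∧ y = y' ∧ i = i' := by
  unfold blk at h
  simp only [List.cons.injEq] at h
  obtain ⟨h1, h2⟩ := h
  obtain ⟨h3, h4⟩ := List.append_inj h2 hy
  obtain ⟨h5, h6⟩ := rep_inj _ _ _ _ h4
  have h7 := congrArg List.length h6
  simp only [List.length_replicate] at h7
  exact ⟨h1, h5, h3, h7⟩

theorem blk_mid {j k z : ℕ} (s : Bool) (y : List Bool) (i : ℕ) (hk : 4 * 4 ^ k ≤ ep j)
    (hz : z < 4 ^ k) (hy : y.length = ep j) (hi : i < ep j + 2 * k + 4) :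
    ep j ≤ (blk s z y i).length ∧ (blk s z y i).length < mm (ep j) := by
  rw [length_blk, hy]
  refine ⟨by omega, ?_⟩
  have h1 : k < 4 ^ k := Nat.lt_pow_self (by norm_num)
  have h2 : 4 ≤ ep j := four_le_ep j
  have h3 : ep j + 3 ≤ 2 ^ ep j := by
    have := four_mul_le (ep j) h2
    unfold LL at this
    omega
  have h4 : 2 ^ (ep j + 3) ≤ mm (ep j) := Nat.pow_le_pow_right (by norm_num) h3
  have h5 : ep j < 2 ^ ep j := Nat.lt_two_pow_self
  have h6 : 2 ^ (ep j + 3) = 8 * 2 ^ ep j := by rw [pow_add]; ring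
  omega

end Pool.Agent.DNP
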