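import Pool.Agent.Lib.MP_b9add9_lc.MeasSpec

/-!
# Conditional Borel-Cantelli for the coin measure
-/

namespace Pool.Agent.DNP

open ESY MeasureTheory Filter
open scoped ENNReal

/-- restriction to the strings of length less than `n` -/
def restr (n : ℕ) (R : Oracle) : lev n → Bool := fun x => R x.1

/-- the sets that depend only on the strings of length less than `n` -/
def sig (n : ℕ) : MeasurableSpace Oracle := MeasurableSpace.comap (restr n) ⊤

theorem measurable_restr (n : ℕ) : @Measurable _ _ _ ⊤ (restr n) := by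
  have h : Measurable (restr n) := measurable_pi_lambda _ fun x => measurable_pi_apply x.1
  have e : (⊤ : MeasurableSpace (lev n → Bool)) = MeasurableSpace.pi := by
    refine le_antisymm (fun s _ => ?_) le_top
    exact (Set.toFinite s).measurableSet
  rw [e]
  exact h

theorem sig_le (n : ℕ) : sig n ≤ MeasurableSpace.pi := (measurable_restr n).comap_le

theorem sig_mono {n m : ℕ} (h : n ≤ m) : sig n ≤ sig m := by
  rintro s ⟨S, -, rfl⟩
  refine ⟨(fun σ : lev m → Bool => fun x : lev n => σ ⟨x.1, mem_lev.2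
    ((mem_lev.1 x.2).trans_le h)⟩) ⁻¹' S, trivial, rfl⟩

theorem dep_meas {L : ℕ} {E : Set Oracle} (h : Dep L E) : MeasurableSet[sig L] E := by
  refine ⟨restr L '' E, trivial, ?_⟩
  ext R
  constructor
  · rintro ⟨R', hR', he⟩
    refine (h R' R fun x hx => ?_).1 hR'
    exact congrFun he ⟨x, mem_lev.2 hx⟩
  · exact fun hR => ⟨R, hR, rfl⟩

/-- the cylinder of `R₀` at level `n` -/
def cylR (n : ℕ) (R₀ : Oracle) : Set Oracle := {R | ∀ x ∈ lev n, R x = R₀ x}

theorem meas_cylR (n : ℕ) (R₀ : Oracle) : MeasurableSet[sig n] (cylR n R₀) :=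
  dep_meas fun R R' h => by
    unfold cylR
    simp only [Set.mem_setOf_eq]
    refine forall_congr' fun x => forall_congr' fun hx => ?_
    rw [h x (mem_lev.1 hx)]

theorem coin_cylR (n : ℕ) (R₀ : Oracle) : coin (cylR n R₀) = (1 / 2) ^ (lev n).card :=
  coin_cyl (lev n) R₀

theorem coin_inter {n L : ℕ} (hn : n ≤ L) {E : Set Oracle} (hE : Dep L E) (R₀ : Oracle) :
    coin (E ∩ cylR n R₀) = (1 / 2) ^ (lev n).card *
      ((Fin.cnt (fun ω : Mid n L → Bool => glue n L R₀ ω ∈ E) : ℝ≥0∞) /
        2 ^ Nat.card (Mid n L)) := by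
  classical
  have := Fintype.ofFinite (Mid n L)
  let S : Finset (Mid n L → Bool) := Finset.univ.filter fun ω => glue n L R₀ ω ∈ E
  have h1 : E ∩ cylR n R₀ = ⋃ ω ∈ S, cylR L (glue n L R₀ ω) := by
    ext R
    simp only [Set.mem_inter_iff, Set.mem_iUnion, exists_prop]
    constructor
    · rintro ⟨hRE, hR⟩
      have hag : ∀ x : List Bool, x.length < L → R x = glue n L R₀ (fun i => R i.1) x := by
        intro x hx
        unfold glue
        by_cases h : n ≤ x.length
        · rw [dif_pos ⟨h, hx⟩]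
        · rw [dif_neg (fun hh => h hh.1)]
          exact hR x (mem_lev.2 (not_le.1 h))
      refine ⟨fun i => R i.1, Finset.mem_filter.2 ⟨Finset.mem_univ _, (hE _ _ hag).1 hRE⟩, ?_⟩
      exact fun x hx => hag x (mem_lev.1 hx)
    · rintro ⟨ω, hω, hR⟩
      have hω' := (Finset.mem_filter.1 hω).2
      refine ⟨(hE _ _ fun x hx => hR x (mem_lev.2 hx)).2 hω', fun x hx => ?_⟩
      have hx' := mem_lev.1 hx
      rw [hR x (mem_lev.2 (hx'.trans_le hn))]
      unfold glue
      rw [dif_neg (fun hh => absurd hh.1 (not_le.2 hx'))]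
  have h2 : coin (⋃ ω ∈ S, cylR L (glue n L R₀ ω)) = ∑ ω ∈ S, coin (cylR L (glue n L R₀ ω)) := by
    refine measure_biUnion_finset ?_ fun ω _ => sig_le L _ (meas_cylR L _)
    intro ω _ ω' _ hne
    refine Set.disjoint_left.2 fun R hR hR' => hne ?_
    funext i
    have e1 := hR i.1 (mem_lev.2 i.2.2)
    have e2 := hR' i.1 (mem_lev.2 i.2.2)
    unfold glue at e1 e2
    rw [dif_pos i.2] at e1 e2
    exact e1.symm.trans e2
  rw [h1, h2, Finset.sum_congr rfl fun ω _ => coin_cylR L _, Finset.sum_const, nsmul_eq_mul,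
    card_mid hn, Fin.cnt_eq, pow_add]
  have h3 : (1 / 2 : ℝ≥0∞) ^ Nat.card (Mid n L) = (2 ^ Nat.card (Mid n L))⁻¹ := by
    rw [one_div, ENNReal.inv_pow]
  rw [h3]
  generalize (1 / 2 : ℝ≥0∞) ^ (lev n).card = a
  rw [div_eq_mul_inv]
  ring

theorem coin_inter_real {n L : ℕ} (hn : n ≤ L) {E : Set Oracle} (hE : Dep L E) (R₀ : Oracle) :
    coin.real (E ∩ cylR n R₀) = coin.real (cylR n R₀) * cp n L E R₀ := by
  unfold Measure.real
  rw [coin_inter hn hE, coin_cylR, ENNReal.toReal_mul]
  unfold cp
  rw [ENNReal.toReal_div]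
  simp

theorem cp_congr {n L : ℕ} {E : Set Oracle} (hE : Dep L E) {R R' : Oracle}
    (h : ∀ x : List Bool, x.length < n → R x = R' x) : cp n L E R = cp n L E R' := by
  unfold cp
  have : (fun ω : Mid n L → Bool => glue n L R ω ∈ E) =
      (fun ω : Mid n L → Bool => glue n L R' ω ∈ E) := by
    funext ω
    refine propext (hE _ _ fun x hx => ?_)
    unfold glue
    by_cases hh : n ≤ x.length
    · rw [dif_pos ⟨hh, hx⟩, dif_pos ⟨hh, hx⟩]
    · rw [dif_neg (fun h' => hh h'.1), dif_neg (fun h' => hh h'.1)]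
      exact h x (not_le.1 hh)
  rw [this]

theorem cp_bounds (n L : ℕ) (E : Set Oracle) (R : Oracle) : 0 ≤ cp n L E R ∧ cp n L E R ≤ 1 := by
  unfold cp
  refine ⟨by positivity, ?_⟩
  rw [div_le_one (by positivity)]
  have h := Fin.cnt_le_card (fun ω : Mid n L → Bool => glue n L R ω ∈ E)
  have e : Nat.card (Mid n L → Bool) = 2 ^ Nat.card (Mid n L) := Fin.card_pow
  rw [e] at h
  exact_mod_cast h

/-- extension of a finite pattern -/
noncomputable def extn (n : ℕ) (σ : lev n → Bool) : Oracle := by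
  classical
  exact fun x => if h : x ∈ lev n then σ ⟨x, h⟩ else false

theorem extn_restr (n : ℕ) (R : Oracle) : ∀ x : List Bool, x.length < n →
    extn n (restr n R) x = R x := by
  classical
  intro x hx
  unfold extn restr
  rw [dif_pos (mem_lev.2 hx)]

theorem condExp_cp {n L : ℕ} (hn : n ≤ L) {E : Set Oracle} (hE : Dep L E) :
    cp n L E =ᵐ[coin] coin[E.indicator (1 : Oracle → ℝ) | sig n] := by
  classical
  have hfac : cp n L E = (fun σ => cp n L E (extn n σ)) ∘ restr n := by
    funext R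
    exact cp_congr hE fun x hx => (extn_restr n R x hx).symm
  have hm : Measurable[sig n] (cp n L E) := by
    rw [hfac]
    intro s _
    exact ⟨(fun σ => cp n L E (extn n σ)) ⁻¹' s, trivial, rfl⟩
  have hEm : MeasurableSet E := sig_le L _ (dep_meas hE)
  have hint : Integrable (cp n L E) coin := by
    refine Integrable.of_bound (hm.mono (sig_le n) le_rfl).aestronglyMeasurable 1
      (ae_of_all _ fun R => ?_)
    rw [Real.norm_eq_abs, abs_of_nonneg (cp_bounds n L E R).1]
    exact (cp_bounds n L E R).2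
  have hind : Integrable (E.indicator (1 : Oracle → ℝ)) coin :=
    (integrable_const (1 : ℝ)).indicator hEm
  refine ae_eq_condExp_of_forall_setIntegral_eq (sig_le n) hind
    (fun s _ _ => hint.integrableOn) ?_ hm.stronglyMeasurable.aestronglyMeasurable
  rintro s ⟨S, -, rfl⟩ -
  let S' : Finset (lev n → Bool) := (Set.toFinite S).toFinset
  have hs : restr n ⁻¹' S = ⋃ σ ∈ S', cylR n (extn n σ) := by
    ext R
    simp only [Set.mem_preimage, Set.mem_iUnion, exists_prop, S', Set.Finite.mem_toFinset]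
    constructor
    · intro h
      exact ⟨restr n R, h, fun x hx => (extn_restr n R x (mem_lev.1 hx)).symm⟩
    · rintro ⟨σ, hσ, hR⟩
      have : restr n R = σ := by
        funext x
        have h1 := hR x.1 x.2
        unfold extn at h1
        rw [dif_pos x.2] at h1
        exact h1
      rwa [this]
  have hdis : Set.Pairwise (↑S') (Function.onFun Disjoint fun σ => cylR n (extn n σ)) := by
    intro σ _ σ' _ hne
    refine Set.disjoint_left.2 fun R hR hR' => hne ?_
    funext x
    have h1 := hR x.1 x.2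
    have h2 := hR' x.1 x.2
    unfold extn at h1 h2
    rw [dif_pos x.2] at h1 h2
    exact h1.symm.trans h2
  have hcm : ∀ σ ∈ S', MeasurableSet (cylR n (extn n σ)) := fun σ _ => sig_le n _ (meas_cylR n _)
  rw [hs, integral_biUnion_finset S' hcm hdis (fun σ _ => hint.integrableOn),
    integral_biUnion_finset S' hcm hdis (fun σ _ => hind.integrableOn)]
  refine Finset.sum_congr rfl fun σ hσ => ?_
  have h1 : ∫ R in cylR n (extn n σ), cp n L E R ∂coin =
      ∫ _R in cylR n (extn n σ), cp n L E (extn n σ) ∂coin :=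
    setIntegral_congr_fun (hcm σ hσ) fun R hR => cp_congr hE fun x hx => hR x (mem_lev.2 hx)
  rw [h1, setIntegral_const, smul_eq_mul, ← coin_inter_real hn hE]
  rw [integral_indicator_one hEm, measureReal_restrict_apply hEm]

/-- the filtration of the levels `n j` -/
def filt (n : ℕ → ℕ) (hn : StrictMono n) : Filtration ℕ (MeasurableSpace.pi : MeasurableSpace Oracle) where
  seq := fun j => sig (n j)
  mono' := fun _ _ h => sig_mono (hn.monotone h)
  le' := fun j => sig_le (n j)

theorem measStmt : MeasStmt := by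
  intro n L hn hL E hE
  let s : ℕ → Set Oracle := fun j => Nat.casesOn j ∅ (fun j => E j)
  have hs : ∀ j, MeasurableSet[filt n hn j] (s j) := by
    intro j
    cases j with
    | zero => exact @MeasurableSet.empty _ (sig (n 0))
    | succ j =>
      have h1 : MeasurableSet[sig (L j)] (E j) := dep_meas (hE j)
      exact sig_mono (hL j).2 _ h1
  have h1 := ae_mem_limsup_atTop_iff coin hs
  have h2 : ∀ᵐ R ∂coin, ∀ j, cp (n j) (L j) (E j) R =
      (coin[(E j).indicator (1 : Oracle → ℝ) | sig (n j)]) R :=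
    ae_all_iff.2 fun j => condExp_cp (hL j).1 (hE j)
  filter_upwards [h1, h2] with R h3 h4
  have h5 : (fun J => ∑ j ∈ Finset.range J, cp (n j) (L j) (E j) R) =
      fun J => ∑ j ∈ Finset.range J,
        (coin[(s (j + 1)).indicator (1 : Oracle → ℝ) | filt n hn j]) R := by
    funext J
    exact Finset.sum_congr rfl fun j _ => h4 j
  rw [h5, ← h3]
  rw [← Set.mem_setOf (p := fun R => ∃ᶠ j in atTop, R ∈ E j)]
  have h6 : R ∈ limsup s atTop ↔ ∃ᶠ j in atTop, R ∈ s j := by
    rw [Filter.mem_limsup_iff_frequently_mem]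
  rw [h6]
  simp only [Set.mem_setOf_eq, Filter.frequently_atTop]
  constructor
  · intro h a
    obtain ⟨b, hb, hb'⟩ := h a
    exact ⟨b + 1, by omega, hb'⟩
  · intro h a
    obtain ⟨b, hb, hb'⟩ := h (a + 1)
    cases b with
    | zero => omega
    | succ b => exact ⟨b, by omega, hb'⟩

end Pool.Agent.DNP
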