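import Pool.Agent.Lib.MP_b9add9_lc.Sched

/-!
# Exact statement of the measure part
-/

namespace Pool.Agent.DNP

open ESY MeasureTheory Filter

/-- `E` depends only on the strings of length less than `L` -/
def Dep (L : ℕ) (E : Set Oracle) : Prop :=
  ∀ R R' : Oracle, (∀ x : List Bool, x.length < L → R x = R' x) → (R ∈ E ↔ R' ∈ E)

/-- the conditional probability of `E` given the strings of length less than `n` -/
noncomputable def cp (n L : ℕ) (E : Set Oracle) (R : Oracle) : ℝ :=
  (Fin.cnt (fun ω : Mid n L → Bool => glue n L R ω ∈ E) : ℝ) / 2 ^ Nat.card (Mid n L)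

/-- conditional Borel-Cantelli (Levy) for the coin measure -/
def MeasStmt : Prop :=
  ∀ (n L : ℕ → ℕ), StrictMono n → (∀ j, n j ≤ L j ∧ L j ≤ n (j + 1)) →
    ∀ E : ℕ → Set Oracle, (∀ j, Dep (L j) (E j)) →
      ∀ᵐ R ∂coin, ((∃ᶠ j in atTop, R ∈ E j) ↔
        Tendsto (fun J => ∑ j ∈ Finset.range J, cp (n j) (L j) (E j) R) atTop atTop)

end Pool.Agent.DNP
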