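import Pool.Agent.Lib.MP_b9add9_lc.Defs
import Pool.Agent.Lib.MP_b9add9_lc.Conv

/-!
# Locality of oracle procedures
-/

namespace Pool.Agent.DNP

open ESY MeasureTheory Turing Pool.Agent.PolyTime

theorem polyTime_iff {g : List Bool → List Bool} : PolyTime g ↔ PT g := PT.iff_tm2.symm

/-- the queries of the first `t` rounds -/
def queries (O : Oracle) (g : List Bool → List Bool) (x : List Bool) : ℕ → List (List Bool)
  | 0 => []
  | t + 1 =>
    match g (pr x (answers O g x t)) with
    | false :: q => queries O g x t ++ [q]
    | _ => queries O g x t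

theorem answers_succ (O : Oracle) (g : List Bool → List Bool) (x : List Bool) (t : ℕ) :
    answers O g x (t + 1) = match g (pr x (answers O g x t)) with
      | false :: q => answers O g x t ++ [O q]
      | _ => answers O g x t := rfl

theorem queries_succ (O : Oracle) (g : List Bool → List Bool) (x : List Bool) (t : ℕ) :
    queries O g x (t + 1) = match g (pr x (answers O g x t)) with
      | false :: q => queries O g x t ++ [q]
      | _ => queries O g x t := rfl

theorem length_queries (O : Oracle) (g : List Bool → List Bool) (x : List Bool) (t : ℕ) :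
    (queries O g x t).length ≤ t := by
  induction t with
  | zero => simp [queries]
  | succ t ih =>
    rw [queries_succ]
    split
    · rw [List.length_append]
      simpa using ih
    · omega

theorem length_answers (O : Oracle) (g : List Bool → List Bool) (x : List Bool) (t : ℕ) :
    (answers O g x t).length ≤ t := by
  induction t with
  | zero => simp [answers]
  | succ t ih =>
    rw [answers_succ]
    split
    · rw [List.length_append]
      simpa using ih
    · omega

/-- **Locality.** -/
theorem answers_congr {O O' : Oracle} {g : List Bool → List Bool} {x : List Bool} {t : ℕ}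
    (h : ∀ q ∈ queries O g x t, O' q = O q) : answers O' g x t = answers O g x t := by
  induction t with
  | zero => rfl
  | succ t ih =>
    rw [queries_succ] at h
    rw [answers_succ, answers_succ]
    split at h
    · rename_i q hq
      have h1 := ih fun q' hq' => h q' (List.mem_append_left _ hq')
      have h2 := h q (List.mem_append_right _ (by simp))
      rw [h1, hq]
      simp only
      rw [h2]
    · rename_i hn
      have h1 := ih h
      rw [h1]
      split
      · rename_i q hq
        exact absurd hq (hn q)
      · rfl

theorem pr_length (x y : List Bool) : (pr x y).length = 2 * x.length + y.length + 1 := by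
  unfold pr
  simp
  omega

/-- polynomial bound on the output length -/
theorem PolyTime.bound {g : List Bool → List Bool} (h : PolyTime g) :
    ∃ d, ∀ x, (g x).length ≤ poly d x.length := by
  obtain ⟨q, hq⟩ := (polyTime_iff.1 h).bdd
  -- size of a bit list
  have h1 : ∀ x : List Bool, sz x ≤ 4 * x.length + 1 := by
    intro x
    induction x with
    | nil => simp
    | cons b x ih =>
      have := sz_bool b
      simp only [sz_cons, List.length_cons]
      omega
  have h2 : ∀ x, (g x).length ≤ q.eval (4 * x.length + 1) := fun x =>
    (length_le_sz _).trans ((hq x).trans (poly_mono q (h1 x)))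
  -- polynomials are bounded by n ^ d + d
  have h3 : ∀ p : Polynomial ℕ, ∃ d, ∀ n, p.eval n ≤ d * (n + 1) ^ d := by
    intro p
    induction p using Polynomial.induction_on' with
    | add p q hp hq =>
      obtain ⟨d, hd⟩ := hp
      obtain ⟨e, he⟩ := hq
      refine ⟨d + e, fun n => ?_⟩
      have h4 : (n + 1) ^ d ≤ (n + 1) ^ (d + e) := Nat.pow_le_pow_right (by omega) (by omega)
      have h5 : (n + 1) ^ e ≤ (n + 1) ^ (d + e) := Nat.pow_le_pow_right (by omega) (by omega)
      rw [Polynomial.eval_add]
      nlinarith [hd n, he n]
    | monomial m c =>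
      refine ⟨c + m, fun n => ?_⟩
      rw [Polynomial.eval_monomial]
      have h4 : n ^ m ≤ (n + 1) ^ (c + m) :=
        (Nat.pow_le_pow_left (by omega) _).trans (Nat.pow_le_pow_right (by omega) (by omega))
      exact Nat.mul_le_mul (by omega) h4
  obtain ⟨d, hd⟩ := h3 q
  -- d (4 n + 2) ^ d ≤ n ^ e + e
  refine ⟨d * 6 ^ d + d + 2 ^ d * (d * 6 ^ d), fun x => ?_⟩
  refine (h2 x).trans ((hd _).trans ?_)
  unfold poly
  generalize x.length = n
  rcases Nat.lt_or_ge n 2 with hn | hn
  · have h4 : (4 * n + 1 + 1) ^ d ≤ 6 ^ d := Nat.pow_le_pow_left (by omega) _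
    have h5 : d * (4 * n + 1 + 1) ^ d ≤ d * 6 ^ d := Nat.mul_le_mul_left _ h4
    omega
  · have h4 : (4 * n + 1 + 1) ^ d ≤ (5 * n) ^ d := Nat.pow_le_pow_left (by omega) _
    have h5 : d * 5 ^ d ≤ 2 ^ (d * 6 ^ d) := by
      refine le_trans ?_ (Nat.lt_two_pow_self (n := d * 6 ^ d)).le
      exact Nat.mul_le_mul_left _ (Nat.pow_le_pow_left (by omega) _)
    have h6 : 2 ^ (d * 6 ^ d) ≤ n ^ (d * 6 ^ d) := Nat.pow_le_pow_left hn _
    calc d * (4 * n + 1 + 1) ^ d ≤ d * (5 * n) ^ d := Nat.mul_le_mul_left _ h4
      _ = (d * 5 ^ d) * n ^ d := by rw [mul_pow]; ring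
      _ ≤ n ^ (d * 6 ^ d) * n ^ d := Nat.mul_le_mul_right _ (h5.trans h6)
      _ = n ^ (d * 6 ^ d + d) := by rw [pow_add]
      _ ≤ n ^ (d * 6 ^ d + d + 2 ^ d * (d * 6 ^ d)) := Nat.pow_le_pow_right (by omega) (by omega)
      _ ≤ _ := Nat.le_add_right _ _

/-- bound on the length of the queries -/
theorem queries_bound {g : List Bool → List Bool} {d : ℕ} (h : ∀ x, (g x).length ≤ poly d x.length)
    (O : Oracle) (x : List Bool) (t : ℕ) :
    ∀ q ∈ queries O g x t, q.length ≤ poly d (2 * x.length + t + 1) := by
  have hmono : ∀ {a b : ℕ}, a ≤ b → poly d a ≤ poly d b := by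
    intro a b hab
    unfold poly
    have := Nat.pow_le_pow_left hab d
    omega
  induction t with
  | zero => simp [queries]
  | succ t ih =>
    intro q hq
    rw [queries_succ] at hq
    have h0 : ∀ q ∈ queries O g x t, q.length ≤ poly d (2 * x.length + (t + 1) + 1) :=
      fun q hq => (ih q hq).trans (hmono (by omega))
    split at hq
    · rename_i q' hq'
      rcases List.mem_append.1 hq with h1 | h1
      · exact h0 q h1
      · have h2 : q = q' := by simpa using h1
        subst h2
        have h3 := h (pr x (answers O g x t))
        rw [hq', List.length_cons, pr_length] at h3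
        have h4 := length_answers O g x t
        have h5 := hmono (show 2 * x.length + (answers O g x t).length + 1 ≤
          2 * x.length + (t + 1) + 1 by omega)
        omega
    · exact h0 q hq

end Pool.Agent.DNP
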