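import Pool.Agent.Lib.MP_b9add9_lc.Sched
import Pool.Agent.Lib.PolyTime.ListOps

/-!
# Polynomial-time ingredients of the adversary pair
-/

namespace Pool.Agent.DNP

open ESY Turing Pool.Agent.PolyTime

attribute [local fun_prop] PT PT.id PT.const PT.comp PT.pair PT.fst PT.snd PT.add PT.sub PT.mul
  PT.cons PT.append PT.tail PT.take PT.drop PT.listGetD PT.length PT.reverse PT.le PT.lt PT.natEq
  PT.iteProp PT.ite PT.map PT.range PT.filter PT.all PT.any PT.and PT.or PT.not PT.decAnd
  PT.decOr PT.decNot PT.some PT.getD PT.mod PT.div PT.max PT.min PT.head? PT.getElem? PT.eq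
  PT.contains PT.countP PT.pow PT.replicate PT.flatMap PT.zip PT.filterMap PT.succ

universe u v

variable {α : Type u} {β : Type v} [Rep α] [Rep β]

/-! ### unpairing -/

/-- number of leading ones -/
def ones (v : List Bool) : ℕ := v.foldr (fun b s => if b then s + 1 else 0) 0

theorem ones_le (v : List Bool) : ones v ≤ v.length := by
  induction v with
  | nil => exact le_rfl
  | cons b v ih =>
    have e : ones (b :: v) = if b then ones v + 1 else 0 := rfl
    rw [e, List.length_cons]
    split_ifs <;> omega

theorem ones_pr (k : ℕ) (r : List Bool) : ones (List.replicate k true ++ false :: r) = k := by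
  induction k with
  | zero => rfl
  | succ k ih =>
    have e : ones (List.replicate (k + 1) true ++ false :: r) =
        ones (List.replicate k true ++ false :: r) + 1 := rfl
    rw [e, ih]

theorem PT.ones {f : α → List Bool} (hf : PT f) : PT (fun a => ones (f a)) := by
  refine PT.foldr (g := fun _ b s => if b then s + 1 else 0) (B := fun a => 2 * sz (f a) + 1)
    hf (PT.const 0) ?_ ?_ ?_
  · exact PT.ite PT.id.snd.fst PT.id.snd.snd.succ (PT.const 0)
  · exact ((Bdd.const 2).mul hf.bdd).add (Bdd.const 1)
  · intro a l' hl'
    have h1 := ones_le l'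
    have h2 := hl'.length_le
    have h3 := length_le_sz (f a)
    have e : List.foldr (fun b s => if b then s + 1 else 0) 0 l' = DNP.ones l' := rfl
    rw [e, sz_nat]
    omega

/-- unpairing -/
def unp (v : List Bool) : List Bool × List Bool :=
  ((v.drop (ones v + 1)).take (ones v), v.drop (2 * ones v + 1))

theorem unp_pr (x y : List Bool) : unp (pr x y) = (x, y) := by
  have h : ones (pr x y) = x.length := ones_pr _ _
  unfold unp
  rw [h]
  have e : pr x y = (List.replicate x.length true ++ [false]) ++ (x ++ y) := by
    simp [pr]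
  have h1 : (pr x y).drop (x.length + 1) = x ++ y := by
    rw [e]
    exact List.drop_left' (by simp)
  have h2 : (pr x y).drop (2 * x.length + 1) = y := by
    have : 2 * x.length + 1 = (x.length + 1) + x.length := by omega
    rw [this, ← List.drop_drop, h1]
    exact List.drop_left' rfl
  rw [h1, h2]
  simp

theorem PT.unp {f : α → List Bool} (hf : PT f) : PT (fun a => unp (f a)) := by
  unfold DNP.unp
  have := PT.ones hf
  fun_prop

/-! ### the pairing -/

theorem PT.pr {f g : α → List Bool} (hf : PT f) (hg : PT g) : PT (fun a => pr (f a) (g a)) := by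
  unfold DNP.pr
  fun_prop

/-! ### nonadaptive verifiers -/

/-- ask the queries one after the other, then decide -/
def nag (qs : List Bool → List (List Bool)) (chk : List Bool × List Bool → Bool)
    (v : List Bool) : List Bool :=
  match (qs (unp v).1)[(unp v).2.length]? with
  | some q => false :: q
  | none => [true, chk (unp v)]

theorem PT.nag {qs : List Bool → List (List Bool)} {chk : List Bool × List Bool → Bool}
    (hq : PT qs) (hc : PT chk) : PT (nag qs chk) := by
  have h1 : PT (fun v => (qs (DNP.unp v).1)[(DNP.unp v).2.length]?) := by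
    have h := PT.unp (PT.id (α := List Bool))
    exact PT.getElem? (PT.comp hq (f := fun v => (DNP.unp v).1) h.fst) h.snd.length
  have h2 : PT (fun v : List Bool => [true, chk (DNP.unp v)]) :=
    PT.cons (PT.const true) (PT.cons (PT.comp hc (f := fun v => DNP.unp v)
      (PT.unp PT.id)) (PT.const []))
  refine (PT.optionCases (g := fun _ q => false :: q) h1 h2
    (PT.cons (PT.const false) PT.id.snd)).congr fun v => ?_
  unfold DNP.nag
  cases (qs (DNP.unp v).1)[(DNP.unp v).2.length]? <;> rfl

theorem answers_nag (O : Oracle) (qs : List Bool → List (List Bool))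
    (chk : List Bool × List Bool → Bool) (p : List Bool) (t : ℕ) :
    answers O (nag qs chk) p t = ((qs p).take t).map O := by
  induction t with
  | zero => simp [answers]
  | succ t ih =>
    rw [answers_succ, ih]
    unfold nag
    rw [unp_pr]
    simp only [List.length_map, List.length_take]
    rcases Nat.lt_or_ge t (qs p).length with h | h
    · rw [Nat.min_eq_left h.le, List.getElem?_eq_getElem h]
      simp only
      rw [List.take_add_one, List.getElem?_eq_getElem h, List.map_append]
      rfl
    · rw [Nat.min_eq_right h, List.getElem?_eq_none le_rfl]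
      simp only
      rw [List.take_of_length_le h, List.take_of_length_le (by omega)]

theorem outputs_nag {O : Oracle} {qs : List Bool → List (List Bool)}
    {chk : List Bool × List Bool → Bool} {p : List Bool} {t : ℕ} (ht : (qs p).length ≤ t) :
    Outputs O (nag qs chk) p t [true] ↔ chk (p, (qs p).map O) = true := by
  unfold Outputs
  rw [answers_nag, List.take_of_length_le ht]
  unfold nag
  rw [unp_pr]
  simp only [List.length_map]
  rw [List.getElem?_eq_none le_rfl]
  simp

/-- **Nonadaptive verification.** -/
theorem inNP_of_nonadaptive {O : Oracle} {L : Set (List Bool)}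
    {qs : List Bool → List (List Bool)} {chk : List Bool × List Bool → Bool} (hq : PT qs)
    (hc : PT chk) (c : ℕ) (hlen : ∀ x w, (qs (pr x w)).length ≤ poly c x.length)
    (h : ∀ x, x ∈ L ↔ ∃ w : List Bool, w.length ≤ poly c x.length ∧
      chk (pr x w, (qs (pr x w)).map O) = true) : InNP O L := by
  refine ⟨nag qs chk, c, polyTime_iff.2 (PT.nag hq hc), fun x => ?_⟩
  rw [h x]
  refine exists_congr fun w => and_congr_right fun _ => ?_
  rw [outputs_nag (hlen x w)]

/-! ### capped powers and logarithms -/

/-- powers of two, capped -/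
def cpw (l m : ℕ) : ℕ := min (2 ^ m) (l + 1)

theorem cp_rec (l m : ℕ) : Nat.rec (motive := fun _ => ℕ) 1 (fun _ s => min (2 * s) (l + 1)) m =
    cpw l m := by
  induction m with
  | zero => simp [cpw]
  | succ m ih =>
    simp only at ih ⊢
    rw [ih]
    unfold cpw
    rw [pow_succ]
    omega

theorem PT.cpw {f g : α → ℕ} (hf : PT f) (hg : PT g) : PT (fun a => cpw (f a) (g a)) := by
  refine (PT.natRec (g := fun a _ s => min (2 * s) (f a + 1)) (B := fun a => 2 * sz (f a) + 4)
    hg (PT.const 1) ?_ ?_ ?_).congr fun a => cp_rec _ _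
  · have := hf.comp (f := fun p : α × (ℕ × ℕ) => p.1) PT.id.fst
    exact PT.min ((PT.const 2).mul PT.id.snd.snd) this.succ
  · exact ((Bdd.const 2).mul hf.bdd).add (Bdd.const 4)
  · intro a m _
    rw [cp_rec, sz_nat, sz_nat]
    unfold DNP.cpw
    omega

theorem cp_le_iff {l m : ℕ} : cpw l m ≤ l ↔ 2 ^ m ≤ l := by
  unfold cpw
  omega

theorem cp_eq {l m : ℕ} (h : 2 ^ m ≤ l + 1) : cpw l m = 2 ^ m := min_eq_left h

theorem filter_range_lt (n k : ℕ) :
    ((List.range n).filter (fun i => decide (i < k))).length = min n k := by
  induction n with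
  | zero => simp
  | succ n ih =>
    rw [List.range_succ, List.filter_append, List.length_append, ih]
    by_cases h : n < k
    · simp [h]
      omega
    · simp [h]
      omega

theorem PT.log2 {f : α → ℕ} (hf : PT f) : PT (fun a => Nat.log 2 (f a)) := by
  have h1 : PT (fun a => ((List.range (f a)).filter
      (fun i => decide (DNP.cpw (f a) (i + 1) ≤ f a))).length) := by
    refine PT.length (PT.filter (g := fun a i => decide (DNP.cpw (f a) (i + 1) ≤ f a))
      (PT.range hf) ?_)
    have h2 := hf.comp (f := fun p : α × ℕ => p.1) PT.id.fst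
    exact PT.le (PT.cpw h2 PT.id.snd.succ) h2
  refine h1.congr fun a => ?_
  have h3 : ∀ i, decide (DNP.cpw (f a) (i + 1) ≤ f a) = decide (i < Nat.log 2 (f a)) := by
    intro i
    rw [Bool.eq_iff_iff, decide_eq_true_iff, decide_eq_true_iff, cp_le_iff]
    rcases Nat.eq_zero_or_pos (f a) with h0 | h0
    · rw [h0]
      simp
    · rw [← Nat.le_log_iff_pow_le (by norm_num) (by omega)]
      omega
  simp only [h3]
  rw [filter_range_lt]
  refine min_eq_right ?_
  exact Nat.log_le_self 2 _

/-! ### all strings up to some length -/

/-- all strings of length at most `n` -/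
def strsLE : ℕ → List (List Bool)
  | 0 => [[]]
  | n + 1 => [] :: (strsLE n).flatMap fun u => [false :: u, true :: u]

theorem mem_strsLE {n : ℕ} {u : List Bool} : u ∈ strsLE n ↔ u.length ≤ n := by
  induction n generalizing u with
  | zero => simp [strsLE]
  | succ n ih =>
    simp only [strsLE, List.mem_cons, List.mem_flatMap, List.not_mem_nil, or_false]
    constructor
    · rintro (rfl | ⟨v, hv, rfl | rfl⟩)
      · simp
      · simpa using ih.1 hv
      · simpa using ih.1 hv
    · intro h
      rcases u with _ | ⟨_ | _, u⟩
      · exact Or.inl rfl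
      · exact Or.inr ⟨u, ih.2 (by simpa using h), Or.inl rfl⟩
      · exact Or.inr ⟨u, ih.2 (by simpa using h), Or.inr rfl⟩

theorem length_strsLE (n : ℕ) : (strsLE n).length + 1 = 2 ^ (n + 1) := by
  induction n with
  | zero => rfl
  | succ n ih =>
    have h : ((strsLE n).flatMap fun u => [false :: u, true :: u]).length =
        2 * (strsLE n).length := by
      generalize strsLE n = l
      induction l with
      | nil => rfl
      | cons a l ih => rw [List.flatMap_cons, List.length_append, ih]; simp; omega
    rw [strsLE, List.length_cons, h, pow_succ]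
    omega

theorem nodup_strsLE (n : ℕ) : (strsLE n).Nodup := by
  induction n with
  | zero => simp [strsLE]
  | succ n ih =>
    rw [strsLE, List.nodup_cons]
    refine ⟨by simp, ?_⟩
    rw [List.nodup_flatMap]
    refine ⟨fun u _ => by simp, ?_⟩
    refine ih.imp ?_
    intro u v huv
    simp only [Function.onFun, List.disjoint_left, List.mem_cons, List.not_mem_nil, or_false]
    rintro x (rfl | rfl) <;> simp [huv]

theorem sz_strsLE (n : ℕ) : sz (strsLE n) ≤ 2 ^ (n + 1) * (4 * n + 2) + 1 := by
  have hb : ∀ u : List Bool, sz u ≤ 4 * u.length + 1 := by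
    intro u
    induction u with
    | nil => simp
    | cons b u ih =>
      have := sz_bool b
      simp only [sz_cons, List.length_cons]
      omega
  have h1 := sz_le_of_forall (strsLE n) (4 * n + 1) (fun u hu => by
    have := hb u
    have := mem_strsLE.1 hu
    omega)
  have h2 := length_strsLE n
  have h3 : (strsLE n).length * (4 * n + 1 + 1) ≤ 2 ^ (n + 1) * (4 * n + 2) :=
    Nat.mul_le_mul (by omega) (by omega)
  omega

theorem strsLE_rec (n : ℕ) : Nat.rec (motive := fun _ => List (List Bool)) [[]]
    (fun _ s => [] :: s.flatMap fun u => [false :: u, true :: u]) n = strsLE n := by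
  induction n with
  | zero => rfl
  | succ n ih => simp only at ih ⊢; rw [ih]; rfl

theorem PT.strsLE {n : α → ℕ} (hn : PT n) (hb : Bdd (fun a => 2 ^ n a)) :
    PT (fun a => strsLE (n a)) := by
  refine (PT.natRec (g := fun _ _ s => [] :: s.flatMap fun u => [false :: u, true :: u])
    (B := fun a => 2 * 2 ^ n a * (4 * 2 ^ n a + 2) + 1) hn (PT.const [[]]) ?_ ?_ ?_).congr
    fun a => strsLE_rec _
  · refine PT.cons (PT.const []) (PT.flatMap (g := fun _ u => [false :: u, true :: u])
      PT.id.snd.snd ?_)
    exact PT.cons (PT.cons (PT.const false) PT.id.snd)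
      (PT.cons (PT.cons (PT.const true) PT.id.snd) (PT.const []))
  · exact (((Bdd.const 2).mul hb).mul (((Bdd.const 4).mul hb).add (Bdd.const 2))).add
      (Bdd.const 1)
  · intro a m hm
    rw [strsLE_rec]
    refine (sz_strsLE m).trans ?_
    have h1 : 2 ^ m ≤ 2 ^ n a := Nat.pow_le_pow_right (by norm_num) hm
    have h2 : m ≤ 2 ^ n a := (Nat.lt_two_pow_self).le.trans h1
    have h3 : 2 ^ (m + 1) * (4 * m + 2) ≤ 2 * 2 ^ n a * (4 * 2 ^ n a + 2) := by
      refine Nat.mul_le_mul ?_ (by omega)
      rw [pow_succ]
      omega
    omega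

/-! ### sublists -/

theorem sublists_foldr {β : Type v} (l : List β) :
    l.foldr (fun b s => s ++ s.map (List.cons b)) [[]] = l.sublists' := by
  induction l with
  | nil => rfl
  | cons b l ih =>
    rw [List.foldr_cons, ih, List.sublists'_cons]

theorem PT.sublists {l : α → List β} (hl : PT l) (hb : Bdd (fun a => 2 ^ (l a).length)) :
    PT (fun a => (l a).sublists') := by
  refine (PT.foldr (g := fun _ b s => s ++ s.map (List.cons b))
    (B := fun a => 2 ^ (l a).length * (sz (l a) + 1) + 1) hl (PT.const [[]]) ?_ ?_ ?_).congr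
    fun a => sublists_foldr _
  · refine PT.append PT.id.snd.snd (PT.map (g := fun p u => p.2.1 :: u) PT.id.snd.snd ?_)
    exact PT.cons PT.id.fst.snd.fst PT.id.snd
  · exact (hb.mul (hl.bdd.add (Bdd.const 1))).add (Bdd.const 1)
  · intro a l' hl'
    rw [sublists_foldr]
    have h1 := sz_le_of_forall l'.sublists' (sz (l a)) (fun u hu => by
      rw [List.mem_sublists'] at hu
      exact sz_sublist (hu.trans hl'.sublist))
    rw [List.length_sublists'] at h1
    have h2 : 2 ^ l'.length ≤ 2 ^ (l a).length :=
      Nat.pow_le_pow_right (by norm_num) hl'.length_le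
    have h3 := Nat.mul_le_mul_right (sz (l a) + 1) h2
    omega

end Pool.Agent.DNP
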