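import Pool.Agent.Lib.MP_b9add9_lc.PTStep

/-!
# The adversary pair is in `NP`
-/

namespace Pool.Agent.DNP

open ESY Turing Pool.Agent.PolyTime

/-! ### free strings and partial oracles -/

theorem isFree_iff {n : ℕ} {z : List Bool} :
    isFree n z = true ↔ ∃ y : List Bool, z = true :: y ∧ n ≤ y.length := by
  unfold isFree
  rcases z with _ | ⟨b, y⟩
  · simp
  · simp only [List.head?_cons, Option.some.injEq, Bool.and_eq_true, decide_eq_true_iff,
      List.length_cons, List.cons.injEq]
    constructor
    · rintro ⟨rfl, h⟩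
      exact ⟨y, ⟨rfl, rfl⟩, by omega⟩
    · rintro ⟨y', ⟨rfl, rfl⟩, h⟩
      exact ⟨rfl, by omega⟩

theorem mem_free {n m : ℕ} {z : List Bool} :
    z ∈ free n m ↔ ∃ y : List Bool, z = true :: y ∧ n ≤ y.length ∧ y.length < m := by
  unfold free
  rw [List.mem_filter, mem_strsLE, isFree_iff]
  constructor
  · rintro ⟨h1, y, rfl, h2⟩
    exact ⟨y, rfl, h2, by simpa using h1⟩
  · rintro ⟨y, rfl, h2, h3⟩
    exact ⟨by simpa using h3, y, rfl, h2⟩

theorem nodup_free (n m : ℕ) : (free n m).Nodup := (nodup_strsLE m).filter _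

open Classical in
/-- the list of a partial oracle -/
noncomputable def toL (n m : ℕ) (ω : Mid n m → Bool) : List (List Bool) :=
  (free n m).filter fun z => decide (∃ y : Mid n m, z = true :: y.1 ∧ ω y = true)

theorem mem_toL {n m : ℕ} {ω : Mid n m → Bool} (y : Mid n m) :
    true :: y.1 ∈ toL n m ω ↔ ω y = true := by
  classical
  unfold toL
  rw [List.mem_filter, decide_eq_true_iff, mem_free]
  constructor
  · rintro ⟨-, y', h1, h2⟩
    have : y = y' := Subtype.ext (List.cons.inj h1).2
    rw [this]
    exact h2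
  · intro h
    exact ⟨⟨y.1, rfl, y.2.1, y.2.2⟩, y, rfl, h⟩

theorem toL_inj {n m : ℕ} {ω ω' : Mid n m → Bool} (h : toL n m ω = toL n m ω') : ω = ω' := by
  funext y
  have h1 := mem_toL (ω := ω) y
  have h2 := mem_toL (ω := ω') y
  rw [h] at h1
  rw [Bool.eq_iff_iff]
  exact h1.symm.trans h2

theorem toL_sub {n m : ℕ} (ω : Mid n m → Bool) : toL n m ω ∈ (free n m).sublists' := by
  rw [List.mem_sublists']
  exact List.filter_sublist

theorem filter_sub {β : Type} [DecidableEq β] {v L : List β} (h : v.Sublist L) (hL : L.Nodup) :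
    L.filter (fun z => decide (z ∈ v)) = v := by
  induction h with
  | slnil => rfl
  | @cons l₁ l₂ a h ih =>
    rw [List.nodup_cons] at hL
    have ha : a ∉ l₁ := fun hh => hL.1 (h.subset hh)
    rw [List.filter_cons]
    simp only [ha, decide_false]
    exact ih hL.2
  | @cons_cons l₁ l₂ a h ih =>
    rw [List.nodup_cons] at hL
    rw [List.filter_cons]
    have : l₂.filter (fun z => decide (z ∈ a :: l₁)) = l₂.filter (fun z => decide (z ∈ l₁)) := by
      refine List.filter_congr fun z hz => ?_
      have : z ≠ a := fun hh => hL.1 (hh ▸ hz)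
      simp [this]
    rw [this, ih hL.2]
    simp

theorem toL_surj {n m : ℕ} {v : List (List Bool)} (hv : v ∈ (free n m).sublists') :
    ∃ ω : Mid n m → Bool, toL n m ω = v := by
  classical
  rw [List.mem_sublists'] at hv
  refine ⟨fun y => decide (true :: y.1 ∈ v), ?_⟩
  conv_rhs => rw [← filter_sub hv (nodup_free n m)]
  unfold toL
  refine List.filter_congr fun z hz => decide_eq_decide.mpr ?_
  obtain ⟨y, rfl, h1, h2⟩ := mem_free.1 hz
  constructor
  · rintro ⟨y', h3, h4⟩
    have : y = y'.1 := (List.cons.inj h3).2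
    rw [this]
    simpa using h4
  · intro h
    exact ⟨⟨y, h1, h2⟩, rfl, by simpa using h⟩

/-- counting partial oracles by lists -/
theorem cnt_toL {n m : ℕ} (P : (Mid n m → Bool) → Prop) (p : List (List Bool) → Bool)
    (h : ∀ ω, P ω ↔ p (toL n m ω) = true) :
    ESY.Fin.cnt P = (free n m).sublists'.countP p := by
  classical
  have := Fintype.ofFinite (Mid n m)
  have := Fintype.ofFinite (Mid n m → Bool)
  have hnd : ((free n m).sublists'.filter p).Nodup :=
    (List.nodup_sublists'.2 (nodup_free n m)).filter _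
  rw [ESY.Fin.cnt_eq, List.countP_eq_length_filter, ← List.toFinset_card_of_nodup hnd]
  refine Finset.card_bij (fun ω _ => toL n m ω) ?_ ?_ ?_
  · intro ω hω
    rw [List.mem_toFinset, List.mem_filter]
    exact ⟨toL_sub ω, (h ω).1 (Finset.mem_filter.1 hω).2⟩
  · intro ω _ ω' _ he
    exact toL_inj he
  · intro v hv
    rw [List.mem_toFinset, List.mem_filter] at hv
    obtain ⟨ω, rfl⟩ := toL_surj hv.1
    exact ⟨ω, Finset.mem_filter.2 ⟨Finset.mem_univ _, (h ω).2 hv.2⟩, rfl⟩

theorem length_sub {n m : ℕ} : (free n m).sublists'.length = 2 ^ Nat.card (Mid n m) := by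
  have h := cnt_toL (n := n) (m := m) (fun _ => True) (fun _ => true) (fun ω => by simp)
  rw [ESY.Fin.cnt_true (fun _ => trivial), ESY.Fin.card_pow] at h
  rw [h]
  simp

/-- the list oracle is the truncated glued oracle -/
theorem oracle_eq {X R : Oracle} {n e : ℕ} {T : List (List Bool)} (hme : mm n ≤ e)
    (hT : ∀ z, z ∈ T ↔ z.length ≤ e ∧ join X R z = true) (ω : Mid n (mm n) → Bool)
    (z : List Bool) : trunc (mm n) (join X (glue n (mm n) R ω)) z =
      lor (base T n (mm n) ++ toL n (mm n) ω) z := by
  unfold trunc lor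
  rw [Bool.eq_iff_iff, Bool.and_eq_true, decide_eq_true_iff, decide_eq_true_iff, List.mem_append]
  have hb : z ∈ base T n (mm n) ↔ z ∈ T ∧ z.length ≤ mm n ∧ isFree n z = false := by
    unfold base
    rw [List.mem_filter, Bool.and_eq_true, decide_eq_true_iff, Bool.not_eq_true']
  rw [hb, hT]
  by_cases hz : z.length ≤ mm n
  · rcases z with _ | ⟨_ | _, y⟩
    · have h1 : [] ∉ toL n (mm n) ω := fun h => by
        have := List.mem_filter.1 h
        obtain ⟨y, hy, -⟩ := mem_free.1 this.1
        simp at hy
      simp [join, h1]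
    · have h1 : false :: y ∉ toL n (mm n) ω := fun h => by
        have := List.mem_filter.1 h
        obtain ⟨y, hy, -⟩ := mem_free.1 this.1
        simp at hy
      have h2 : isFree n (false :: y) = false := by simp [isFree]
      simp only [hz, true_and, h1, or_false, h2, and_true]
      constructor
      · intro h
        exact ⟨by omega, h⟩
      · intro h
        exact h.2
    · have hy : y.length < mm n := by simpa using hz
      by_cases hn : n ≤ y.length
      · have h2 : isFree n (true :: y) = true := isFree_iff.2 ⟨y, rfl, hn⟩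
        have h3 := mem_toL (ω := ω) ⟨y, hn, hy⟩
        simp only at h3
        rw [h3]
        have h4 : join X (glue n (mm n) R ω) (true :: y) = ω ⟨y, hn, hy⟩ := by
          show glue n (mm n) R ω y = _
          unfold glue
          rw [dif_pos ⟨hn, hy⟩]
        rw [h4]
        simp [h2, hy]
      · have h2 : isFree n (true :: y) = false := by
          rw [Bool.eq_false_iff]
          intro h
          obtain ⟨y', h5, h6⟩ := isFree_iff.1 h
          have := (List.cons.inj h5).2
          rw [this] at hn
          exact hn h6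
        have h1 : true :: y ∉ toL n (mm n) ω := fun h => by
          have := List.mem_filter.1 h
          obtain ⟨y', h5, h6, -⟩ := mem_free.1 this.1
          have := (List.cons.inj h5).2
          rw [this] at hn
          exact hn h6
        have h4 : join X (glue n (mm n) R ω) (true :: y) = join X R (true :: y) := by
          show glue n (mm n) R ω y = R y
          unfold glue
          rw [dif_neg (fun h => hn h.1)]
        rw [h4]
        simp only [hz, true_and, h1, or_false, h2, and_true]
        constructor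
        · intro h
          exact ⟨by omega, h⟩
        · intro h
          exact h.2
  · have h1 : z ∉ toL n (mm n) ω := fun h => by
      have := List.mem_filter.1 h
      obtain ⟨y, rfl, h5, h6⟩ := mem_free.1 this.1
      simp only [List.length_cons] at hz
      omega
    simp [hz, h1]

theorem condB_iff {X R : Oracle} {U : Code} {l n k e : ℕ} {T : List (List Bool)}
    (hn : nx n ≤ l) (hme : mm n ≤ e) (hT : ∀ z, z ∈ T ↔ z.length ≤ e ∧ join X R z = true) :
    condB U l T n k = true ↔ Cond X U R n k := by
  unfold condB Cond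
  rw [mg_eq hn, lg_eq hn, decide_eq_true_iff]
  have h1 := cnt_toL (n := n) (m := mm n) (fun ω => DD U n (join X (glue n (mm n) R ω)))
    (fun v => ddB U (base T n (mm n) ++ v) (LL n) (mm n)) (fun ω =>
      (ddB_iff fun z => oracle_eq hme hT ω z).symm)
  rw [h1, length_sub]
  generalize (free n (mm n)).sublists'.countP
    (fun v => ddB U (base T n (mm n) ++ v) (LL n) (mm n)) = C
  have hcard : 2 ^ Nat.card (Mid n (mm n)) ≤ l := by
    have h2 : (free n (mm n)).length ≤ (strsLE (mm n)).length := List.length_filter_le _ _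
    have h3 := length_strsLE (mm n)
    have h4 : 2 ^ (free n (mm n)).length ≤ nx n :=
      Nat.pow_le_pow_right (by norm_num) (by omega)
    rw [← length_sub, List.length_sublists']
    omega
  have h4k : (4 : ℕ) ^ k = 2 ^ (2 * k) := by rw [pow_mul]; norm_num
  rw [h4k]
  unfold cpw
  rcases Nat.lt_or_ge (l + 1) (2 ^ (2 * k)) with h | h
  · rw [min_eq_right h.le]
    rcases Nat.eq_zero_or_pos C with hC | hC
    · rw [hC]; simp
    · constructor
      · intro _
        have : 1 * 2 ^ (2 * k) * 1 ≤ 1024 * 2 ^ (2 * k) * C :=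
          Nat.mul_le_mul (Nat.mul_le_mul (by norm_num) le_rfl) hC
        omega
      · intro _
        have : 1 * (l + 1) * 1 ≤ 1024 * (l + 1) * C :=
          Nat.mul_le_mul (Nat.mul_le_mul (by norm_num) le_rfl) hC
        omega
  · rw [min_eq_left h]

/-! ### the iteration -/

theorem st_inv {X R : Oracle} {U : Code} {l : ℕ} {T : List (List Bool)}
    (hT : ∀ z, z ∈ T ↔ z.length ≤ Nat.log 2 l - 1 ∧ join X R z = true) (t : ℕ) :
    ∃ i, st U l T t = (i, ep i, KK X U R i) ∧ (i = 0 ∨ ep i ≤ l) ∧ (i = t ∨ l < nx (ep i)) := by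
  classical
  induction t with
  | zero => exact ⟨0, rfl, Or.inl rfl, Or.inl rfl⟩
  | succ t ih =>
    obtain ⟨i, h1, h2, h3⟩ := ih
    rw [st, h1]
    unfold stp
    simp only
    by_cases h : nx (ep i) ≤ l
    · rw [if_pos (nxc_le_iff.2 h), (nxc_eq h).2.2]
      have h4 : i = t := by
        rcases h3 with h3 | h3
        · exact h3
        · omega
      have hme : mm (ep i) ≤ Nat.log 2 l - 1 := by
        have h5 : mm (ep i) + 1 ≤ Nat.log 2 l := by
          rw [Nat.le_log_iff_pow_le (by norm_num) (by
            have h6 : 0 < nx (ep i) := Nat.two_pow_pos _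
            omega)]
          exact (lt_nx (ep i)).2.2.2.le.trans h
        omega
      refine ⟨i + 1, ?_, Or.inr h, Or.inl (by omega)⟩
      have h7 := condB_iff (U := U) (k := KK X U R i) h hme hT
      have e : KK X U R (i + 1) =
          if Cond X U R (ep i) (KK X U R i) then KK X U R i else KK X U R i + 1 := by
        rw [KK]
      rw [e]
      by_cases hc : Cond X U R (ep i) (KK X U R i)
      · rw [if_pos hc, if_pos (h7.2 hc)]
        rfl
      · rw [if_neg hc, if_neg (fun h => hc (h7.1 h))]
        rfl
    · rw [if_neg (fun h' => h (nxc_le_iff.1 h'))]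
      exact ⟨i, rfl, h2, Or.inr (by omega)⟩

theorem ep_ge (i : ℕ) : i + 4 ≤ ep i ∧ 2 * i ≤ ep i := by
  induction i with
  | zero => simp [ep]
  | succ i ih =>
    obtain ⟨h1, h2, h3, h4⟩ := lt_nx (ep i)
    rw [ep]
    constructor
    · omega
    · omega

theorem st_final {X R : Oracle} {U : Code} {l : ℕ} {T : List (List Bool)}
    (hT : ∀ z, z ∈ T ↔ z.length ≤ Nat.log 2 l - 1 ∧ join X R z = true) :
    ∃ i, st U l T l = (i, ep i, KK X U R i) ∧ (i = 0 ∨ ep i ≤ l) ∧ l < nx (ep i) := by
  obtain ⟨i, h1, h2, h3⟩ := st_inv (U := U) hT l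
  refine ⟨i, h1, h2, ?_⟩
  rcases h3 with h3 | h3
  · have h5 := (ep_ge i).1
    obtain ⟨h6, h7, h8, h9⟩ := lt_nx (ep i)
    omega
  · exact h3

theorem KK_le_idx (X : Oracle) (U : Code) (R : Oracle) (j : ℕ) : KK X U R j ≤ j := by
  induction j with
  | zero => exact le_rfl
  | succ j ih =>
    rw [KK]
    split_ifs <;> omega

theorem ep_lt_succ (j : ℕ) : ep j < ep (j + 1) := by
  obtain ⟨h6, h7, h8, h9⟩ := lt_nx (ep j)
  show ep j < nx (ep j)
  omega

theorem ep_mono {i j : ℕ} (h : i ≤ j) : ep i ≤ ep j :=
  monotone_nat_of_le_succ (fun k => (ep_lt_succ k).le) h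

theorem epoch_unique {i j l : ℕ} (h1 : ep i ≤ l) (h2 : l < ep (i + 1)) (h3 : ep j ≤ l)
    (h4 : l < ep (j + 1)) : i = j := by
  rcases lt_trichotomy i j with h | h | h
  · have := ep_mono (show i + 1 ≤ j from h)
    omega
  · exact h
  · have := ep_mono (show j + 1 ≤ i from h)
    omega

theorem add_lt_ep {X R : Oracle} {U : Code} {j z : ℕ} (hz : z < 4 ^ KK X U R j) :
    ep j + z < ep (j + 1) := by
  have h1 : (4 : ℕ) ^ KK X U R j ≤ 2 ^ ep j := by
    have h2 := KK_le_idx X U R j
    have h3 := (ep_ge j).2
    have h4 : (4 : ℕ) ^ KK X U R j = 2 ^ (2 * KK X U R j) := by rw [pow_mul]; norm_num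
    rw [h4]
    exact Nat.pow_le_pow_right (by norm_num) (by omega)
  obtain ⟨h6, h7, h8, h9⟩ := lt_nx (ep j)
  have h10 : 2 ^ (mm (ep j) + 1) = 2 ^ mm (ep j) * 2 := pow_succ _ _
  have h11 : mm (ep j) < 2 ^ mm (ep j) := Nat.lt_two_pow_self
  show ep j + z < nx (ep j)
  omega

/-! ### the verifier -/

/-- the epoch does not depend on the oracle -/
theorem st_epoch (U : Code) (l : ℕ) (T T' : List (List Bool)) (i : ℕ) :
    (st U l T i).2.1 = (st U l T' i).2.1 := by
  induction i with
  | zero => rfl
  | succ i ih =>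
    rw [st, st]
    unfold stp
    rw [ih]
    split_ifs <;> first | exact ih | rfl

/-- the queries -/
def qsV (U : Code) (s : Bool) (p : List Bool) : List (List Bool) :=
  strsLE (Nat.log 2 (unp p).1.length - 1) ++
    (List.range ((st U (unp p).1.length [] (unp p).1.length).2.1 + 2 * (unp p).1.length + 4)).map
      fun i => true :: blk s ((unp p).1.length -
        (st U (unp p).1.length [] (unp p).1.length).2.1) (unp p).2 i

/-- the yes-strings -/
def yes (l : ℕ) (ans : List Bool) : List (List Bool) :=
  (((strsLE (Nat.log 2 l - 1)).zip ans).filter (fun q => q.2)).map fun q => q.1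

/-- the check, as a function of the state -/
def chkS (N l : ℕ) (x w ans : List Bool) (s : ℕ × ℕ × ℕ) : Bool :=
  (decide (x = List.replicate l true) && decide (s.2.1 ≤ l)) &&
    ((decide (l - s.2.1 < cpw l (2 * s.2.2)) && decide (N ≤ s.1)) &&
    (decide (w.length = s.2.1) && (List.range (s.2.1 + 2 * s.2.2 + 4)).all fun i =>
      decide ((ans.drop (strsLE (Nat.log 2 l - 1)).length)[i]? = some true)))

/-- the check -/
def chkV (U : Code) (N : ℕ) (p : List Bool × List Bool) : Bool :=
  chkS N (unp p.1).1.length (unp p.1).1 (unp p.1).2 p.2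
    (st U (unp p.1).1.length (yes (unp p.1).1.length p.2) (unp p.1).1.length)

/-! ### polynomial time -/

section pt

universe u
variable {α : Type u} [Rep α]

theorem bdd_log {l : α → ℕ} (hl : PT l) : Bdd (fun a => 2 ^ (Nat.log 2 (l a) - 1)) := by
  refine (bdd_nat hl).mono fun a => ?_
  rcases Nat.eq_zero_or_pos (l a) with h | h
  · rw [h]; simp
  · have h1 : 2 ^ (Nat.log 2 (l a) - 1) ≤ 2 ^ Nat.log 2 (l a) :=
      Nat.pow_le_pow_right (by norm_num) (by omega)
    have h2 := Nat.pow_log_le_self 2 (show l a ≠ 0 by omega)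
    omega

theorem PT_strsLog {l : α → ℕ} (hl : PT l) : PT (fun a => strsLE (Nat.log 2 (l a) - 1)) :=
  PT.strsLE ((PT.log2 hl).pred) (bdd_log hl)

theorem PT_blk {s : Bool} {z i : α → ℕ} {y : α → List Bool} (hz : PT z) (hi : PT i)
    (hy : PT y) : PT (fun a => blk s (z a) (y a) (i a)) :=
  PT.cons (PT.const s) (PT.append hy (PT.append (PT.replicate hz (PT.const true))
    (PT.cons (PT.const false) (PT.replicate hi (PT.const true)))))

theorem PT_yes {l : α → ℕ} {ans : α → List Bool} (hl : PT l) (ha : PT ans) :
    PT (fun a => yes (l a) (ans a)) := by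
  refine PT.map (g := fun _ q => q.1) (PT.filter (g := fun _ q => q.2)
    (PT.zip (PT_strsLog hl) ha) PT.id.snd.snd) PT.id.snd.fst

end pt

theorem PT_qsV {U : Code} (ha : PT U.ga) (hb : PT U.gb) (s : Bool) : PT (qsV U s) := by
  have h1 : PT (fun p : List Bool => unp p) := PT.unp PT.id
  have hl : PT (fun p : List Bool => (unp p).1.length) := h1.fst.length
  have hst : PT (fun p : List Bool => st U (unp p).1.length [] (unp p).1.length) :=
    PT_st ha hb hl (PT.const []) hl
  refine PT.append (PT_strsLog hl) (PT.map (g := fun p i => true :: blk s ((unp p).1.length -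
        (st U (unp p).1.length [] (unp p).1.length).2.1) (unp p).2 i)
    (PT.range (PT.add (PT.add hst.snd.fst (PT.mul (PT.const 2) hl)) (PT.const 4))) ?_)
  have hl' : PT (fun q : List Bool × ℕ => (unp q.1).1.length) := hl.comp PT.id.fst
  have hst' : PT (fun q : List Bool × ℕ => st U (unp q.1).1.length [] (unp q.1).1.length) :=
    hst.comp PT.id.fst
  have h1' : PT (fun q : List Bool × ℕ => unp q.1) := h1.comp PT.id.fst
  exact PT.cons (PT.const true) (PT_blk (PT.sub hl' hst'.snd.fst) PT.id.snd h1'.snd)

theorem PT_chkV {U : Code} (ha : PT U.ga) (hb : PT U.gb) (N : ℕ) : PT (chkV U N) := by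
  have h1 : PT (fun p : List Bool × List Bool => unp p.1) :=
    (PT.unp (PT.id (α := List Bool))).comp PT.id.fst
  have hl : PT (fun p : List Bool × List Bool => (unp p.1).1.length) := h1.fst.length
  have hy : PT (fun p : List Bool × List Bool => yes (unp p.1).1.length p.2) :=
    PT_yes hl PT.id.snd
  have hst : PT (fun p : List Bool × List Bool => st U (unp p.1).1.length
      (yes (unp p.1).1.length p.2) (unp p.1).1.length) := PT_st ha hb hl hy hl
  unfold chkV chkS
  have hQ : PT (fun p : List Bool × List Bool =>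
      (strsLE (Nat.log 2 (unp p.1).1.length - 1)).length) := (PT_strsLog hl).length
  refine PT.and (PT.and (PT.eq h1.fst (PT.replicate hl (PT.const true)))
    (PT.le hst.snd.fst hl)) (PT.and (PT.and (PT.lt (PT.sub hl hst.snd.fst)
    (PT.cpw hl (PT.mul (PT.const 2) hst.snd.snd))) (PT.le (PT.const N) hst.fst))
    (PT.and (PT.natEq h1.snd.length hst.snd.fst) (PT.all (PT.range (PT.add (PT.add hst.snd.fst
      (PT.mul (PT.const 2) hst.snd.snd)) (PT.const 4))) ?_)))
  have hQ' : PT (fun q : (List Bool × List Bool) × ℕ =>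
      (strsLE (Nat.log 2 (unp q.1.1).1.length - 1)).length) := hQ.comp PT.id.fst
  exact PT.eq (PT.getElem? (PT.drop PT.id.fst.snd hQ') PT.id.snd) (PT.const (some true))

/-! ### correctness -/

theorem mem_yes {l : ℕ} {O : Oracle} {ans' : List Bool} {z : List Bool} :
    z ∈ yes l ((strsLE (Nat.log 2 l - 1)).map O ++ ans') ↔
      z.length ≤ Nat.log 2 l - 1 ∧ O z = true := by
  unfold yes
  generalize Nat.log 2 l - 1 = e
  have h : ∀ (Q : List (List Bool)) (z : List Bool),
      z ∈ ((Q.zip (Q.map O ++ ans')).filter (fun q => q.2)).map (fun q => q.1) ↔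
        z ∈ Q ∧ O z = true := by
    intro Q
    induction Q with
    | nil => intro z; simp
    | cons a Q ih =>
      intro z
      rw [List.map_cons, List.cons_append, List.zip_cons_cons, List.filter_cons]
      by_cases ha : O a = true
      · simp only [ha, if_true, List.map_cons, List.mem_cons, ih]
        constructor
        · rintro (rfl | ⟨h1, h2⟩)
          · exact ⟨Or.inl rfl, ha⟩
          · exact ⟨Or.inr h1, h2⟩
        · rintro ⟨rfl | h1, h2⟩
          · exact Or.inl rfl
          · exact Or.inr ⟨h1, h2⟩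
      · simp only [ha, Bool.false_eq_true, if_false, ih, List.mem_cons]
        constructor
        · rintro ⟨h1, h2⟩
          exact ⟨Or.inr h1, h2⟩
        · rintro ⟨rfl | h1, h2⟩
          · exact absurd h2 ha
          · exact ⟨h1, h2⟩
  rw [h, mem_strsLE]

theorem length_qsV (U : Code) (s : Bool) (x w : List Bool) :
    (qsV U s (pr x w)).length ≤ poly 16 x.length := by
  unfold qsV
  rw [unp_pr]
  simp only [List.length_append, List.length_map, List.length_range]
  have h1 := length_strsLE (Nat.log 2 x.length - 1)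
  have h2 := (st_bound U x.length [] x.length).2.1
  generalize x.length = l at *
  unfold poly
  rcases Nat.lt_or_ge l 2 with h | h
  · have h3 : Nat.log 2 l = 0 := Nat.log_eq_zero_iff.2 (Or.inl h)
    rw [h3] at h1 ⊢
    simp only [Nat.zero_sub, Nat.zero_add, pow_one] at h1 ⊢
    interval_cases l
    · norm_num; omega
    · norm_num; omega
  · have h3 : 1 ≤ Nat.log 2 l := Nat.log_pos (by norm_num) h
    have h4 := Nat.pow_log_le_self 2 (show l ≠ 0 by omega)
    have h5 : Nat.log 2 l - 1 + 1 = Nat.log 2 l := by omega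
    rw [h5] at h1
    have h6 : l ^ 16 = l * l ^ 15 := by ring
    have h7 : 2 ^ 15 ≤ l ^ 15 := Nat.pow_le_pow_left h 15
    have h8 : l * 2 ^ 15 ≤ l * l ^ 15 := Nat.mul_le_mul_left _ h7
    rw [h6]
    norm_num at h8
    omega

/-- **The adversary pair is in `NP`.** -/
theorem adv_inNP (X : Oracle) (U : Code) (ha : PolyTime U.ga) (hb : PolyTime U.gb) (s : Bool)
    (N : ℕ) (R : Oracle) : InNP (join X R) (Adv X U s N R) := by
  rw [polyTime_iff] at ha hb
  refine inNP_of_nonadaptive (PT_qsV ha hb s) (PT_chkV ha hb N) 16 (length_qsV U s) fun x => ?_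
  -- the check on the true answers
  have key : ∀ w, chkV U N (pr x w, (qsV U s (pr x w)).map (join X R)) = true ↔
      ∃ i, ep i ≤ x.length ∧ x.length < ep (i + 1) ∧ x = List.replicate x.length true ∧
        x.length - ep i < 4 ^ KK X U R i ∧ N ≤ i ∧ w.length = ep i ∧
          On R s (ep i) (KK X U R i) (x.length - ep i) w := by
    intro w
    set l := x.length with hl
    set Q := strsLE (Nat.log 2 l - 1) with hQ
    set n0 := (st U l [] l).2.1 with hn0
    have hq : (qsV U s (pr x w)).map (join X R) = Q.map (join X R) ++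
        (List.range (n0 + 2 * l + 4)).map (fun i => R (blk s (l - n0) w i)) := by
      unfold qsV
      rw [unp_pr]
      simp only [List.map_append, List.map_map]
      rfl
    have hT : ∀ z, z ∈ yes l ((qsV U s (pr x w)).map (join X R)) ↔
        z.length ≤ Nat.log 2 l - 1 ∧ join X R z = true := by
      intro z
      rw [hq]
      exact mem_yes
    obtain ⟨i, hi1, hi0, hi2⟩ := st_final (U := U) hT
    have hn : n0 = ep i := by
      rw [hn0, st_epoch U l [] (yes l ((qsV U s (pr x w)).map (join X R))) l, hi1]
    have hchk : chkV U N (pr x w, (qsV U s (pr x w)).map (join X R)) =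
        chkS N l x w ((qsV U s (pr x w)).map (join X R)) (i, ep i, KK X U R i) := by
      unfold chkV
      simp only [unp_pr]
      rw [← hl, hi1]
    rw [hchk]
    unfold chkS
    have hdrop : ((qsV U s (pr x w)).map (join X R)).drop Q.length =
        (List.range (n0 + 2 * l + 4)).map (fun i => R (blk s (l - n0) w i)) := by
      rw [hq]
      exact List.drop_left' (by simp)
    simp only [← hQ, hdrop, Bool.and_eq_true, decide_eq_true_iff, List.all_eq_true,
      List.mem_range]
    have h4k : (4 : ℕ) ^ KK X U R i = 2 ^ (2 * KK X U R i) := by rw [pow_mul]; norm_num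
    have hlt : l - ep i < cpw l (2 * KK X U R i) ↔ l - ep i < 4 ^ KK X U R i := by
      rw [h4k]
      unfold cpw
      omega
    have hkl : KK X U R i ≤ l := by
      have := (st_bound U l (yes l ((qsV U s (pr x w)).map (join X R))) l).2.2
      rw [hi1] at this
      exact this
    have hOn : (∀ j < ep i + 2 * KK X U R i + 4,
        ((List.range (n0 + 2 * l + 4)).map (fun i => R (blk s (l - n0) w i)))[j]? = some true) ↔
        On R s (ep i) (KK X U R i) (l - ep i) w := by
      unfold On
      refine forall_congr' fun j => forall_congr' fun hj => ?_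
      rw [List.getElem?_map, List.getElem?_range (by omega)]
      simp only [Option.map_some, Option.some.injEq, hn]
    rw [hOn, hlt]
    constructor
    · rintro ⟨⟨h1, h2⟩, ⟨h3, h4⟩, h5, h6⟩
      exact ⟨i, h2, hi2, h1, h3, h4, h5, h6⟩
    · rintro ⟨i', g1, g2, g3, g4, g5, g6, g7⟩
      have hle : ep i ≤ l := by
        rcases hi0 with h0 | h0
        · have h7 : ep i ≤ ep i' := ep_mono (by omega)
          omega
        · exact h0
      have e : i = i' := epoch_unique hle hi2 g1 g2
      subst e
      exact ⟨⟨g3, g1⟩, ⟨g4, g5⟩, g6, g7⟩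
  constructor
  · rintro ⟨j, z, hj, hz, hx, y, hy, hon⟩
    have hxl : x.length = ep j + z := by rw [hx]; simp
    have hlt := add_lt_ep hz
    refine ⟨y, ?_, (key y).2 ⟨j, by omega, by omega, ?_, ?_, hj, hy, ?_⟩⟩
    · rw [hy]
      have h1 : ep j ≤ x.length := by omega
      have h2 : x.length ≤ x.length ^ 16 := Nat.le_self_pow (by norm_num) _
      unfold poly
      omega
    · rw [hxl]; exact hx
    · rw [hxl]; simpa using hz
    · rw [hxl]; simpa using hon
  · rintro ⟨w, -, hw⟩
    obtain ⟨i, h1, -, h2, h3, h4, h5, h6⟩ := (key w).1 hw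
    refine ⟨i, x.length - ep i, h4, h3, ?_, w, h5, h6⟩
    rw [h2]
    simp only [List.length_replicate]
    congr 1
    omega

end Pool.Agent.DNP
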