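import Pool.Agent.Lib.MP_b9add9_lc.PTBase

/-!
# Simulating the verifiers in polynomial time
-/

namespace Pool.Agent.DNP

open ESY Turing Pool.Agent.PolyTime

universe u v

variable {α : Type u} {β : Type v} [Rep α] [Rep β]

/-- the oracle given by a list -/
def lor (S : List (List Bool)) : Oracle := fun z => decide (z ∈ S)

/-- one round -/
def rnd (g : List Bool → List Bool) (S : List (List Bool)) (x ans : List Bool) : List Bool :=
  match g (pr x ans) with
  | false :: q => ans ++ [decide (q ∈ S)]
  | _ => ans

theorem answers_rec (g : List Bool → List Bool) (S : List (List Bool)) (x : List Bool) (t : ℕ) :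
    Nat.rec (motive := fun _ => List Bool) [] (fun _ s => rnd g S x s) t =
      answers (lor S) g x t := by
  induction t with
  | zero => rfl
  | succ t ih =>
    simp only at ih ⊢
    rw [ih, answers_succ]
    rfl

theorem sz_bits (u : List Bool) : sz u ≤ 4 * u.length + 1 := by
  induction u with
  | nil => simp
  | cons b u ih =>
    have := sz_bool b
    simp only [sz_cons, List.length_cons]
    omega

theorem PT_mem {x : α → List Bool} {S : α → List (List Bool)} (hx : PT x) (hS : PT S) :
    PT (fun a => decide (x a ∈ S a)) :=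
  (PT.contains hx hS).congr fun _ => decide_eq_decide.mpr Iff.rfl

theorem PT_rnd {g : List Bool → List Bool} (hg : PT g) {S : α → List (List Bool)}
    {x y : α → List Bool} (hS : PT S) (hx : PT x) (hy : PT y) :
    PT (fun a => rnd g (S a) (x a) (y a)) := by
  have h1 : PT (fun a => g (pr (x a) (y a))) :=
    PT.comp hg (f := fun a => pr (x a) (y a)) (PT.pr hx hy)
  have h2 : PT (fun p : α × (Bool × List Bool) =>
      if p.2.1 then y p.1 else y p.1 ++ [decide (p.2.2 ∈ S p.1)]) := by
    have hy' : PT (fun p : α × (Bool × List Bool) => y p.1) := hy.comp PT.id.fst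
    have hS' : PT (fun p : α × (Bool × List Bool) => S p.1) := hS.comp PT.id.fst
    exact PT.ite PT.id.snd.fst hy' (PT.append hy'
      (PT.cons (PT_mem PT.id.snd.snd hS') (PT.const [])))
  refine (PT.listCases (l := fun a => g (pr (x a) (y a))) (f := y)
    (g := fun a b q => if b then y a else y a ++ [decide (q ∈ S a)]) h1 hy h2).congr fun a => ?_
  unfold rnd
  rcases g (pr (x a) (y a)) with _ | ⟨_ | _, q⟩ <;> rfl

theorem PT_answers {g : List Bool → List Bool} (hg : PT g) {S : α → List (List Bool)}
    {x : α → List Bool} {t : α → ℕ} (hS : PT S) (hx : PT x) (ht : PT t) :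
    PT (fun a => answers (lor (S a)) g (x a) (t a)) := by
  refine (PT.natRec (g := fun a _ s => rnd g (S a) (x a) s) (B := fun a => 4 * sz (t a) + 1)
    ht (PT.const []) ?_ ?_ ?_).congr fun a => answers_rec _ _ _ _
  · exact PT_rnd hg (hS.comp PT.id.fst) (hx.comp PT.id.fst) PT.id.snd.snd
  · exact ((Bdd.const 4).mul ht.bdd).add (Bdd.const 1)
  · intro a m hm
    rw [answers_rec]
    have h1 := sz_bits (answers (lor (S a)) g (x a) m)
    have h2 := length_answers (lor (S a)) g (x a) m
    rw [sz_nat]
    omega

/-- acceptance of `q`, by brute force -/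
def accB (g : List Bool → List Bool) (c : ℕ) (S : List (List Bool)) (m : ℕ) (q : List Bool) :
    Bool :=
  (strsLE m).any fun w => decide (w.length ≤ poly c q.length) &&
    decide (g (pr (pr q w) (answers (lor S) g (pr q w) (poly c q.length))) = [true, true])

theorem PT_poly (c : ℕ) {f : α → ℕ} (hf : PT f) : PT (fun a => poly c (f a)) :=
  PT.add (PT.pow hf c) (PT.const c)

theorem PT_accB {g : List Bool → List Bool} (hg : PT g) (c : ℕ) {S : α → List (List Bool)}
    {m : α → ℕ} {q : α → List Bool} (hS : PT S) (hm : PT m) (hb : Bdd (fun a => 2 ^ m a))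
    (hq : PT q) : PT (fun a => accB g c (S a) (m a) (q a)) := by
  refine PT.any (g := fun a w => decide (w.length ≤ poly c (q a).length) &&
    decide (g (pr (pr (q a) w) (answers (lor (S a)) g (pr (q a) w) (poly c (q a).length))) =
      [true, true])) (PT.strsLE hm hb) ?_
  have hq' : PT (fun p : α × List Bool => q p.1) := hq.comp PT.id.fst
  have hS' : PT (fun p : α × List Bool => S p.1) := hS.comp PT.id.fst
  have hp : PT (fun p : α × List Bool => poly c (q p.1).length) := PT_poly c hq'.length
  have hpr : PT (fun p : α × List Bool => pr (q p.1) p.2) := PT.pr hq' PT.id.snd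
  have ha : PT (fun p : α × List Bool => answers (lor (S p.1)) g (pr (q p.1) p.2)
      (poly c (q p.1).length)) := PT_answers hg hS' hpr hp
  have hgg : PT (fun p : α × List Bool => g (pr (pr (q p.1) p.2)
      (answers (lor (S p.1)) g (pr (q p.1) p.2) (poly c (q p.1).length)))) :=
    PT.comp hg (f := fun p : α × List Bool => pr (pr (q p.1) p.2)
      (answers (lor (S p.1)) g (pr (q p.1) p.2) (poly c (q p.1).length))) (PT.pr hpr ha)
  exact PT.and (PT.le PT.id.snd.length hp) (PT.eq hgg (PT.const [true, true]))

/-- with the right oracle, `accB` is acceptance -/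
theorem accB_iff {g : List Bool → List Bool} {c m : ℕ} {S : List (List Bool)} {O : Oracle}
    (h : ∀ z, trunc m O z = lor S z) (q : List Bool) : accB g c S m q = true ↔ Acc g c m O q := by
  have h' : trunc m O = lor S := funext h
  unfold accB Acc
  rw [List.any_eq_true, h']
  simp only [mem_strsLE, Bool.and_eq_true, decide_eq_true_iff]
  rfl

/-- the pair intersects, by brute force -/
def ddB (U : Code) (S : List (List Bool)) (a m : ℕ) : Bool :=
  (strsLE a).any fun q => accB U.ga U.ca S m q && accB U.gb U.cb S m q

theorem PT_ddB {U : Code} (ha : PT U.ga) (hb : PT U.gb) {S : α → List (List Bool)}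
    {r m : α → ℕ} (hS : PT S) (hr : PT r) (hrb : Bdd (fun a => 2 ^ r a)) (hm : PT m)
    (hmb : Bdd (fun a => 2 ^ m a)) : PT (fun a => ddB U (S a) (r a) (m a)) := by
  refine PT.any (g := fun a q => accB U.ga U.ca (S a) (m a) q && accB U.gb U.cb (S a) (m a) q)
    (PT.strsLE hr hrb) ?_
  have hS' : PT (fun p : α × List Bool => S p.1) := hS.comp PT.id.fst
  have hm' : PT (fun p : α × List Bool => m p.1) := hm.comp PT.id.fst
  have hmb' : Bdd (fun p : α × List Bool => 2 ^ m p.1) :=
    Bdd.comp (f := fun a => 2 ^ m a) hmb (h := fun p : α × List Bool => p.1)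
      (PT.bdd (PT.id (α := α × List Bool)).fst)
  exact PT.and (PT_accB ha U.ca hS' hm' hmb' PT.id.snd) (PT_accB hb U.cb hS' hm' hmb' PT.id.snd)

theorem ddB_iff {U : Code} {S : List (List Bool)} {n : ℕ} {O : Oracle}
    (h : ∀ z, trunc (mm n) O z = lor S z) : ddB U S (LL n) (mm n) = true ↔ DD U n O := by
  unfold ddB DD
  rw [List.any_eq_true]
  refine exists_congr fun q => ?_
  rw [mem_strsLE, Bool.and_eq_true, accB_iff h, accB_iff h]

end Pool.Agent.DNP
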