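import Pool.Agent.Lib.MP_b9add9_lc.PTSim

/-!
# Updating the parameter in polynomial time
-/

namespace Pool.Agent.DNP

open ESY Turing Pool.Agent.PolyTime

universe u v

variable {α : Type u} {β : Type v} [Rep α] [Rep β]

/-! ### capped epochs -/

/-- the next epoch, capped -/
def nxc (l n : ℕ) : ℕ := cpw l (cpw l (cpw l (cpw l n) + 1))

theorem lt_nx (n : ℕ) : n < 2 ^ n ∧ 2 ^ n < mm n ∧ mm n + 1 < 2 ^ (mm n + 1) ∧
    2 ^ (mm n + 1) < nx n :=
  ⟨Nat.lt_two_pow_self, Nat.lt_two_pow_self, Nat.lt_two_pow_self, Nat.lt_two_pow_self⟩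

theorem nxc_eq {l n : ℕ} (h : nx n ≤ l) :
    cpw l n = 2 ^ n ∧ cpw l (cpw l n) = mm n ∧ nxc l n = nx n := by
  obtain ⟨-, h2, h3, h4⟩ := lt_nx n
  have e1 : cpw l n = 2 ^ n := cp_eq (by omega)
  have e2 : cpw l (cpw l n) = mm n := by
    rw [e1]
    exact cp_eq (show mm n ≤ l + 1 by omega)
  refine ⟨e1, e2, ?_⟩
  unfold nxc
  rw [e2]
  have e3 : cpw l (mm n + 1) = 2 ^ (mm n + 1) := cp_eq (by omega)
  rw [e3]
  exact cp_eq (show nx n ≤ l + 1 by omega)

theorem nxc_le_iff {l n : ℕ} : nxc l n ≤ l ↔ nx n ≤ l := by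
  refine ⟨fun h => ?_, fun h => by rw [(nxc_eq h).2.2]; exact h⟩
  unfold nxc at h
  rw [cp_le_iff] at h
  set c := cpw l (cpw l (cpw l n) + 1) with hc
  have h1 : c ≤ l := (Nat.lt_two_pow_self).le.trans h
  have h2 := cp_le_iff.1 h1
  have h3 : cpw l (cpw l n) ≤ l := by
    have := (Nat.lt_two_pow_self (n := cpw l (cpw l n) + 1)).le.trans h2
    omega
  have h4 := cp_le_iff.1 h3
  have h5 : cpw l n ≤ l := (Nat.lt_two_pow_self).le.trans h4
  have h6 := cp_le_iff.1 h5
  have e1 : cpw l n = 2 ^ n := cp_eq (by omega)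
  have e2 : cpw l (cpw l n) = mm n := by
    rw [e1] at h4 ⊢
    exact cp_eq (by omega)
  have e3 : c = 2 ^ (mm n + 1) := by
    rw [hc, e2]
    rw [e2] at h2
    exact cp_eq (by omega)
  rw [e3] at h
  exact h

/-- the bound for the queries, guarded -/
def mg (l n : ℕ) : ℕ := if nxc l n ≤ l then cpw l (cpw l n) else 0

/-- the bound for the inputs, guarded -/
def lg (l n : ℕ) : ℕ := if nxc l n ≤ l then cpw l n else 0

theorem mg_eq {l n : ℕ} (h : nx n ≤ l) : mg l n = mm n := by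
  unfold mg
  rw [if_pos (nxc_le_iff.2 h)]
  exact (nxc_eq h).2.1

theorem lg_eq {l n : ℕ} (h : nx n ≤ l) : lg l n = LL n := by
  unfold lg
  rw [if_pos (nxc_le_iff.2 h)]
  exact (nxc_eq h).1

theorem mg_bound (l n : ℕ) : 2 ^ 2 ^ (mg l n + 1) ≤ l + 4 := by
  by_cases h : nx n ≤ l
  · rw [mg_eq h]
    have : nx n = 2 ^ 2 ^ (mm n + 1) := rfl
    omega
  · unfold mg
    rw [if_neg (fun h' => h (nxc_le_iff.1 h'))]
    norm_num

theorem lg_bound (l n : ℕ) : 2 ^ lg l n ≤ l + 4 := by
  by_cases h : nx n ≤ l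
  · rw [lg_eq h]
    obtain ⟨-, h2, h3, h4⟩ := lt_nx n
    have : 2 ^ LL n = mm n := rfl
    omega
  · unfold lg
    rw [if_neg (fun h' => h (nxc_le_iff.1 h'))]
    norm_num

theorem PT_nxc {f g : α → ℕ} (hf : PT f) (hg : PT g) : PT (fun a => nxc (f a) (g a)) :=
  PT.cpw hf (PT.cpw hf (PT.succ (PT.cpw hf (PT.cpw hf hg))))

theorem PT_mg {f g : α → ℕ} (hf : PT f) (hg : PT g) : PT (fun a => mg (f a) (g a)) :=
  PT.iteProp (PT.le (PT_nxc hf hg) hf) (PT.cpw hf (PT.cpw hf hg)) (PT.const 0)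

theorem PT_lg {f g : α → ℕ} (hf : PT f) (hg : PT g) : PT (fun a => lg (f a) (g a)) :=
  PT.iteProp (PT.le (PT_nxc hf hg) hf) (PT.cpw hf hg) (PT.const 0)

theorem bdd_nat {f : α → ℕ} (hf : PT f) : Bdd (fun a => f a + 4) := by
  refine (hf.bdd.add (Bdd.const 4)).mono fun a => ?_
  rw [sz_nat]
  omega

/-! ### the free strings -/

/-- a string whose value is not determined at epoch `n` -/
def isFree (n : ℕ) (z : List Bool) : Bool := decide (z.head? = some true) && decide (n < z.length)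

/-- the free strings of length at most `m` -/
def free (n m : ℕ) : List (List Bool) := (strsLE m).filter (isFree n)

/-- the determined part -/
def base (T : List (List Bool)) (n m : ℕ) : List (List Bool) :=
  T.filter fun z => decide (z.length ≤ m) && !isFree n z

theorem PT_isFree {n : α → ℕ} {z : α → List Bool} (hn : PT n) (hz : PT z) :
    PT (fun a => isFree (n a) (z a)) :=
  PT.and (PT.eq (PT.head? hz) (PT.const (some true))) (PT.lt hn hz.length)

theorem PT_free {n m : α → ℕ} (hn : PT n) (hm : PT m) (hb : Bdd (fun a => 2 ^ m a)) :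
    PT (fun a => free (n a) (m a)) := by
  refine PT.filter (g := fun a z => isFree (n a) z) (PT.strsLE hm hb) ?_
  exact PT_isFree (α := α × List Bool) (n := fun p => n p.1) (hn.comp PT.id.fst) PT.id.snd

theorem PT_base {T : α → List (List Bool)} {n m : α → ℕ} (hT : PT T) (hn : PT n) (hm : PT m) :
    PT (fun a => base (T a) (n a) (m a)) := by
  refine PT.filter (g := fun a z => decide (z.length ≤ m a) && !isFree (n a) z) hT ?_
  have hm' : PT (fun p : α × List Bool => m p.1) := hm.comp PT.id.fst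
  have hn' : PT (fun p : α × List Bool => n p.1) := hn.comp PT.id.fst
  exact PT.and (PT.le PT.id.snd.length hm') (PT.not (PT_isFree hn' PT.id.snd))

/-- the update condition, by brute force -/
def condB (U : Code) (l : ℕ) (T : List (List Bool)) (n k : ℕ) : Bool :=
  decide ((free n (mg l n)).sublists'.length ≤ 1024 * cpw l (2 * k) *
    (free n (mg l n)).sublists'.countP
      fun v => ddB U (base T n (mg l n) ++ v) (lg l n) (mg l n))

theorem PT_condB {U : Code} (ha : PT U.ga) (hb : PT U.gb) {l n k : α → ℕ}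
    {T : α → List (List Bool)} (hl : PT l) (hT : PT T) (hn : PT n) (hk : PT k) :
    PT (fun a => condB U (l a) (T a) (n a) (k a)) := by
  have hm : PT (fun a => mg (l a) (n a)) := PT_mg hl hn
  have hr : PT (fun a => lg (l a) (n a)) := PT_lg hl hn
  have hmb : Bdd (fun a => 2 ^ mg (l a) (n a)) := (bdd_nat hl).mono fun a => by
    refine le_trans ?_ (mg_bound (l a) (n a))
    refine Nat.pow_le_pow_right (by norm_num) ?_
    exact (Nat.lt_two_pow_self).le.trans (Nat.pow_le_pow_right (by norm_num) (by omega))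
  have hrb : Bdd (fun a => 2 ^ lg (l a) (n a)) := (bdd_nat hl).mono fun a => lg_bound _ _
  have hf : PT (fun a => free (n a) (mg (l a) (n a))) := PT_free hn hm hmb
  have hs : PT (fun a => (free (n a) (mg (l a) (n a))).sublists') := by
    refine PT.sublists hf ((bdd_nat hl).mono fun a => ?_)
    refine le_trans ?_ (mg_bound (l a) (n a))
    refine Nat.pow_le_pow_right (by norm_num) ?_
    have h1 : (free (n a) (mg (l a) (n a))).length ≤ (strsLE (mg (l a) (n a))).length :=
      List.length_filter_le _ _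
    have h2 := length_strsLE (mg (l a) (n a))
    omega
  have hB : PT (fun a => base (T a) (n a) (mg (l a) (n a))) := PT_base hT hn hm
  have hm' : PT (fun p : α × List (List Bool) => mg (l p.1) (n p.1)) := hm.comp PT.id.fst
  have hr' : PT (fun p : α × List (List Bool) => lg (l p.1) (n p.1)) := hr.comp PT.id.fst
  have hB' : PT (fun p : α × List (List Bool) => base (T p.1) (n p.1) (mg (l p.1) (n p.1))) :=
    hB.comp PT.id.fst
  have hfst : Bdd (fun p : α × List (List Bool) => sz p.1) := (PT.id.fst).bdd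
  have hmb' : Bdd (fun p : α × List (List Bool) => 2 ^ mg (l p.1) (n p.1)) :=
    Bdd.comp (f := fun a => 2 ^ mg (l a) (n a)) hmb (h := fun p : α × List (List Bool) => p.1) hfst
  have hrb' : Bdd (fun p : α × List (List Bool) => 2 ^ lg (l p.1) (n p.1)) :=
    Bdd.comp (f := fun a => 2 ^ lg (l a) (n a)) hrb (h := fun p : α × List (List Bool) => p.1) hfst
  have hdd : PT (fun p : α × List (List Bool) => ddB U
      (base (T p.1) (n p.1) (mg (l p.1) (n p.1)) ++ p.2) (lg (l p.1) (n p.1))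
      (mg (l p.1) (n p.1))) :=
    PT_ddB ha hb (PT.append hB' PT.id.snd) hr' hrb' hm' hmb'
  have hc : PT (fun a => (free (n a) (mg (l a) (n a))).sublists'.countP
      fun v => ddB U (base (T a) (n a) (mg (l a) (n a)) ++ v) (lg (l a) (n a))
        (mg (l a) (n a))) :=
    PT.countP (g := fun a v => ddB U (base (T a) (n a) (mg (l a) (n a)) ++ v) (lg (l a) (n a))
        (mg (l a) (n a))) hs hdd
  exact PT.le hs.length (PT.mul (PT.mul (PT.const 1024) (PT.cpw hl (PT.mul (PT.const 2) hk))) hc)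

/-- one step: index, epoch, parameter -/
def stp (U : Code) (l : ℕ) (T : List (List Bool)) (s : ℕ × ℕ × ℕ) : ℕ × ℕ × ℕ :=
  if nxc l s.2.1 ≤ l then
    (s.1 + 1, nxc l s.2.1, if condB U l T s.2.1 s.2.2 = true then s.2.2 else s.2.2 + 1)
  else s

/-- the iteration -/
def st (U : Code) (l : ℕ) (T : List (List Bool)) : ℕ → ℕ × ℕ × ℕ
  | 0 => (0, 4, 0)
  | i + 1 => stp U l T (st U l T i)

theorem st_rec (U : Code) (l : ℕ) (T : List (List Bool)) (i : ℕ) :
    Nat.rec (motive := fun _ => ℕ × ℕ × ℕ) (0, 4, 0) (fun _ s => stp U l T s) i = st U l T i := by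
  induction i with
  | zero => rfl
  | succ i ih => simp only at ih ⊢; rw [ih]; rfl

theorem st_bound (U : Code) (l : ℕ) (T : List (List Bool)) (i : ℕ) :
    (st U l T i).1 ≤ i ∧ (st U l T i).2.1 ≤ l + 4 ∧ (st U l T i).2.2 ≤ i := by
  induction i with
  | zero => simp [st]
  | succ i ih =>
    obtain ⟨h1, h2, h3⟩ := ih
    rw [st]
    unfold stp
    split_ifs with h4 h5
    · simp only; omega
    · simp only; omega
    · omega

theorem PT_st {U : Code} (ha : PT U.ga) (hb : PT U.gb) {l i : α → ℕ} {T : α → List (List Bool)}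
    (hl : PT l) (hT : PT T) (hi : PT i) : PT (fun a => st U (l a) (T a) (i a)) := by
  refine (PT.natRec (g := fun a _ s => stp U (l a) (T a) s)
    (B := fun a => 4 * sz (i a) + 2 * (l a + 4) + 20) hi (PT.const (0, 4, 0)) ?_ ?_ ?_).congr
    fun a => st_rec _ _ _ _
  · have hl' : PT (fun p : α × (ℕ × (ℕ × ℕ × ℕ)) => l p.1) := hl.comp PT.id.fst
    have hT' : PT (fun p : α × (ℕ × (ℕ × ℕ × ℕ)) => T p.1) := hT.comp PT.id.fst
    have hs1 : PT (fun p : α × (ℕ × (ℕ × ℕ × ℕ)) => p.2.2.1) := PT.id.snd.snd.fst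
    have hs2 : PT (fun p : α × (ℕ × (ℕ × ℕ × ℕ)) => p.2.2.2.1) := PT.id.snd.snd.snd.fst
    have hs3 : PT (fun p : α × (ℕ × (ℕ × ℕ × ℕ)) => p.2.2.2.2) := PT.id.snd.snd.snd.snd
    have hn := PT_nxc hl' hs2
    exact PT.iteProp (PT.le hn hl') (PT.pair hs1.succ (PT.pair hn
      (PT.ite (PT_condB ha hb hl' hT' hs2 hs3) hs3 hs3.succ))) PT.id.snd.snd
  · exact (((Bdd.const 4).mul hi.bdd).add ((Bdd.const 2).mul (bdd_nat hl))).add (Bdd.const 20)
  · intro a m hm
    rw [st_rec]
    obtain ⟨h1, h2, h3⟩ := st_bound U (l a) (T a) m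
    rw [sz_prod, sz_prod, sz_nat, sz_nat, sz_nat, sz_nat]
    omega

end Pool.Agent.DNP
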