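import Pool.Agent.Lib.MP_b9add9_lc.Model
import Pool.Agent.Lib.MP_80aaf5_lc.Density

/-!
# The adversary pair
-/

namespace Pool.Agent.DNP

open ESY MeasureTheory Turing Pool.Agent.PolyTime

/-- two verifiers -/
structure Code where
  ga : List Bool → List Bool
  ca : ℕ
  gb : List Bool → List Bool
  cb : ℕ

/-- the oracle restricted to strings of length at most `m` -/
def trunc (m : ℕ) (O : Oracle) : Oracle := fun z => decide (z.length ≤ m) && O z

/-- acceptance of `q` with the truncated oracle -/
def Acc (g : List Bool → List Bool) (c m : ℕ) (O : Oracle) (q : List Bool) : Prop :=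
  ∃ w : List Bool, w.length ≤ m ∧ w.length ≤ poly c q.length ∧
    Outputs (trunc m O) g (pr q w) (poly c q.length) [true]

def LL (n : ℕ) : ℕ := 2 ^ n
def mm (n : ℕ) : ℕ := 2 ^ (2 ^ n)
def nx (n : ℕ) : ℕ := 2 ^ (2 ^ (mm n + 1))

/-- the epochs -/
def ep : ℕ → ℕ
  | 0 => 4
  | j + 1 => nx (ep j)

/-- the pair intersects, as seen at epoch `n` -/
def DD (U : Code) (n : ℕ) (O : Oracle) : Prop :=
  ∃ q : List Bool, q.length ≤ LL n ∧ Acc U.ga U.ca (mm n) O q ∧ Acc U.gb U.cb (mm n) O q

open Classical in
/-- replace the values of `R` on the strings of length in `[n, L)` by `ω` -/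
noncomputable def glue (n L : ℕ) (R : Oracle) (ω : Mid n L → Bool) : Oracle := fun x =>
  if h : n ≤ x.length ∧ x.length < L then ω ⟨x, h⟩ else R x

/-- the conditional probability of an intersection is not small -/
def Cond (X : Oracle) (U : Code) (R : Oracle) (n k : ℕ) : Prop :=
  2 ^ Nat.card (Mid n (mm n)) ≤ 1024 * 4 ^ k *
    Fin.cnt (fun ω : Mid n (mm n) → Bool => DD U n (join X (glue n (mm n) R ω)))

open Classical in
/-- the parameter of the epochs -/
noncomputable def KK (X : Oracle) (U : Code) (R : Oracle) : ℕ → ℕ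
  | 0 => 0
  | j + 1 => if Cond X U R (ep j) (KK X U R j) then KK X U R j else KK X U R j + 1

/-- the strings of the block `(s, z, y)` -/
def blk (s : Bool) (z : ℕ) (y : List Bool) (i : ℕ) : List Bool :=
  s :: (y ++ (List.replicate z true ++ false :: List.replicate i true))

/-- all bits of the block are on -/
def On (R : Oracle) (s : Bool) (n k z : ℕ) (y : List Bool) : Prop :=
  ∀ i < n + 2 * k + 4, R (blk s z y i) = true

/-- the two sides of the adversary pair, from epoch `N` on -/
def Adv (X : Oracle) (U : Code) (s : Bool) (N : ℕ) (R : Oracle) : Set (List Bool) :=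
  {x | ∃ j z, N ≤ j ∧ z < 4 ^ KK X U R j ∧ x = List.replicate (ep j + z) true ∧
    ∃ y : List Bool, y.length = ep j ∧ On R s (ep j) (KK X U R j) z y}

end Pool.Agent.DNP
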